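import Mathlib

/-!
# The definitions used by the classes of stably non-degenerate germs and polynomials
-/

noncomputable section

namespace MPb07157

open MvPolynomial MeasureTheory

variable {n m k : ℕ}

/-- The product `f(x_1, …, x_n) g(x_{n+1}, …, x_{n+m})`. -/
def prodSep (f : MvPolynomial (Fin n) ℂ) (g : MvPolynomial (Fin m) ℂ) :
    MvPolynomial (Fin (n + m)) ℂ :=
  rename (Fin.castAdd m) f * rename (Fin.natAdd n) g

/-- Near the points of `W`, the polynomial `f` is a rational function without zeros and poles times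
`g(u_1/q, …, u_k/q)`, where `q` is a polynomial without zeros on `W` and the `u_j` are polynomials
which vanish on `W` and whose differentials at the points of `W` are linearly independent. -/
def TrivAlong (f : MvPolynomial (Fin n) ℂ) (W : Set (Fin n → ℂ)) (g : MvPolynomial (Fin k) ℂ) :
    Prop :=
  ∃ (u : Fin k → MvPolynomial (Fin n) ℂ) (a b q : MvPolynomial (Fin n) ℂ),
    (∀ x, eval x q ≠ 0 →
      eval x a * eval x f = eval x b * eval (fun j => eval x (u j) / eval x q) g) ∧
    ∀ p ∈ W, eval p a ≠ 0 ∧ eval p b ≠ 0 ∧ eval p q ≠ 0 ∧ (∀ j, eval p (u j) = 0) ∧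
      LinearIndependent ℂ fun (j : Fin k) (l : Fin n) => eval p (pderiv l (u j))

/-- The polynomial relations between the partial derivatives of `f` are generated by the linear
ones. -/
def LinType (f : MvPolynomial (Fin n) ℂ) : Prop :=
  ∀ M : ℕ, 0 < M → ∀ F : MvPolynomial (Fin n) (MvPolynomial (Fin n) ℂ), F.IsHomogeneous M →
    eval (fun j => pderiv j f) F = 0 →
    ∃ T : Fin n → MvPolynomial (Fin n) (MvPolynomial (Fin n) ℂ),
      ∑ i, T i * C (pderiv i f) = 0 ∧ F = ∑ i, T i * X i

/-- Each linear vector field which kills `f` has divergence zero. -/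
def NS (f : MvPolynomial (Fin n) ℂ) : Prop :=
  ∀ a : Fin n → MvPolynomial (Fin n) ℂ, (∀ i, (a i).IsHomogeneous 1) →
    ∑ i, a i * pderiv i f = 0 → ∑ i, pderiv i (a i) = 0

/-- `f^(-α)` is not a sum of derivatives of elements of `ℂ[x][1/f] f^(-α)`. -/
def NonEx (f : MvPolynomial (Fin n) ℂ) (α : ℂ) : Prop :=
  ∀ (m : ℕ) (a : Fin n → MvPolynomial (Fin n) ℂ),
    ∑ i, (f * pderiv i (a i) - C (α + m) * (a i * pderiv i f)) ≠ f ^ (m + 1)

/-- Three conditions which imply that `-n/d` is a root of the Bernstein–Sato polynomial of a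
homogeneous polynomial of degree `d` in `n` variables: the log canonical threshold is `n/d`; or the
relations between the partial derivatives are generated by the linear ones, and each linear vector
field which kills `f` has divergence zero; or `f^(-n/d)` is not a sum of partial derivatives of
elements of `ℂ[x][1/f] f^(-n/d)`. -/
def ConeRoot0 (f : MvPolynomial (Fin n) ℂ) (d : ℕ) : Prop :=
  (∀ c : ℝ, 0 < c → c < (n : ℝ) / d →
    IntegrableOn (fun x => ‖eval x f‖ ^ (-(2 * c))) (Metric.ball (0 : Fin n → ℂ) 1)) ∨
  (LinType f ∧ NS f) ∨ NonEx f (n / d)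

/-- There is a polynomial vector field which kills `f` and does not vanish at `p`. -/
def QHat (f : MvPolynomial (Fin n) ℂ) (p : Fin n → ℂ) : Prop :=
  ∃ a : Fin n → MvPolynomial (Fin n) ℂ, ∑ i, a i * pderiv i f = 0 ∧ ∃ i, eval p (a i) ≠ 0

/-- The common zeros `p ≠ 0` of the partial derivatives of `f` lie on finitely many lines through the
origin, and for each of them there is a polynomial vector field which kills `f` and does not vanish
at `p`. -/
def IsoLines (f : MvPolynomial (Fin n) ℂ) : Prop :=
  ∃ B : Finset (Fin n → ℂ), ∀ p : Fin n → ℂ, p ≠ 0 → (∀ i, eval p (pderiv i f) = 0) →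
    QHat f p ∧ ∃ b ∈ B, ∃ c : ℂ, p = c • b

/-- Four conditions for a homogeneous polynomial `f` of degree `d` in `n` variables, each of which
implies that `-n/d` is a root of its Bernstein–Sato polynomial if it is a pole of its zeta function,
but not of the zeta function of a germ outside the origin: the three conditions `ConeRoot0`, and
`IsoLines`. -/
def ConeRoot (f : MvPolynomial (Fin n) ℂ) (d : ℕ) : Prop :=
  ConeRoot0 f d ∨ IsoLines f

namespace SU

/-- The Hessian matrix of a polynomial at the origin. -/
def hess {n : ℕ} (f : MvPolynomial (Fin n) ℂ) : Matrix (Fin n) (Fin n) ℂ :=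
  Matrix.of fun i j => coeff 0 (pderiv i (pderiv j f))

/-- The power series `g(x, y) + ∑ z_i^{e_i}`. -/
def suspP {r : ℕ} (g : MvPowerSeries (Fin 2) ℂ) (e : Fin r → ℕ) :
    MvPowerSeries (Fin (2 + r)) ℂ :=
  MvPowerSeries.subst (fun j : Fin 2 => (MvPowerSeries.X (Fin.castAdd r j) :
    MvPowerSeries (Fin (2 + r)) ℂ)) g + ∑ i, MvPowerSeries.X (Fin.natAdd 2 i) ^ e i

end SU

end MPb07157
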