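import Pool.Agent.Lib.MP_b07157_agQ.QDefs
import Pool.Agent.Lib.MP_b07157_agQ.Key
import Pool.Agent.Lib.MP_b07157_agS.SC
import Pool.Agent.Lib.MP_b07157_agM.CDefs

/-!
# The root `-n/d` of homogeneous polynomials of degree `d` in `n` variables whose gradient has only
relations of linear type
-/

noncomputable section

namespace MPb07157

open MvPolynomial MPb07157Q

variable {n : ℕ}

theorem constantCoeff_pderiv (i : Fin n) (t : MvPolynomial (Fin n) ℂ) :
    constantCoeff (pderiv i t) = coeff (Finsupp.single i 1) t := by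
  classical
  induction t using MvPolynomial.induction_on' with
  | monomial β a =>
    rw [pderiv_monomial, constantCoeff_monomial, coeff_monomial]
    by_cases h : β = Finsupp.single i 1
    · rw [if_pos h, if_pos]
      · rw [h]
        simp
      · rw [h, tsub_self]
    · rw [if_neg h]
      split_ifs with h2
      · by_cases h3 : β i = 0
        · rw [h3]
          simp
        · exfalso
          apply h
          apply le_antisymm (tsub_eq_zero_iff_le.1 h2)
          rw [Finsupp.single_le_iff]
          omega
      · rfl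
  | add p q hp hq => rw [map_add, map_add, hp, hq, coeff_add]

theorem homogeneousComponent_mul_of_isHomogeneous {g : MvPolynomial (Fin n) ℂ} {e : ℕ}
    (hg : g.IsHomogeneous e) (t : MvPolynomial (Fin n) ℂ) (k : ℕ) :
    homogeneousComponent (k + e) (t * g) = homogeneousComponent k t * g := by
  classical
  conv_lhs => rw [← sum_homogeneousComponent t, Finset.sum_mul, map_sum]
  have h1 : ∀ j ∈ Finset.range (t.totalDegree + 1),
      homogeneousComponent (k + e) (homogeneousComponent j t * g) =
        if j = k then homogeneousComponent j t * g else 0 := by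
    intro j _
    have h2 : homogeneousComponent j t * g ∈ homogeneousSubmodule (Fin n) ℂ (j + e) := by
      rw [mem_homogeneousSubmodule]
      exact (homogeneousComponent_isHomogeneous j t).mul hg
    rw [homogeneousComponent_of_mem h2]
    by_cases h3 : j = k
    · subst h3
      simp
    · rw [if_neg h3, if_neg]
      omega
  rw [Finset.sum_congr rfl h1, Finset.sum_ite_eq']
  split_ifs with h2
  · rfl
  · rw [homogeneousComponent_eq_zero, zero_mul]
    rw [Finset.mem_range] at h2
    omega

/-- `NS` for all vector fields which kill `f`. -/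
theorem NS.constantCoeff_div {f : MvPolynomial (Fin n) ℂ} (hNS : NS f) {d : ℕ}
    (hh : f.IsHomogeneous d) {t : Fin n → MvPolynomial (Fin n) ℂ}
    (ht : ∑ i, t i * pderiv i f = 0) : constantCoeff (∑ i, pderiv i (t i)) = 0 := by
  have h1 : ∑ i, homogeneousComponent 1 (t i) * pderiv i f = 0 := by
    have h2 : ∀ i, homogeneousComponent 1 (t i) * pderiv i f =
        homogeneousComponent (1 + (d - 1)) (t i * pderiv i f) := fun i =>
      (homogeneousComponent_mul_of_isHomogeneous (hh.pderiv (i := i)) (t i) 1).symm
    rw [Finset.sum_congr rfl fun i _ => h2 i, ← map_sum, ht, map_zero]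
  have h2 := hNS _ (fun i => homogeneousComponent_isHomogeneous 1 (t i)) h1
  have h3 := congrArg constantCoeff h2
  rw [map_sum, map_zero] at h3
  rw [map_sum, ← h3]
  refine Finset.sum_congr rfl fun i _ => ?_
  rw [constantCoeff_pderiv, constantCoeff_pderiv, coeff_homogeneousComponent, if_pos]
  rw [Finsupp.degree_single]

/-- **The root `-n/d`** for homogeneous polynomials whose gradient has only relations of linear type
and which are not killed by a linear vector field with non-zero divergence. -/
theorem root_of_linear_type {f : MvPolynomial (Fin n) ℂ} (hf : f ≠ 0) {d : ℕ} (hd : 0 < d)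
    (hh : f.IsHomogeneous d)
    (hLT : ∀ M : ℕ, 0 < M → ∀ F : MvPolynomial (Fin n) (MvPolynomial (Fin n) ℂ),
      F.IsHomogeneous M → eval (fun j => pderiv j f) F = 0 →
      ∃ T : Fin n → MvPolynomial (Fin n) (MvPolynomial (Fin n) ℂ),
        ∑ i, T i * C (pderiv i f) = 0 ∧ F = ∑ i, T i * X i)
    (hNS : NS f) (b : Polynomial ℂ)
    (hb : InDnForm f 1 (b.map (MvPowerSeries.C (σ := Fin n) (R := ℂ)))) :
    b.eval (-((n : ℂ) / d)) = 0 := by
  classical
  obtain ⟨h, hh1, hIn⟩ := hb.exists_poly
  have hA := inA_of_inDn hIn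
  rw [map_mul, sw_C, sw_liftS] at hA
  obtain ⟨Φ, hΦ, hΦ2⟩ := hA.toOp hf
  obtain ⟨G, hG⟩ := exists_of_op hd hh hΦ
  obtain ⟨G', hG', hcc⟩ := exists_poly_mul hd hh b (C h)
  have hfF : (f : MvPowerSeries (Fin n) ℂ) ≠ 0 := by
    intro h0
    exact hf (MvPolynomial.coe_injective _ _ (by simpa using h0))
  have hf0 : constantCoeff f = 0 := by
    rw [constantCoeff_eq]
    apply hh.coeff_eq_zero
    rw [map_zero]
    omega
  have hrel : ∀ q : ℕ, Psi ((f : MvPowerSeries (Fin n) ℂ) ^ q) (C f * G - G') = 0 := by
    intro q
    have e1 := hΦ2 (q + 1)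
    have e2 : Φ (q + 1) = C (b.eval (q : ℂ)) * (h * f ^ q) := by
      apply mul_left_cancel₀ hf
      rw [pow_one] at e1
      rw [e1, Polynomial.eval_mul, Polynomial.eval_C]
      have e3 : ((((q + 1 : ℕ) : MvPolynomial (Fin n) ℂ)) - 1) = C (q : ℂ) := by
        push_cast
        rw [add_sub_cancel_right]
        simp
      rw [e3, Polynomial.eval_map, Polynomial.eval₂_hom, pow_succ]
      ring
    rw [Psi_sub, Psi_mul_left, ← pow_succ', ← hG, e2, hG', Psi_C, coe_mul, coe_C, coe_mul,
      coe_pow, Algebra.smul_def, MvPowerSeries.c_eq_algebraMap, sub_self]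
  have hkey := key hf hLT (fun t ht => hNS.constantCoeff_div hh ht)
    ((C f * G - G').support.sup Finsupp.degree) (C f * G - G')
    (fun β hβ => Finset.le_sup (f := Finsupp.degree) hβ) hrel
  rw [cc_sub, hcc] at hkey
  have e1 : cc (C f * G) = 0 := by
    unfold cc
    rw [coeff_C_mul, map_mul, hf0, zero_mul]
  have e2 : cc (C h : MvPolynomial (Fin n) (MvPolynomial (Fin n) ℂ)) = 1 := by
    unfold cc
    rw [coeff_zero_C, hh1]
  rw [e1, e2] at hkey
  simpa using hkey

end MPb07157
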