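import Pool.Agent.Lib.MP_b07157_agK.K1
import Pool.Agent.Lib.MP_b07157_agE.EZ

/-!
# Local triviality along a stratum: zeta functions

If `a f = b g(u_1, …, u_k)`, where `a`, `b` have no zeros on the constructible set `W`, the `u_j`
vanish on `W` and have linearly independent differentials at its points, then the arcs at `W`
contribute `L^{k-n} [W] Z_{g,0}` to the zeta function of `f`.
-/

noncomputable section

namespace MPb07157

open MvPolynomial

variable {n k : ℕ}

namespace Str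

/-! ### Jets at the origin -/

/-- The jet `t γ(t)`. -/
def tJ (k N : ℕ) (p : Fin k × Fin (N + 1)) : MvPolynomial (Fin k × Fin N) ℂ :=
  Fin.cases 0 (fun j => X (p.1, j)) p.2

theorem polyMap_tJ_zero {N : ℕ} (γ : Fin k × Fin N → ℂ) (i : Fin k) :
    polyMap (tJ k N) γ (i, 0) = 0 := by
  simp [polyMap, tJ]

theorem polyMap_tJ_succ {N : ℕ} (γ : Fin k × Fin N → ℂ) (i : Fin k) (j : Fin N) :
    polyMap (tJ k N) γ (i, j.succ) = γ (i, j) := by
  simp [polyMap, tJ]

/-- The jets `γ` for which `t γ(t)` has order `M` along `g`. -/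
def cellG (g : MvPolynomial (Fin k) ℂ) (M : ℕ) : Set (Fin k × Fin M → ℂ) :=
  polyMap (tJ k M) ⁻¹' arcs g (M + 1) M

theorem isConstr_cellG (g : MvPolynomial (Fin k) ℂ) (M : ℕ) : IsConstr (cellG g M) :=
  (isConstr_arcs g (M + 1) M).preimage _

theorem cls_cellG (g : MvPolynomial (Fin k) ℂ) (M : ℕ) :
    cls (cellG g M) = cls {γ ∈ arcs g (M + 1) M | ∀ i, γ (i, 0) = 0} := by
  have h0 : {γ : Fin k × Fin (M + 1) → ℂ | γ ∈ arcs g (M + 1) M ∧ ∀ i, γ (i, 0) = 0} =
      arcs g (M + 1) M ∩ Start k 1 (M + 1) := by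
    ext γ
    rw [Set.mem_inter_iff, mem_Start_one]
    rfl
  rw [h0]
  refine cls_bijOn (isConstr_cellG g M)
    ((isConstr_arcs g (M + 1) M).inter (isConstr_Start k 1 (M + 1))) (tJ k M) ⟨?_, ?_, ?_⟩
  · intro γ hγ
    exact ⟨hγ, mem_Start_one.2 fun i => polyMap_tJ_zero γ i⟩
  · intro γ _ γ' _ h
    funext p
    rw [← polyMap_tJ_succ γ p.1 p.2, h, polyMap_tJ_succ]
  · rintro γ ⟨h1, h2⟩
    rw [mem_Start_one] at h2
    have h3 : polyMap (tJ k M) (fun p => γ (p.1, p.2.succ)) = γ := by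
      funext p
      obtain ⟨i, j⟩ := p
      refine Fin.cases ?_ (fun j => ?_) j
      · rw [polyMap_tJ_zero, h2 i]
      · rw [polyMap_tJ_succ]
    refine ⟨_, ?_, h3⟩
    show polyMap (tJ k M) (fun p => γ (p.1, p.2.succ)) ∈ arcs g (M + 1) M
    rw [h3]
    exact h1

/-! ### The target of the change of coordinates -/

/-- The jets at `W` whose coordinates `c` have order `M` along `g`. -/
def cellT (g : MvPolynomial (Fin k) ℂ) (c : Fin k → Fin n) (W : Set (Fin n → ℂ)) (M : ℕ) :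
    Set (Fin n × Fin (M + 1) → ℂ) :=
  {δ | δ ∈ AtW W M ∧ (fun p : Fin k × Fin M => δ (c p.1, p.2.succ)) ∈ cellG g M}

theorem isConstr_cellT (g : MvPolynomial (Fin k) ℂ) (c : Fin k → Fin n) {W : Set (Fin n → ℂ)}
    (hW : IsConstr W) (M : ℕ) : IsConstr (cellT g c W M) :=
  isConstr_setOf_and (isConstr_AtW hW M)
    ((isConstr_cellG g M).reindex fun p : Fin k × Fin M => (c p.1, p.2.succ))

theorem cls_cellT (g : MvPolynomial (Fin k) ℂ) {c : Fin k → Fin n} (hc : Function.Injective c)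
    {W : Set (Fin n → ℂ)} (hW : IsConstr W) {M d : ℕ} (hd : n = k + d) :
    cls (cellT g c W M) = cls W * cls (cellG g M) * L ^ (d * M) := by
  classical
  let e : Fin n ⊕ (Fin k × Fin M) → Fin n × Fin (M + 1) :=
    Sum.elim (fun i => (i, 0)) fun p => (c p.1, p.2.succ)
  have he : Function.Injective e := by
    rintro (a | a) (b | b) h
    · exact congrArg Sum.inl (congrArg Prod.fst h)
    · exfalso
      have h1 := congrArg Prod.snd h
      exact absurd h1.symm (Fin.succ_ne_zero _)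
    · exfalso
      have h1 := congrArg Prod.snd h
      exact absurd h1 (Fin.succ_ne_zero _)
    · have h1 := hc (congrArg Prod.fst h)
      have h2 := Fin.succ_injective _ (congrArg Prod.snd h)
      exact congrArg Sum.inr (Prod.ext h1 h2)
  have h := cls_cell e he (prodSum W (cellG g M)) (isConstr_prodSum hW (isConstr_cellG g M)) ∅
    (fun _ => Finset.notMem_empty _) (d * M) (by
      rw [Fintype.card_prod, Fintype.card_sum, Fintype.card_prod, Fintype.card_fin,
        Fintype.card_fin, Fintype.card_fin, Fintype.card_fin, Finset.card_empty, hd]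
      ring)
  rw [cls_prodSum hW (isConstr_cellG g M)] at h
  rw [← h]
  congr 1
  ext δ
  simp only [cellT, Set.mem_ofPred_eq, prodSum, AtW]
  constructor
  · rintro ⟨h1, h2⟩
    exact ⟨⟨h1, h2⟩, fun j hj => absurd hj (Finset.notMem_empty _)⟩
  · rintro ⟨⟨h1, h2⟩, -⟩
    exact ⟨h1, h2⟩

/-! ### Orders -/

theorem order_unit_mul {v x : PowerSeries ℂ} (hv : PowerSeries.constantCoeff v ≠ 0) :
    (v * x).order = x.order := by
  rw [PowerSeries.order_mul, PowerSeries.order_zero_of_unit, zero_add]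
  rw [PowerSeries.isUnit_iff_constantCoeff]
  exact isUnit_iff_ne_zero.2 hv

theorem constantCoeff_arc' {M : ℕ} (γ : Fin n × Fin (M + 1) → ℂ) (j : Fin n) :
    PowerSeries.constantCoeff (arc γ j) = γ (j, 0) := by
  rw [← PowerSeries.coeff_zero_eq_constantCoeff_apply, coeff_arc, dif_pos (Nat.succ_pos M)]
  rfl

theorem constantCoeff_aeval_arc (q : MvPolynomial (Fin n) ℂ) {M : ℕ}
    (γ : Fin n × Fin (M + 1) → ℂ) :
    PowerSeries.constantCoeff (aeval (arc γ) q : PowerSeries ℂ) =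
      eval (fun i => γ (i, 0)) q := by
  rw [constantCoeff_aeval_eq]
  congr 2
  funext j
  exact constantCoeff_arc' γ j

theorem mem_arcs_iff_triv {f a b : MvPolynomial (Fin n) ℂ} {g : MvPolynomial (Fin k) ℂ}
    {u : Fin k → MvPolynomial (Fin n) ℂ} (hab : a * f = b * aeval u g) {c : Fin k → Fin n}
    (hc : Function.Injective c) {W : Set (Fin n → ℂ)}
    (ha : ∀ p ∈ W, eval p a ≠ 0) (hb : ∀ p ∈ W, eval p b ≠ 0)
    (hu : ∀ p ∈ W, ∀ j, eval p (u j) = 0) {M : ℕ} {γ : Fin n × Fin (M + 1) → ℂ}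
    (hγ : γ ∈ AtW W M) :
    γ ∈ arcs f (M + 1) M ↔ polyMap (etPoly (etG u c) M) γ ∈ cellT g c W M := by
  set δ := polyMap (etPoly (etG u c) M) γ with hδ
  have hδW : δ ∈ AtW W M := by
    show (fun i => polyMap (etPoly (etG u c) M) γ (i, 0)) ∈ W
    have : (fun i => polyMap (etPoly (etG u c) M) γ (i, 0)) = fun i => γ (i, 0) := by
      funext i
      rw [polyMap_etPoly_zero]
    rw [this]
    exact hγ
  -- units
  have h1 : (aeval (arc γ) f : PowerSeries ℂ).order =
      (aeval (fun j => (aeval (arc γ) (u j) : PowerSeries ℂ)) g : PowerSeries ℂ).order := by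
    have h2 := congrArg (aeval (arc γ) : MvPolynomial (Fin n) ℂ → PowerSeries ℂ) hab
    rw [map_mul, map_mul] at h2
    have h3 : (aeval (arc γ) (aeval u g) : PowerSeries ℂ) =
        aeval (fun j => (aeval (arc γ) (u j) : PowerSeries ℂ)) g := by
      rw [← AlgHom.comp_apply, comp_aeval]
    rw [h3] at h2
    have h4 := order_unit_mul (v := aeval (arc γ) a) (x := aeval (arc γ) f)
      (by rw [constantCoeff_aeval_arc]; exact ha _ hγ)
    have h5 := order_unit_mul (v := aeval (arc γ) b)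
      (x := aeval (fun j => (aeval (arc γ) (u j) : PowerSeries ℂ)) g)
      (by rw [constantCoeff_aeval_arc]; exact hb _ hγ)
    rw [← h4, h2, h5]
  -- the jet
  have h6 : γ ∈ arcs f (M + 1) M ↔
      polyMap (tJ k M) (fun p : Fin k × Fin M => δ (c p.1, p.2.succ)) ∈ arcs g (M + 1) M := by
    simp only [arcs, Set.mem_ofPred_eq]
    rw [h1]
    refine order_congr (Nat.lt_succ_self M) (aeval_congr_X_pow (M + 1) g _ _ fun j => ?_)
    rw [PowerSeries.X_pow_dvd_iff]
    intro r hr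
    rw [map_sub, sub_eq_zero, coeff_arc, dif_pos hr]
    cases r with
    | zero =>
      rw [PowerSeries.coeff_zero_eq_constantCoeff, constantCoeff_aeval_arc, hu _ hγ j]
      exact (polyMap_tJ_zero _ j).symm
    | succ r =>
      have hr' : r < M := by omega
      have h7 : polyMap (tJ k M) (fun p : Fin k × Fin M => δ (c p.1, p.2.succ))
          (j, (⟨r, hr'⟩ : Fin M).succ) = δ (c j, (⟨r, hr'⟩ : Fin M).succ) :=
        polyMap_tJ_succ _ j ⟨r, hr'⟩
      have h8 : (⟨r + 1, hr⟩ : Fin (M + 1)) = (⟨r, hr'⟩ : Fin M).succ := rfl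
      rw [h8, h7, hδ, polyMap_etPoly_pos _ _ _ _ (Fin.succ_ne_zero _), etG_apply u hc]
      rfl
  rw [h6]
  exact ⟨fun h => ⟨hδW, h⟩, fun h => h.2⟩

attribute [local irreducible] K0.instCommRing

/-- **The arcs at a stratum along which `f` is trivial.** -/
theorem seriesAt_triv {f a b : MvPolynomial (Fin n) ℂ} {g : MvPolynomial (Fin k) ℂ}
    {u : Fin k → MvPolynomial (Fin n) ℂ} (hab : a * f = b * aeval u g) {c : Fin k → Fin n}
    (hc : Function.Injective c) {W : Set (Fin n → ℂ)} (hW : IsConstr W)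
    (ha : ∀ p ∈ W, eval p a ≠ 0) (hb : ∀ p ∈ W, eval p b ≠ 0)
    (hu : ∀ p ∈ W, ∀ j, eval p (u j) = 0)
    (hdet : ∀ p ∈ W, (Matrix.of fun i j => eval p (pderiv (c j) (u i))).det ≠ 0) {d : ℕ}
    (hd : n = k + d) :
    seriesAt f W = PowerSeries.C (↑((LU ^ d)⁻¹) * clsM W) * Zmot0 g := by
  ext M
  rw [PowerSeries.coeff_C_mul, seriesAt, Zmot0, PowerSeries.coeff_mk, PowerSeries.coeff_mk]
  have hB := bijOn_etPoly (G := etG u c) (W := W)
    (fun p hp v hv => etG_nondeg hc (hdet p hp) v hv) M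
  have h1 : cls (arcs f (M + 1) M ∩ AtW W M) = cls (cellT g c W M) := by
    refine cls_bijOn ((isConstr_arcs f (M + 1) M).inter (isConstr_AtW hW M))
      (isConstr_cellT g c hW M) (etPoly (etG u c) M) ⟨?_, ?_, ?_⟩
    · rintro γ ⟨h2, h3⟩
      exact (mem_arcs_iff_triv hab hc ha hb hu h3).1 h2
    · rintro γ ⟨_, h3⟩ δ ⟨_, h4⟩ h
      exact hB.injOn h3 h4 h
    · intro δ hδ
      obtain ⟨γ, hγ, rfl⟩ := hB.surjOn hδ.1
      exact ⟨γ, ⟨(mem_arcs_iff_triv hab hc ha hb hu hγ).2 hδ, hγ⟩, rfl⟩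
  have h2 : clsM (arcs f (M + 1) M ∩ AtW W M) =
      clsM W * clsM {γ ∈ arcs g (M + 1) M | ∀ i, γ (i, 0) = 0} * (LU : Mot) ^ (d * M) := by
    unfold clsM
    rw [h1, cls_cellT g hc hW hd, cls_cellG, map_mul, map_mul, map_pow, ← LU_val]
  have h3 : (↑((LU ^ (n * (M + 1)))⁻¹) : Mot) * (LU : Mot) ^ (d * M) =
      ↑((LU ^ d)⁻¹) * ↑((LU ^ (k * (M + 1)))⁻¹) := by
    rw [← Units.val_pow_eq_pow_val, ← Units.val_mul, ← Units.val_mul]
    congr 1
    rw [inv_mul_eq_iff_eq_mul, ← mul_inv, ← pow_add, eq_mul_inv_iff_mul_eq, ← pow_add]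
    congr 1
    rw [hd]
    ring
  rw [h2, Zcoeff0]
  calc _ = (↑((LU ^ (n * (M + 1)))⁻¹) * (LU : Mot) ^ (d * M)) *
        (clsM W * clsM {γ ∈ arcs g (M + 1) M | ∀ i, γ (i, 0) = 0}) := by ring
    _ = _ := by rw [h3]; ring

end Str

end MPb07157
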