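import Pool.Agent.Lib.MP_b07157_agM.StrR
import Pool.Agent.Lib.MP_b07157_agM.StrZ

/-!
# Local triviality along a stratum in rational coordinates
-/

noncomputable section

namespace MPb07157

open MvPolynomial

variable {n k : ℕ}

namespace Str

/-! ### Minors -/

/-- The minor with the columns `c` of the matrix of the differentials. -/
def minorU (u : Fin k → MvPolynomial (Fin n) ℂ) (c : Fin k → Fin n) : MvPolynomial (Fin n) ℂ :=
  (Matrix.of fun (i j : Fin k) => pderiv (c j) (u i)).det

theorem eval_minorU (u : Fin k → MvPolynomial (Fin n) ℂ) (c : Fin k → Fin n) (p : Fin n → ℂ) :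
    eval p (minorU u c) = (Matrix.of fun (i j : Fin k) => eval p (pderiv (c j) (u i))).det := by
  unfold minorU
  rw [RingHom.map_det]
  rfl

theorem injective_of_minorU {u : Fin k → MvPolynomial (Fin n) ℂ} {c : Fin k → Fin n}
    {p : Fin n → ℂ} (h : eval p (minorU u c) ≠ 0) : Function.Injective c := by
  intro i j hij
  by_contra hne
  apply h
  rw [eval_minorU]
  exact Matrix.det_zero_of_column_eq hne fun l => by
    simp only [Matrix.of_apply]
    rw [hij]

/-- The points of `W` at which `c` gives the first minor which is not zero. -/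
def minW (u : Fin k → MvPolynomial (Fin n) ℂ) (W : Set (Fin n → ℂ)) (c : Fin k → Fin n) :
    Set (Fin n → ℂ) :=
  {p | p ∈ W ∧ (eval p (minorU u c) ≠ 0 ∧
    ∀ c' ∈ Finset.univ.filter (fun c' => Fintype.equivFin _ c' < Fintype.equivFin _ c),
      eval p (minorU u c') = 0)}

theorem isConstr_minW (u : Fin k → MvPolynomial (Fin n) ℂ) {W : Set (Fin n → ℂ)}
    (hW : IsConstr W) (c : Fin k → Fin n) : IsConstr (minW u W c) :=
  isConstr_setOf_and hW (isConstr_setOf_and (isConstr_ne_zero _)
    (isConstr_forall_mem _ _ fun _ _ => isConstr_eq_zero _))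

theorem disjoint_minW (u : Fin k → MvPolynomial (Fin n) ℂ) (W : Set (Fin n → ℂ))
    {c c' : Fin k → Fin n} (h : c ≠ c') : Disjoint (minW u W c) (minW u W c') := by
  rw [Set.disjoint_left]
  rintro p ⟨-, h3, h4⟩ ⟨-, h7, h8⟩
  rcases lt_or_gt_of_ne (fun h' => h ((Fintype.equivFin (Fin k → Fin n)).injective h')) with h9 | h9
  · exact h3 (h8 c (Finset.mem_filter.2 ⟨Finset.mem_univ _, h9⟩))
  · exact h7 (h4 c' (Finset.mem_filter.2 ⟨Finset.mem_univ _, h9⟩))

theorem iUnion_minW (u : Fin k → MvPolynomial (Fin n) ℂ) {W : Set (Fin n → ℂ)}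
    (h : ∀ p ∈ W, LinearIndependent ℂ fun (j : Fin k) (l : Fin n) => eval p (pderiv l (u j))) :
    (⋃ c ∈ (Finset.univ : Finset (Fin k → Fin n)), minW u W c) = W := by
  ext p
  simp only [Set.mem_iUnion, Finset.mem_univ, exists_true_left]
  constructor
  · rintro ⟨c, hc⟩
    exact hc.1
  · intro hp
    obtain ⟨c₀, hc₀⟩ := exists_minor _ (h p hp)
    have hne : (Finset.univ.filter fun c : Fin k → Fin n => eval p (minorU u c) ≠ 0).Nonempty :=
      ⟨c₀, Finset.mem_filter.2 ⟨Finset.mem_univ _, by rw [eval_minorU]; exact hc₀⟩⟩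
    obtain ⟨c, hc, hmin⟩ :=
      Finset.exists_min_image _ (Fintype.equivFin (Fin k → Fin n)) hne
    refine ⟨c, hp, (Finset.mem_filter.1 hc).2, fun c' hc' => ?_⟩
    by_contra hcon
    have h2 := hmin c' (Finset.mem_filter.2 ⟨Finset.mem_univ _, hcon⟩)
    exact absurd (Finset.mem_filter.1 hc').2 (not_lt.2 h2)

end Str

namespace Str

/-- Regularity for polynomial coordinates. -/
theorem seriesAt_mem_of_triv {f a b : MvPolynomial (Fin n) ℂ} {W : Set (Fin n → ℂ)}
    {g : MvPolynomial (Fin k) ℂ} {u : Fin k → MvPolynomial (Fin n) ℂ} (hW : IsConstr W)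
    (hab : a * f = b * aeval u g)
    (hp : ∀ p ∈ W, eval p a ≠ 0 ∧ eval p b ≠ 0 ∧ (∀ j, eval p (u j) = 0) ∧
      LinearIndependent ℂ fun (j : Fin k) (l : Fin n) => eval p (pderiv l (u j))) {s₀ : ℚ}
    (hreg : W.Nonempty → Zmot0 g ∈ regularAt s₀) : seriesAt f W ∈ regularAt s₀ := by
  classical
  rw [← Str.iUnion_minW u fun p hpW => (hp p hpW).2.2.2,
    seriesAt_biUnion _ _ _ (fun c _ => Str.isConstr_minW u hW c)
      (fun c _ c' _ hcc => Str.disjoint_minW u W hcc)]
  refine sum_mem fun c _ => ?_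
  rcases (Str.minW u W c).eq_empty_or_nonempty with he | ⟨p₀, hp₀⟩
  · rw [he, seriesAt_empty]
    exact zero_mem _
  have hc : Function.Injective c := Str.injective_of_minorU hp₀.2.1
  have hk : k ≤ n := by simpa using Fintype.card_le_of_injective c hc
  obtain ⟨d, hd⟩ := Nat.exists_eq_add_of_le hk
  rw [Str.seriesAt_triv hab hc (Str.isConstr_minW u hW c) (fun p hpm => (hp p hpm.1).1)
    (fun p hpm => (hp p hpm.1).2.1) (fun p hpm => (hp p hpm.1).2.2.1)
    (fun p hpm => by rw [← Str.eval_minorU]; exact hpm.2.1) hd]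
  exact mul_mem (C_mem_regularAt s₀ _) (hreg ⟨p₀, hp₀.1⟩)

/-! ### Clearing denominators -/

/-- `q^D g(u_1/q, …, u_k/q)`, where `D` is the degree of `g`. -/
def clr {A : Type*} [CommRing A] [Algebra ℂ A] (g : MvPolynomial (Fin k) ℂ) (q : A)
    (u : Fin k → A) : A :=
  ∑ v ∈ g.support, algebraMap ℂ A (coeff v g) * (∏ j, u j ^ v j) * q ^ (g.totalDegree - v.degree)

theorem map_clr {A B : Type*} [CommRing A] [Algebra ℂ A] [CommRing B] [Algebra ℂ B]
    (φ : A →ₐ[ℂ] B) (g : MvPolynomial (Fin k) ℂ) (q : A) (u : Fin k → A) :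
    φ (clr g q u) = clr g (φ q) fun j => φ (u j) := by
  unfold clr
  rw [map_sum]
  refine Finset.sum_congr rfl fun v _ => ?_
  rw [map_mul, map_mul, AlgHom.commutes, map_pow, map_prod]
  simp only [map_pow]

theorem degree_le {g : MvPolynomial (Fin k) ℂ} {v : Fin k →₀ ℕ} (hv : v ∈ g.support) :
    v.degree ≤ g.totalDegree := by
  have h := le_totalDegree hv
  rw [Finsupp.degree_eq_sum]
  rwa [Finsupp.sum_fintype _ _ (fun _ => rfl)] at h

/-- If `q y_j = u_j` then `clr g q u = q^D g(y)`. -/
theorem clr_eq {A : Type*} [CommRing A] [Algebra ℂ A] (g : MvPolynomial (Fin k) ℂ) (q : A)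
    {u y : Fin k → A} (h : ∀ j, u j = q * y j) :
    clr g q u = q ^ g.totalDegree * aeval y g := by
  unfold clr
  rw [aeval_def, eval₂_eq', Finset.mul_sum]
  refine Finset.sum_congr rfl fun v hv => ?_
  have h1 : ∏ j, u j ^ v j = q ^ v.degree * ∏ j, y j ^ v j := by
    rw [Finsupp.degree_eq_sum, ← Finset.prod_pow_eq_pow_sum, ← Finset.prod_mul_distrib]
    refine Finset.prod_congr rfl fun j _ => ?_
    rw [h j, mul_pow]
  rw [h1]
  have h2 : q ^ g.totalDegree = q ^ v.degree * q ^ (g.totalDegree - v.degree) := by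
    rw [← pow_add, Nat.add_sub_cancel' (degree_le hv)]
  rw [h2]
  ring

/-- `a f = b g(u_1/q, …, u_k/q)` outside the zeros of `q`. -/
def RelQ (f a b q : MvPolynomial (Fin n) ℂ) (u : Fin k → MvPolynomial (Fin n) ℂ)
    (g : MvPolynomial (Fin k) ℂ) : Prop :=
  ∀ x, eval x q ≠ 0 → eval x a * eval x f = eval x b * eval (fun j => eval x (u j) / eval x q) g

theorem RelQ.clr {f a b q : MvPolynomial (Fin n) ℂ} {u : Fin k → MvPolynomial (Fin n) ℂ}
    {g : MvPolynomial (Fin k) ℂ} (h : RelQ f a b q u g) (hq : q ≠ 0) :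
    a * q ^ g.totalDegree * f = b * clr g q u := by
  have h1 : q * (a * q ^ g.totalDegree * f) = q * (b * Str.clr g q u) := by
    apply MvPolynomial.funext
    intro x
    by_cases hx : eval x q = 0
    · rw [map_mul, hx, zero_mul, map_mul, hx, zero_mul]
    · have h2 := h x hx
      have h3 : eval x (Str.clr g q u) = Str.clr g (eval x q) fun j => eval x (u j) := by
        have := map_clr (aeval x : MvPolynomial (Fin n) ℂ →ₐ[ℂ] ℂ) g q u
        exact this
      have h4 : Str.clr g (eval x q) (fun j => eval x (u j)) =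
          (eval x q) ^ g.totalDegree * aeval (fun j => eval x (u j) / eval x q) g :=
        clr_eq g (eval x q) fun j => by rw [mul_div_cancel₀ _ hx]
      have h5 : aeval (fun j => eval x (u j) / eval x q) g =
          eval (fun j => eval x (u j) / eval x q) g := rfl
      rw [map_mul, map_mul, map_mul, map_mul, map_mul, map_pow, h3, h4, h5]
      linear_combination (eval x q) * (eval x q) ^ g.totalDegree * h2
  exact mul_left_cancel₀ hq h1

/-! ### One more variable -/

/-- `f` in one more variable. -/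
def up (f : MvPolynomial (Fin n) ℂ) : MvPolynomial (Fin (n + 1)) ℂ := rename Fin.castSucc f

theorem up_mul (f g : MvPolynomial (Fin n) ℂ) : up (f * g) = up f * up g := map_mul _ f g

theorem up_pow (f : MvPolynomial (Fin n) ℂ) (m : ℕ) : up (f ^ m) = up f ^ m := map_pow _ f m

theorem eval_up (x : Fin (n + 1) → ℂ) (f : MvPolynomial (Fin n) ℂ) :
    eval x (up f) = eval (fun i => x (Fin.castSucc i)) f := by
  unfold up
  rw [eval_rename]
  rfl

theorem pderiv_up_castSucc (l : Fin n) (f : MvPolynomial (Fin n) ℂ) :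
    pderiv (Fin.castSucc l) (up f) = up (pderiv l f) :=
  pderiv_rename (Fin.castSucc_injective n) l f

theorem pderiv_up_last (f : MvPolynomial (Fin n) ℂ) : pderiv (Fin.last n) (up f) = 0 := by
  classical
  induction f using MvPolynomial.induction_on with
  | C a =>
    unfold up
    rw [rename_C, pderiv_C]
  | add p q hp hq =>
    have : up (p + q) = up p + up q := map_add _ p q
    rw [this, map_add, hp, hq, add_zero]
  | mul_X p i hp =>
    have h1 : up (p * X i) = up p * X (Fin.castSucc i) := by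
      rw [up_mul]
      unfold up
      rw [rename_X]
    rw [h1, pderiv_mul, hp, zero_mul, zero_add, pderiv_X, Pi.single_apply,
      if_neg (Fin.castSucc_lt_last i).ne, mul_zero]

/-- The points `(p, 1/q(p))`, `p ∈ W`. -/
def hatW (W : Set (Fin n → ℂ)) (q : MvPolynomial (Fin n) ℂ) : Set (Fin (n + 1) → ℂ) :=
  {x | (fun i => x (Fin.castSucc i)) ∈ W ∧ eval x (X (Fin.last n) * up q - 1) = 0}

theorem isConstr_hatW {W : Set (Fin n → ℂ)} (hW : IsConstr W) (q : MvPolynomial (Fin n) ℂ) :
    IsConstr (hatW W q) :=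
  isConstr_setOf_and (hW.reindex Fin.castSucc) (isConstr_eq_zero _)

theorem mem_hatW {W : Set (Fin n → ℂ)} {q : MvPolynomial (Fin n) ℂ} {x : Fin (n + 1) → ℂ} :
    x ∈ hatW W q ↔ (fun i => x (Fin.castSucc i)) ∈ W ∧
      x (Fin.last n) * eval (fun i => x (Fin.castSucc i)) q = 1 := by
  unfold hatW
  rw [Set.mem_ofPred_eq, map_sub, map_mul, map_one, eval_X, eval_up, sub_eq_zero]

theorem order_up (f : MvPolynomial (Fin n) ℂ) {M : ℕ} (δ : Fin (n + 1) × Fin (M + 1) → ℂ) :
    (aeval (arc δ) (up f) : PowerSeries ℂ) =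
      aeval (arc fun p : Fin n × Fin (M + 1) => δ (Fin.castSucc p.1, p.2)) f := by
  unfold up
  rw [aeval_rename]
  rfl

theorem cls_up {f : MvPolynomial (Fin n) ℂ} {W : Set (Fin n → ℂ)} (hW : IsConstr W)
    {q : MvPolynomial (Fin n) ℂ} (hq : ∀ p ∈ W, eval p q ≠ 0) (M : ℕ) :
    cls (arcs (up f) (M + 1) M ∩ AtW (hatW W q) M) = cls (arcs f (M + 1) M ∩ AtW W M) * L ^ M := by
  classical
  have hA : IsConstr (arcs f (M + 1) M ∩ AtW W M) :=
    (isConstr_arcs f (M + 1) M).inter (isConstr_AtW hW M)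
  let e : Fin n × Fin (M + 1) → Fin (n + 1) × Fin (M + 1) := fun p => (Fin.castSucc p.1, p.2)
  have he : Function.Injective e := by
    rintro ⟨a, b⟩ ⟨a', b'⟩ h
    have h1 : Fin.castSucc a = Fin.castSucc a' := congrArg Prod.fst h
    have h2 : b = b' := congrArg Prod.snd h
    rw [Fin.castSucc_injective n h1, h2]
  have h1 := cls_cell e he _ hA {(Fin.last n, 0)} (fun p => by
    rw [Finset.mem_singleton]
    intro h
    exact (Fin.castSucc_lt_last p.1).ne (congrArg Prod.fst h)) M (by
    rw [Fintype.card_prod, Fintype.card_prod, Fintype.card_fin, Fintype.card_fin,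
      Fintype.card_fin, Finset.card_singleton]
    ring)
  rw [← h1]
  -- the coordinate `(last, 0)` is replaced by zero
  have hmap : ∀ δ : Fin (n + 1) × Fin (M + 1) → ℂ,
      polyMap (fun p => if p = (Fin.last n, 0) then (0 : MvPolynomial (Fin (n + 1) × Fin (M + 1)) ℂ)
        else X p) δ = fun p => if p = (Fin.last n, 0) then 0 else δ p := by
    intro δ
    funext p
    show eval δ (if p = (Fin.last n, 0) then
      (0 : MvPolynomial (Fin (n + 1) × Fin (M + 1)) ℂ) else X p) = _
    split_ifs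
    · rw [map_zero]
    · rw [eval_X]
  have hne : ∀ p : Fin n × Fin (M + 1), e p ≠ (Fin.last n, 0) := fun p h =>
    (Fin.castSucc_lt_last p.1).ne (congrArg Prod.fst h)
  have harc : ∀ δ : Fin (n + 1) × Fin (M + 1) → ℂ, δ ∈ arcs (up f) (M + 1) M ↔
      (fun p => δ (e p)) ∈ arcs f (M + 1) M := by
    intro δ
    simp only [arcs, Set.mem_ofPred_eq]
    rw [order_up]
  have hat : ∀ δ : Fin (n + 1) × Fin (M + 1) → ℂ, δ ∈ AtW (hatW W q) M ↔
      (fun p => δ (e p)) ∈ AtW W M ∧
        δ (Fin.last n, 0) * eval (fun i => δ (Fin.castSucc i, 0)) q = 1 := by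
    intro δ
    show (fun i => δ (i, 0)) ∈ hatW W q ↔ _
    rw [mem_hatW]
    rfl
  refine cls_bijOn ((isConstr_arcs _ _ _).inter (isConstr_AtW (isConstr_hatW hW q) M)) ?_
    (fun p => if p = (Fin.last n, 0) then (0 : MvPolynomial (Fin (n + 1) × Fin (M + 1)) ℂ)
        else X p) ⟨?_, ?_, ?_⟩
  · exact isConstr_setOf_and (hA.reindex e) (isConstr_forall_mem _ _ fun j _ => by
      have := isConstr_eq_zero (X j : MvPolynomial (Fin (n + 1) × Fin (M + 1)) ℂ)
      simpa using this)
  · rintro δ ⟨h2, h3⟩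
    rw [hmap]
    refine ⟨?_, fun j hj => ?_⟩
    · have e1 : (fun p => (fun p => if p = (Fin.last n, (0 : Fin (M + 1))) then 0 else δ p) (e p)) =
          fun p => δ (e p) := by
        funext p
        simp only [hne p, if_false]
      rw [e1]
      exact ⟨(harc δ).1 h2, ((hat δ).1 h3).1⟩
    · rw [Finset.mem_singleton] at hj
      simp only [hj, if_true]
  · rintro δ ⟨h2, h3⟩ δ' ⟨h2', h3'⟩ h
    rw [hmap, hmap] at h
    have h4 : ∀ p, p ≠ (Fin.last n, (0 : Fin (M + 1))) → δ p = δ' p := by
      intro p hp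
      have := congrFun h p
      simpa only [hp, if_false] using this
    have h5 := ((hat δ).1 h3).2
    have h5' := ((hat δ').1 h3').2
    have e1 : (fun i : Fin n => δ (Fin.castSucc i, (0 : Fin (M + 1)))) =
        fun i => δ' (Fin.castSucc i, 0) := funext fun i => h4 _ (hne (i, 0))
    rw [e1] at h5
    have hq0 : eval (fun i => δ' (Fin.castSucc i, (0 : Fin (M + 1)))) q ≠ 0 := by
      intro h0
      rw [h0, mul_zero] at h5
      exact zero_ne_one h5
    have h6 : δ (Fin.last n, 0) = δ' (Fin.last n, 0) :=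
      mul_right_cancel₀ hq0 (h5.trans h5'.symm)
    funext p
    by_cases hp : p = (Fin.last n, 0)
    · rw [hp, h6]
    · exact h4 p hp
  · rintro ε ⟨h2, h3⟩
    let p₀ : Fin n → ℂ := fun i => ε (Fin.castSucc i, 0)
    have hp₀ : p₀ ∈ W := h2.2
    refine ⟨fun p => if p = (Fin.last n, 0) then (eval p₀ q)⁻¹ else ε p, ⟨?_, ?_⟩, ?_⟩
    · rw [harc]
      have e1 : (fun p => (fun p => if p = (Fin.last n, (0 : Fin (M + 1))) then (eval p₀ q)⁻¹
          else ε p) (e p)) = fun p => ε (e p) := by
        funext p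
        simp only [hne p, if_false]
      rw [e1]
      exact h2.1
    · rw [hat]
      constructor
      · have e1 : (fun p => (fun p => if p = (Fin.last n, (0 : Fin (M + 1))) then (eval p₀ q)⁻¹
            else ε p) (e p)) = fun p => ε (e p) := by
          funext p
          simp only [hne p, if_false]
        rw [e1]
        exact h2.2
      · have e1 : (fun i : Fin n => if (Fin.castSucc i, (0 : Fin (M + 1))) = (Fin.last n, 0) then
            (eval p₀ q)⁻¹ else ε (Fin.castSucc i, 0)) = p₀ := by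
          funext i
          rw [if_neg (hne (i, 0))]
        simp only [if_true]
        rw [e1, inv_mul_cancel₀ (hq _ hp₀)]
    · rw [hmap]
      funext p
      by_cases hp : p = (Fin.last n, 0)
      · simp only [hp, if_true]
        exact (h3 _ (Finset.mem_singleton_self _)).symm
      · simp only [hp, if_false]

attribute [local irreducible] K0.instCommRing

theorem seriesAt_up {f : MvPolynomial (Fin n) ℂ} {W : Set (Fin n → ℂ)} (hW : IsConstr W)
    {q : MvPolynomial (Fin n) ℂ} (hq : ∀ p ∈ W, eval p q ≠ 0) :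
    seriesAt f W = PowerSeries.C (LU : Mot) * seriesAt (up f) (hatW W q) := by
  ext M
  rw [PowerSeries.coeff_C_mul, seriesAt, seriesAt, PowerSeries.coeff_mk, PowerSeries.coeff_mk]
  have h2 : clsM (arcs (up f) (M + 1) M ∩ AtW (hatW W q) M) =
      clsM (arcs f (M + 1) M ∩ AtW W M) * (LU : Mot) ^ M := by
    unfold clsM
    rw [cls_up hW hq M, map_mul, map_pow, ← LU_val]
  have h3 : (↑((LU ^ (n * (M + 1)))⁻¹) : Mot) =
      (LU : Mot) * (↑((LU ^ ((n + 1) * (M + 1)))⁻¹) * (LU : Mot) ^ M) := by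
    rw [← Units.val_pow_eq_pow_val, ← Units.val_mul, ← Units.val_mul]
    congr 1
    rw [inv_eq_iff_eq_inv, mul_inv, mul_inv, inv_inv]
    rw [eq_comm, inv_mul_eq_iff_eq_mul, mul_inv_eq_iff_eq_mul]
    rw [← pow_succ', ← pow_add]
    congr 1
    ring
  rw [h2, h3]
  ring

/-! ### The germ in one more variable -/

theorem coeff_single_mul {a : MvPowerSeries (Fin n) ℂ} (ha : MvPowerSeries.constantCoeff a = 0)
    (b : MvPowerSeries (Fin n) ℂ) (l : Fin n) :
    MvPowerSeries.coeff (Finsupp.single l 1) (a * b) =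
      MvPowerSeries.coeff (Finsupp.single l 1) a * MvPowerSeries.constantCoeff b := by
  classical
  rw [MvPowerSeries.coeff_mul, Finset.sum_eq_single (Finsupp.single l 1, 0)]
  · rw [MvPowerSeries.coeff_zero_eq_constantCoeff_apply]
  · rintro ⟨v, w⟩ hvw hne
    have h1 : v + w = Finsupp.single l 1 := Finset.HasAntidiagonal.mem_antidiagonal.1 hvw
    have h2 : v.degree + w.degree = 1 := by
      rw [← map_add, h1, Finsupp.degree_single]
    by_cases hv : v = 0
    · rw [hv, MvPowerSeries.coeff_zero_eq_constantCoeff_apply, ha, zero_mul]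
    · exfalso
      apply hne
      have h3 : v.degree ≠ 0 := fun h => hv ((Finsupp.degree_eq_zero_iff v).1 h)
      have h4 : w.degree = 0 := by omega
      have h5 : w = 0 := (Finsupp.degree_eq_zero_iff w).1 h4
      rw [h5, add_zero] at h1
      rw [h1, h5]
  · intro h
    exact absurd (Finset.HasAntidiagonal.mem_antidiagonal.2 (add_zero _)) h

/-- `(1 + w)^D g(y/(1 + w))`. -/
def gW (g : MvPolynomial (Fin k) ℂ) : MvPolynomial (Fin (k + 1)) ℂ :=
  clr g (1 + X (Fin.last k)) fun j => X (Fin.castSucc j)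

theorem formEquivPow_gW (g : MvPolynomial (Fin k) ℂ) : FormEquivPow (gW g) (up g) 1 := by
  classical
  let q : MvPolynomial (Fin (k + 1)) ℂ := 1 + X (Fin.last k)
  have hq : IsUnit ((q : MvPolynomial (Fin (k + 1)) ℂ) : MvPowerSeries (Fin (k + 1)) ℂ) := by
    rw [MvPowerSeries.isUnit_iff_constantCoeff, constantCoeff_coe]
    show IsUnit (constantCoeff (1 + X (Fin.last k) : MvPolynomial (Fin (k + 1)) ℂ))
    rw [map_add, map_one, constantCoeff_X, add_zero]
    exact isUnit_one
  obtain ⟨vq, hvq⟩ := hq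
  have hvq0 : MvPowerSeries.constantCoeff (vq : MvPowerSeries (Fin (k + 1)) ℂ) = 1 := by
    rw [hvq, constantCoeff_coe]
    show constantCoeff (1 + X (Fin.last k) : MvPolynomial (Fin (k + 1)) ℂ) = 1
    rw [map_add, map_one, constantCoeff_X, add_zero]
  obtain ⟨vi, hvi⟩ : ∃ vi : MvPowerSeries (Fin (k + 1)) ℂ,
      (vq : MvPowerSeries (Fin (k + 1)) ℂ) * vi = 1 := ⟨_, vq.mul_inv⟩
  let κ : Fin (k + 1) → MvPowerSeries (Fin (k + 1)) ℂ := fun i =>
    if i = Fin.last k then 1 else vi
  have hκ : ∀ i, MvPowerSeries.constantCoeff (κ i) = 1 := by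
    intro i
    show MvPowerSeries.constantCoeff (if i = Fin.last k then 1 else vi) = 1
    split_ifs
    · exact map_one _
    · have h1 := congrArg MvPowerSeries.constantCoeff hvi
      rwa [map_mul, hvq0, one_mul, map_one] at h1
  let A : Fin (k + 1) → MvPowerSeries (Fin (k + 1)) ℂ := fun i => MvPowerSeries.X i * κ i
  have hA0 : ∀ i, MvPowerSeries.constantCoeff (A i) = 0 := by
    intro i
    show MvPowerSeries.constantCoeff (MvPowerSeries.X i * κ i) = 0
    rw [map_mul, MvPowerSeries.constantCoeff_X, zero_mul]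
  have hA1 : (Matrix.of fun i j => MvPowerSeries.coeff (Finsupp.single j 1) (A i)).det ≠ 0 := by
    have e : (Matrix.of fun i j => MvPowerSeries.coeff (Finsupp.single j 1) (A i)) = 1 := by
      ext i j
      rw [Matrix.of_apply]
      show MvPowerSeries.coeff (Finsupp.single j 1) (MvPowerSeries.X i * κ i) = _
      rw [coeff_single_mul (MvPowerSeries.constantCoeff_X i), hκ i, mul_one,
        MvPowerSeries.coeff_X, Matrix.one_apply]
      by_cases hij : i = j
      · rw [if_pos hij, if_pos (by rw [hij])]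
      · rw [if_neg hij, if_neg]
        intro h
        exact hij (Finsupp.single_left_injective one_ne_zero h).symm
    rw [e, Matrix.det_one]
    exact one_ne_zero
  obtain ⟨E, hE⟩ := IFT.exists_equiv hA0 hA1
  refine ⟨E, vq ^ g.totalDegree, ?_⟩
  have h1 : E ((up g : MvPolynomial (Fin (k + 1)) ℂ) : MvPowerSeries (Fin (k + 1)) ℂ) =
      aeval (fun j => A (Fin.castSucc j)) g := by
    rw [hE]
    unfold up
    rw [aeval_rename]
    rfl
  have h2 : ((gW g : MvPolynomial (Fin (k + 1)) ℂ) : MvPowerSeries (Fin (k + 1)) ℂ) =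
      clr g (vq : MvPowerSeries (Fin (k + 1)) ℂ) fun j => MvPowerSeries.X (Fin.castSucc j) := by
    have h3 := map_clr (MvPolynomial.coeToMvPowerSeries.algHom (R := ℂ) (σ := Fin (k + 1)) ℂ) g q
      fun j => X (Fin.castSucc j)
    rw [hvq]
    refine Eq.trans ?_ (h3.trans ?_)
    · rfl
    · congr 1
      funext j
      rw [MvPolynomial.coeToMvPowerSeries.algHom_apply]
      simp
  rw [pow_one, h1, h2, Units.val_pow_eq_pow_val]
  refine clr_eq g _ fun j => ?_
  show MvPowerSeries.X (Fin.castSucc j) = (vq : MvPowerSeries (Fin (k + 1)) ℂ) *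
    (MvPowerSeries.X (Fin.castSucc j) * if Fin.castSucc j = Fin.last k then 1 else vi)
  rw [if_neg (Fin.castSucc_lt_last j).ne, mul_left_comm, hvi, mul_one]

theorem clr_mul {A : Type*} [CommRing A] [Algebra ℂ A] (g : MvPolynomial (Fin k) ℂ) (z q : A)
    (u : Fin k → A) : clr g (z * q) (fun j => u j * z) = z ^ g.totalDegree * clr g q u := by
  unfold clr
  rw [Finset.mul_sum]
  refine Finset.sum_congr rfl fun v hv => ?_
  have h1 : ∏ j, (u j * z) ^ v j = z ^ v.degree * ∏ j, u j ^ v j := by
    rw [Finsupp.degree_eq_sum, ← Finset.prod_pow_eq_pow_sum, ← Finset.prod_mul_distrib]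
    refine Finset.prod_congr rfl fun j _ => ?_
    rw [mul_pow, mul_comm]
  have h2 : z ^ g.totalDegree = z ^ v.degree * z ^ (g.totalDegree - v.degree) := by
    rw [← pow_add, Nat.add_sub_cancel' (degree_le hv)]
  rw [h1, h2, mul_pow]
  ring

theorem Zmot0_up_mem {g : MvPolynomial (Fin k) ℂ} {s₀ : ℚ} (hreg : Zmot0 g ∈ regularAt s₀) :
    Zmot0 (up g) ∈ regularAt s₀ := by
  classical
  have h1 : Zmot0 (up g) = seriesAt (up g) {0} := by
    rw [seriesAt_singleton]
    congr 1
    unfold translate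
    rw [show (fun i => X i + C ((0 : Fin (k + 1) → ℂ) i) : Fin (k + 1) → MvPolynomial (Fin (k + 1)) ℂ) =
      X from funext fun i => by simp]
    exact (aeval_X_left_apply _).symm
  rw [h1]
  refine seriesAt_mem_of_triv (a := 1) (b := 1) (u := fun j => X (Fin.castSucc j))
    (isConstr_point 0) ?_ ?_ fun _ => hreg
  · rw [one_mul, one_mul]
    unfold up
    rw [rename_eq_aeval]
    rfl
  · intro p hp
    rw [Set.mem_singleton_iff] at hp
    refine ⟨by simp, by simp, fun j => by simp [hp], ?_⟩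
    rw [Fintype.linearIndependent_iff]
    intro α hα j
    have h2 := congrFun hα (Fin.castSucc j)
    rw [Finset.sum_apply, Finset.sum_eq_single j] at h2
    · rw [Pi.smul_apply, pderiv_X_self, map_one, smul_eq_mul, mul_one] at h2
      exact h2
    · intro i _ hi
      rw [Pi.smul_apply, pderiv_X_of_ne, map_zero, smul_zero]
      intro h
      exact hi (Fin.castSucc_injective k h)
    · intro h
      exact absurd (Finset.mem_univ _) h

theorem Zmot0_gW_mem {g : MvPolynomial (Fin k) ℂ} {s₀ : ℚ} (hreg : Zmot0 g ∈ regularAt s₀) :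
    Zmot0 (gW g) ∈ regularAt s₀ := by
  by_contra hcon
  have h1 := isPole_of_formEquivPow one_pos (formEquivPow_gW g) hcon
  rw [Nat.cast_one, one_mul] at h1
  exact h1 (Zmot0_up_mem hreg)

/-- **The arcs at a stratum along which `f` is trivial in rational coordinates.** -/
theorem seriesAt_mem_of_relQ {f a b q : MvPolynomial (Fin n) ℂ} {W : Set (Fin n → ℂ)}
    {g : MvPolynomial (Fin k) ℂ} {u : Fin k → MvPolynomial (Fin n) ℂ} (hW : IsConstr W)
    (hab : RelQ f a b q u g)
    (hp : ∀ p ∈ W, eval p a ≠ 0 ∧ eval p b ≠ 0 ∧ eval p q ≠ 0 ∧ (∀ j, eval p (u j) = 0) ∧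
      LinearIndependent ℂ fun (j : Fin k) (l : Fin n) => eval p (pderiv l (u j))) {s₀ : ℚ}
    (hreg : W.Nonempty → Zmot0 g ∈ regularAt s₀) : seriesAt f W ∈ regularAt s₀ := by
  classical
  rcases W.eq_empty_or_nonempty with he | hne
  · rw [he, seriesAt_empty]
    exact zero_mem _
  have hne' := hne
  obtain ⟨p₀, hp₀⟩ := hne'
  have hq0 : q ≠ 0 := by
    rintro rfl
    exact (hp p₀ hp₀).2.2.1 (map_zero _)
  rw [seriesAt_up hW fun p hpW => (hp p hpW).2.2.1]
  refine mul_mem (C_mem_regularAt s₀ _) ?_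
  let z : MvPolynomial (Fin (n + 1)) ℂ := X (Fin.last n)
  let U : Fin (k + 1) → MvPolynomial (Fin (n + 1)) ℂ :=
    Fin.snoc (α := fun _ => MvPolynomial (Fin (n + 1)) ℂ) (fun j => up (u j) * z) (z * up q - 1)
  have hU1 : ∀ j : Fin k, U (Fin.castSucc j) = up (u j) * z := fun j => Fin.snoc_castSucc ..
  have hU2 : U (Fin.last k) = z * up q - 1 := Fin.snoc_last ..
  refine seriesAt_mem_of_triv (a := up a * (z * up q) ^ g.totalDegree) (b := up b) (u := U)
    (isConstr_hatW hW q) ?_ ?_ fun _ => Zmot0_gW_mem (hreg hne)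
  · have h1 : aeval U (gW g) = clr g (z * up q) fun j => up (u j) * z := by
      unfold gW
      rw [map_clr, map_add, map_one, aeval_X, hU2]
      congr 1
      · ring
      · funext j
        rw [aeval_X, hU1]
    have h2 : up (clr g q u) = clr g (up q) fun j => up (u j) :=
      map_clr (rename Fin.castSucc : MvPolynomial (Fin n) ℂ →ₐ[ℂ] MvPolynomial (Fin (n + 1)) ℂ) g q u
    have h3 := congrArg up (hab.clr hq0)
    rw [up_mul, up_mul, up_mul, up_pow, h2] at h3
    rw [h1, clr_mul, mul_pow]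
    linear_combination z ^ g.totalDegree * h3
  · intro x hx
    rw [mem_hatW] at hx
    obtain ⟨hxW, hxq⟩ := hx
    obtain ⟨ha, hb, hq, hu, hli⟩ := hp _ hxW
    have hz : x (Fin.last n) ≠ 0 := by
      intro h0
      rw [h0, zero_mul] at hxq
      exact zero_ne_one hxq
    have ez : eval x z = x (Fin.last n) := eval_X _
    refine ⟨?_, ?_, ?_, ?_⟩
    · rw [map_mul, map_pow, map_mul, eval_up, eval_up, ez, hxq, one_pow, mul_one]
      exact ha
    · rw [eval_up]
      exact hb
    · intro j
      refine Fin.lastCases ?_ (fun j => ?_) j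
      · rw [hU2, map_sub, map_mul, eval_up, ez, hxq, map_one, sub_self]
      · rw [hU1, map_mul, eval_up, hu j, zero_mul]
    · rw [Fintype.linearIndependent_iff] at hli ⊢
      intro α hα
      have hlast : α (Fin.last k) = 0 := by
        have h1 := congrFun hα (Fin.last n)
        rw [Finset.sum_apply, Fin.sum_univ_castSucc] at h1
        simp only [Pi.smul_apply, hU1, hU2, smul_eq_mul, Pi.zero_apply] at h1
        have h2 : ∀ j : Fin k, α (Fin.castSucc j) *
            eval x (pderiv (Fin.last n) (up (u j) * z)) = 0 := by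
          intro j
          rw [pderiv_mul, pderiv_up_last, zero_mul, zero_add, map_mul, eval_up, hu j, zero_mul,
            mul_zero]
        rw [Finset.sum_eq_zero fun j _ => h2 j, zero_add, map_sub, pderiv_one, sub_zero,
          pderiv_mul, pderiv_up_last, mul_zero, add_zero, pderiv_X_self, one_mul, eval_up] at h1
        exact (mul_eq_zero.1 h1).resolve_right hq
      have hj : ∀ j : Fin k, α (Fin.castSucc j) * x (Fin.last n) = 0 := by
        apply hli
        funext l
        have h1 := congrFun hα (Fin.castSucc l)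
        rw [Finset.sum_apply, Fin.sum_univ_castSucc] at h1
        simp only [Pi.smul_apply, hU1, hU2, smul_eq_mul, Pi.zero_apply] at h1
        rw [hlast, zero_mul, add_zero] at h1
        rw [Finset.sum_apply, Pi.zero_apply, ← h1]
        refine Finset.sum_congr rfl fun j _ => ?_
        rw [Pi.smul_apply, smul_eq_mul, pderiv_mul, pderiv_up_castSucc, pderiv_X_of_ne
          (Fin.castSucc_lt_last l).ne', mul_zero, add_zero, map_mul, eval_up, ez]
        ring
      intro j
      refine Fin.lastCases hlast (fun j => ?_) j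
      exact (mul_eq_zero.1 (hj j)).resolve_right hz

/-! ### Bernstein–Sato polynomials -/

/-- The germ of `f` at `p` is formally equivalent to `g` in the variables `c`. -/
theorem formEquiv_of_relQ {f a b q : MvPolynomial (Fin n) ℂ} {g : MvPolynomial (Fin k) ℂ}
    {u : Fin k → MvPolynomial (Fin n) ℂ} (hab : RelQ f a b q u g) {c : Fin k → Fin n}
    (hc : Function.Injective c) {p : Fin n → ℂ} (ha : eval p a ≠ 0) (hb : eval p b ≠ 0)
    (hq : eval p q ≠ 0) (hu : ∀ j, eval p (u j) = 0)
    (hdet : (Matrix.of fun i j => eval p (pderiv (c j) (u i))).det ≠ 0) :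
    FormEquivPow (translate p f) (rename c g) 1 := by
  classical
  have hq0 : q ≠ 0 := by
    rintro rfl
    exact hq (map_zero _)
  obtain ⟨va, hva⟩ := isUnit_translate ha
  obtain ⟨vb, hvb⟩ := isUnit_translate hb
  obtain ⟨vq, hvq⟩ := isUnit_translate hq
  obtain ⟨vi, hvi⟩ : ∃ vi : MvPowerSeries (Fin n) ℂ,
      (vq : MvPowerSeries (Fin n) ℂ) * vi = 1 := ⟨_, vq.mul_inv⟩
  have hvi0 : MvPowerSeries.constantCoeff vi ≠ 0 := by
    intro h0
    have h1 := congrArg MvPowerSeries.constantCoeff hvi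
    rw [map_mul, h0, mul_zero, map_one] at h1
    exact zero_ne_one h1
  let κ : Fin n → MvPowerSeries (Fin n) ℂ := fun i => if ∃ j, c j = i then vi else 1
  have hκ : ∀ i, MvPowerSeries.constantCoeff (κ i) ≠ 0 := by
    intro i
    show MvPowerSeries.constantCoeff (if ∃ j, c j = i then vi else 1) ≠ 0
    split_ifs
    · exact hvi0
    · rw [map_one]
      exact one_ne_zero
  let qq : Fin n → MvPolynomial (Fin n) ℂ := fun i =>
    translate p (etG u c i) - C (eval p (etG u c i))
  have hqq0 : ∀ i, MvPowerSeries.constantCoeff (qq i : MvPowerSeries (Fin n) ℂ) = 0 := by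
    intro i
    rw [constantCoeff_coe]
    show constantCoeff (translate p (etG u c i) - C (eval p (etG u c i))) = 0
    rw [map_sub, constantCoeff_translate, constantCoeff_C, sub_self]
  let A : Fin n → MvPowerSeries (Fin n) ℂ := fun i => (qq i : MvPowerSeries (Fin n) ℂ) * κ i
  have hA0 : ∀ i, MvPowerSeries.constantCoeff (A i) = 0 := by
    intro i
    show MvPowerSeries.constantCoeff ((qq i : MvPowerSeries (Fin n) ℂ) * κ i) = 0
    rw [map_mul, hqq0, zero_mul]
  have hA1 : (Matrix.of fun i j => MvPowerSeries.coeff (Finsupp.single j 1) (A i)).det ≠ 0 := by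
    have e : ∀ i j, MvPowerSeries.coeff (Finsupp.single j 1) (A i) =
        eval p (pderiv j (etG u c i)) * MvPowerSeries.constantCoeff (κ i) := by
      intro i j
      show MvPowerSeries.coeff (Finsupp.single j 1) ((qq i : MvPowerSeries (Fin n) ℂ) * κ i) = _
      rw [coeff_single_mul (hqq0 i), MvPolynomial.coeff_coe, coeff_single_eq]
      congr 1
      show constantCoeff (pderiv j (translate p (etG u c i) - C (eval p (etG u c i)))) = _
      rw [map_sub, pderiv_C, sub_zero, pderiv_translate, constantCoeff_translate]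
    refine det_ne_zero_of_injective fun v hv => etG_nondeg hc hdet v fun i => ?_
    have h1 := hv i
    simp only [Matrix.of_apply, e] at h1
    have h2 : MvPowerSeries.constantCoeff (κ i) *
        ∑ j', eval p (pderiv j' (etG u c i)) * v j' = 0 := by
      rw [Finset.mul_sum, ← h1]
      refine Finset.sum_congr rfl fun j _ => ?_
      ring
    exact (mul_eq_zero.1 h2).resolve_left (hκ i)
  obtain ⟨e, he⟩ := IFT.exists_equiv hA0 hA1
  refine ⟨e, va⁻¹ * vb, ?_⟩
  let T : MvPolynomial (Fin n) ℂ →ₐ[ℂ] MvPowerSeries (Fin n) ℂ :=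
    (MvPolynomial.coeToMvPowerSeries.algHom (R := ℂ) (σ := Fin n) ℂ).comp
      (aeval fun i => X i + C (p i))
  have hT : ∀ x, T x = ((translate p x : MvPolynomial (Fin n) ℂ) : MvPowerSeries (Fin n) ℂ) := by
    intro x
    show MvPolynomial.coeToMvPowerSeries.algHom (R := ℂ) (σ := Fin n) ℂ (translate p x) = _
    rw [MvPolynomial.coeToMvPowerSeries.algHom_apply]
    rfl
  have h1 : e ((rename c g : MvPolynomial (Fin n) ℂ) : MvPowerSeries (Fin n) ℂ) =
      aeval (fun j => T (u j) * vi) g := by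
    rw [he, aeval_rename]
    congr 2
    funext j
    show ((translate p (etG u c (c j)) - C (eval p (etG u c (c j))) : MvPolynomial (Fin n) ℂ) :
      MvPowerSeries (Fin n) ℂ) * (if ∃ j', c j' = c j then vi else 1) = _
    rw [etG_apply u hc, hu j, C_0, sub_zero, if_pos ⟨j, rfl⟩, hT]
  have h2 := congrArg T (hab.clr hq0)
  rw [map_mul, map_mul, map_mul, map_pow, map_clr] at h2
  have h3 : clr g (T q) (fun j => T (u j)) =
      (T q) ^ g.totalDegree * aeval (fun j => T (u j) * vi) g := by
    refine clr_eq g (T q) fun j => ?_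
    rw [hT q, ← hvq, mul_left_comm, hvi, mul_one]
  rw [h3, hT a, hT b, hT q, hT f, ← hva, ← hvb, ← hvq] at h2
  have h4 : (va : MvPowerSeries (Fin n) ℂ) *
      ((translate p f : MvPolynomial (Fin n) ℂ) : MvPowerSeries (Fin n) ℂ) =
      vb * aeval (fun j => T (u j) * vi) g := by
    have h5 : (((vq ^ g.totalDegree : (MvPowerSeries (Fin n) ℂ)ˣ)) : MvPowerSeries (Fin n) ℂ) =
        (vq : MvPowerSeries (Fin n) ℂ) ^ g.totalDegree := Units.val_pow_eq_pow_val _ _
    apply (vq ^ g.totalDegree).isUnit.mul_left_cancel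
    rw [h5]
    linear_combination h2
  rw [pow_one, h1, Units.val_mul, mul_assoc, ← h4, Units.inv_mul_cancel_left]

/-- The Bernstein–Sato polynomials of `f` are formal Bernstein–Sato polynomials of `g`. -/
theorem form_of_relQ {f a b q : MvPolynomial (Fin n) ℂ} {g : MvPolynomial (Fin k) ℂ}
    {u : Fin k → MvPolynomial (Fin n) ℂ} (hab : RelQ f a b q u g) {c : Fin k → Fin n}
    (hc : Function.Injective c) {p : Fin n → ℂ} (ha : eval p a ≠ 0) (hb : eval p b ≠ 0)
    (hq : eval p q ≠ 0) (hu : ∀ j, eval p (u j) = 0)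
    (hdet : (Matrix.of fun i j => eval p (pderiv (c j) (u i))).det ≠ 0) {B : Polynomial ℂ}
    (hB : IsBernsteinSato f B) :
    InDnForm g 1 (B.map (MvPowerSeries.C (σ := Fin k) (R := ℂ))) := by
  have h1 := form_of_formEquivPow one_pos (formEquiv_of_relQ hab hc ha hb hq hu hdet)
    (form_translate p hB)
  have h2 : B.comp (Polynomial.C (((1 : ℕ) : ℂ)⁻¹) * Polynomial.X) = B := by simp
  rw [h2] at h1
  exact form_of_rename hc h1

end Str

end MPb07157
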