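import Pool.Agent.Lib.MP_b07157_agM.CDefs

/-!
# The definitions used by the class of stably non-degenerate germs: tangent cones with double points
-/

noncomputable section

namespace MPb07157

open MvPolynomial MeasureTheory

variable {n k : ℕ}

namespace YG

/-- The Hessian matrix of `F` at `q`. -/
def hessAt {n : ℕ} (F : MvPolynomial (Fin n) ℂ) (q : Fin n → ℂ) : Matrix (Fin n) (Fin n) ℂ :=
  Matrix.of fun i j => eval q (pderiv i (pderiv j F))

/-- The singular points of the projective hypersurface `F = 0` are finite in number. -/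
def FinSing {n : ℕ} (F : MvPolynomial (Fin n) ℂ) : Prop :=
  ∃ P : Finset (Fin n → ℂ), ∀ q, q ≠ 0 → (∀ j, eval q (pderiv j F) = 0) →
    ∃ p ∈ P, ∃ c : ℂ, q = c • p

end YG

/-- `q` is a singular point of the projective hypersurface `F = 0`. -/
def SingPt (F : MvPolynomial (Fin n) ℂ) (q : Fin n → ℂ) : Prop :=
  q ≠ 0 ∧ ∀ j, eval q (pderiv j F) = 0

/-- The singular point `q` of the projective hypersurface `F = 0`, `F` a form in `k + 1` variables,
is a node: the Hessian matrix has the rank `k`. -/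
def Node (F : MvPolynomial (Fin (k + 1)) ℂ) (q : Fin (k + 1) → ℂ) : Prop :=
  (YG.hessAt F q).rank = k

/-- The singular point `q` of the projective hypersurface `F = 0`, `F` a form of degree `d` in
`n = k + 1` variables, is of corank at most one, and `(n - 2) d ≤ 2 n`. -/
def Cork (F : MvPolynomial (Fin (k + 1)) ℂ) (d : ℕ) (q : Fin (k + 1) → ℂ) : Prop :=
  (k - 1) * d ≤ 2 * (k + 1) ∧ k - 1 ≤ (YG.hessAt F q).rank

/-- A germ `f = f_d + f_{d+e} + f_{d+e+1} + ⋯` in `n = k + 1 ≥ 3` variables, `d ≥ 3`, such that the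
projective hypersurface `f_d = 0` has finitely many singular points `q`, and each of them is a node,
or of corank one, if `(n - 2) d ≤ 2 n`, or satisfies `f_{d+e}(q) ≠ 0`, if `n = 3`. -/
structure TanCone (f : MvPolynomial (Fin (k + 1)) ℂ) (d e : ℕ) : Prop where
  hk : 2 ≤ k
  hd : 3 ≤ d
  he : 0 < e
  low : ∀ j < d, homogeneousComponent j f = 0
  mid : ∀ j, 0 < j → j < e → homogeneousComponent (d + j) f = 0
  fin : YG.FinSing (homogeneousComponent d f)
  sing : ∀ q, SingPt (homogeneousComponent d f) q →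
    Node (homogeneousComponent d f) q ∨ Cork (homogeneousComponent d f) d q ∨
      (k = 2 ∧ eval q (homogeneousComponent (d + e) f) ≠ 0)

namespace YQ

/-- The Jacobian ideal of a polynomial. -/
def JP (G : MvPolynomial (Fin k) ℂ) : Ideal (MvPolynomial (Fin k) ℂ) :=
  Ideal.span (Set.range fun j => pderiv j G)

/-- In suitable formal coordinates `g` is a unit times the polynomial `G`, which is homogeneous of
degree `D` for the weights `w > 0` and has no critical points outside the origin. -/
structure QHAt (g : MvPowerSeries (Fin k) ℂ) (w : Fin k → ℕ) (D : ℕ)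
    (G : MvPolynomial (Fin k) ℂ) : Prop where
  hw : ∀ i, 0 < w i
  hD : 0 < D
  hG : G.IsWeightedHomogeneous w D
  iso : ∃ N : ℕ, ∀ i, (X i : MvPolynomial (Fin k) ℂ) ^ N ∈ JP G
  eq : ∃ (E : MvPowerSeries (Fin k) ℂ ≃ₐ[ℂ] MvPowerSeries (Fin k) ℂ)
    (u : (MvPowerSeries (Fin k) ℂ)ˣ), g = u * E (G : MvPowerSeries (Fin k) ℂ)

/-- `n/d + m ≠ ∑ (a_i + 1) w_i / D` for all `m ≥ 1` and all monomials `x^a` which do not belong to
the Jacobian ideal of `G`: no number `n/d + m`, `m ≥ 1`, is a spectral number of `G`. -/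
def NumOK (G : MvPolynomial (Fin k) ℂ) (w : Fin k → ℕ) (D n d : ℕ) : Prop :=
  ∀ (m : ℕ) (a : Fin k →₀ ℕ), 0 < m → monomial a (1 : ℂ) ∉ JP G →
    (d * m + n) * D ≠ d * ∑ i, (a i + 1) * w i

/-- The equation of the projective hypersurface `F = 0` at the point `q`, in the chart
`x_{j₀} = 1`. -/
def chartEq (F : MvPolynomial (Fin (k + 1)) ℂ) (q : Fin (k + 1) → ℂ) (j₀ : Fin (k + 1)) :
    MvPolynomial (Fin k) ℂ :=
  aeval (j₀.insertNth (α := fun _ => MvPolynomial (Fin k) ℂ) 1
    fun i => X i + C (q (j₀.succAbove i))) F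

/-- The point `q` of the projective hypersurface `F = 0` is quasi-homogeneous, and no number
`n/d + m`, `m ≥ 1`, is one of its spectral numbers; `F` is a form of degree `d` in `n = k + 1`
variables. -/
def QPt (F : MvPolynomial (Fin (k + 1)) ℂ) (d : ℕ) (q : Fin (k + 1) → ℂ) : Prop :=
  ∃ (j₀ : Fin (k + 1)) (c : ℂ), c * q j₀ = 1 ∧ ∃ (w : Fin k → ℕ) (D : ℕ)
    (G : MvPolynomial (Fin k) ℂ), QHAt (chartEq F (c • q) j₀ : MvPowerSeries (Fin k) ℂ) w D G ∧
      NumOK G w D (k + 1) d

end YQ

/-- Conditions at the candidate pole `-n/d` of a germ `f = f_d + ⋯` in `n = k + 1` variables,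
`F = f_d`: `d = n`; or the log canonical threshold of `f` is `n/d`; or `F^(-n/d)` is not a sum of
derivatives; or each linear vector field which kills `F` has divergence zero (which need not be
assumed if `d ≥ 5` and all singular points are double points, or if `n ≥ 4` and all are nodes), and
each singular point of the projective hypersurface `F = 0` is of corank one, and `(n - 2) d ≤ 2 n`,
or a node, and `n/d + m ≠ (n - 1)/2` for all `m ≥ 1`, or quasi-homogeneous without spectral numbers
`n/d + m`, `m ≥ 1`. -/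
def TRoot (f : MvPolynomial (Fin (k + 1)) ℂ) (d : ℕ) : Prop :=
  d = k + 1 ∨
  (∃ r : ℝ, 0 < r ∧ ∀ c : ℝ, 0 < c → c < ((k : ℝ) + 1) / d →
    IntegrableOn (fun x => ‖eval x f‖ ^ (-(2 * c))) (Metric.ball (0 : Fin (k + 1) → ℂ) r)) ∨
  NonEx (homogeneousComponent d f) (((k : ℂ) + 1) / d) ∨
  ((NS (homogeneousComponent d f) ∨
      (5 ≤ d ∧ ∀ q, SingPt (homogeneousComponent d f) q →
        YG.hessAt (homogeneousComponent d f) q ≠ 0) ∨
      (3 ≤ k ∧ ∀ q, SingPt (homogeneousComponent d f) q → Node (homogeneousComponent d f) q)) ∧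
    ∀ q, SingPt (homogeneousComponent d f) q → Cork (homogeneousComponent d f) d q ∨
      (Node (homogeneousComponent d f) q ∧ ∀ m : ℕ, 0 < m → 2 * (d * m + (k + 1)) ≠ k * d) ∨
      YQ.QPt (homogeneousComponent d f) d q)

end MPb07157
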