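import Pool.Agent.Lib.MP_b07157_ag.ND.Main
import Pool.Agent.Lib.MP_b07157_agQ.HArc
import Pool.Agent.Lib.MP_b07157_agQ.QHom

/-!
# Products of linear forms
-/

noncomputable section

namespace MPb07157

open MvPolynomial

variable {n : ℕ}

theorem smcLoc_arr {r : ℕ} (a : Fin r → Fin n → ℂ) (m : Fin r → ℕ)
    (hf : (∏ j, (∑ i, C (a j i) * X i) ^ m j : MvPolynomial (Fin n) ℂ) ≠ 0)
    (h0 : coeff 0 (∏ j, (∑ i, C (a j i) * X i) ^ m j : MvPolynomial (Fin n) ℂ) = 0) :
    SmcLoc (∏ j, (∑ i, C (a j i) * X i) ^ m j : MvPolynomial (Fin n) ℂ) := by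
  classical
  set f : MvPolynomial (Fin n) ℂ := ∏ j, (∑ i, C (a j i) * X i) ^ m j with hfdef
  set d : ℕ := ∑ j, m j with hd
  have hh : f.IsHomogeneous d := by
    refine IsHomogeneous.prod _ _ _ fun j _ => ?_
    have h1 := (ND.lf_isHomogeneous (a j)).pow (m j)
    rw [one_mul] at h1
    exact h1
  have hdpos : 0 < d := by
    rcases Nat.eq_zero_or_pos d with h | h
    · exfalso
      have h1 : ∀ j, m j = 0 := fun j =>
        (Finset.sum_eq_zero_iff.1 h) j (Finset.mem_univ j)
      have h2 : f = 1 := by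
        rw [hfdef]
        exact Finset.prod_eq_one fun j _ => by rw [h1 j, pow_zero]
      rw [h2, coeff_zero_one] at h0
      exact one_ne_zero h0
    · exact h
  -- the factors with positive multiplicity
  let ι : Type := {j : Fin r // 0 < m j}
  have hf' : f = ND.arrPolyC (fun j : ι => a j) (fun _ => 0) (fun j : ι => m j) := by
    rw [ND.arrPolyC_eq, hfdef]
    have h1 : ∏ j : Fin r, (∑ i, C (a j i) * X i : MvPolynomial (Fin n) ℂ) ^ m j =
        ∏ j ∈ Finset.univ.filter (fun j => 0 < m j), (∑ i, C (a j i) * X i) ^ m j := by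
      rw [Finset.prod_filter]
      refine Finset.prod_congr rfl fun j _ => ?_
      split_ifs with h
      · rfl
      · rw [Nat.eq_zero_of_not_pos h, pow_zero]
    rw [h1, Finset.prod_subtype (p := fun j => 0 < m j) _ (fun j => by simp)]
    refine Finset.prod_congr rfl fun j _ => ?_
    unfold ND.af
    rw [C_0, add_zero]
  have ha : ∀ j : ι, a j ≠ 0 := by
    intro j h
    apply hf
    rw [hfdef]
    refine Finset.prod_eq_zero (Finset.mem_univ (j : Fin r)) ?_
    rw [h]
    simp [j.2.ne']
  intro s₀ _ hp b hb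
  have hbg : IsBernsteinSato f b := isBernsteinSato_of_form_homogeneous hh hb
  have hp' : IsPole (Zmot f) s₀ := by
    intro h
    apply hp
    rw [Zmot0_of_isHomogeneous hdpos hh]
    exact mul_mem (mul_mem (C_mem_regularAt s₀ _) (pow_mem (X_mem_regularAt s₀) d)) h
  have h1 := ND.strong_monodromy (fun j : ι => a j) (fun _ => 0) (fun j : ι => m j) ha
    (fun j => j.2) s₀ (by rw [← hf']; exact hp')
  rw [← hf'] at h1
  exact h1 b hbg

end MPb07157
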