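import Mathlib

/-!
# The formal inverse function theorem

A substitution `X_i ↦ a_i` of formal power series over `ℂ`, `a_i` without constant term, is an
automorphism if each `X_j` is, up to terms of order at least two, the image of some power series.
-/

noncomputable section

namespace MPb07157

namespace IFT

open MvPowerSeries Finset

variable {n : ℕ}

/-- Order at least `d`. -/
def Ge (d : ℕ) (h : MvPowerSeries (Fin n) ℂ) : Prop := ∀ v : Fin n →₀ ℕ, v.degree < d → coeff v h = 0

theorem ge_iff {d : ℕ} {h : MvPowerSeries (Fin n) ℂ} : Ge d h ↔ (d : ℕ∞) ≤ h.order := by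
  constructor
  · intro H
    exact nat_le_order H
  · intro H v hv
    refine coeff_of_lt_order (lt_of_lt_of_le ?_ H)
    exact_mod_cast hv

theorem Ge.add {d : ℕ} {g h : MvPowerSeries (Fin n) ℂ} (hg : Ge d g) (hh : Ge d h) :
    Ge d (g + h) := by
  intro v hv
  rw [map_add, hg v hv, hh v hv, add_zero]

theorem Ge.sub {d : ℕ} {g h : MvPowerSeries (Fin n) ℂ} (hg : Ge d g) (hh : Ge d h) :
    Ge d (g - h) := by
  intro v hv
  rw [map_sub, hg v hv, hh v hv, sub_zero]

theorem Ge.zero (d : ℕ) : Ge d (0 : MvPowerSeries (Fin n) ℂ) := fun _ _ => map_zero _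

theorem Ge.mono {d e : ℕ} (hde : e ≤ d) {g : MvPowerSeries (Fin n) ℂ} (hg : Ge d g) : Ge e g :=
  fun v hv => hg v (lt_of_lt_of_le hv hde)

theorem Ge.mul {d e : ℕ} {g h : MvPowerSeries (Fin n) ℂ} (hg : Ge d g) (hh : Ge e h) :
    Ge (d + e) (g * h) := by
  rw [ge_iff] at *
  push_cast
  exact (add_le_add hg hh).trans le_order_mul

theorem Ge.sum {d : ℕ} {ι : Type*} (s : Finset ι) (g : ι → MvPowerSeries (Fin n) ℂ)
    (h : ∀ i ∈ s, Ge d (g i)) : Ge d (∑ i ∈ s, g i) := by
  intro v hv
  rw [map_sum]
  exact Finset.sum_eq_zero fun i hi => h i hi v hv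

theorem Ge.C_mul {d : ℕ} (c : ℂ) {g : MvPowerSeries (Fin n) ℂ} (hg : Ge d g) :
    Ge d (C c * g) := by
  intro v hv
  rw [coeff_C_mul, hg v hv, mul_zero]

theorem ge_zero (g : MvPowerSeries (Fin n) ℂ) : Ge 0 g := fun _ hv => absurd hv (Nat.not_lt_zero _)

theorem ge_one_iff {g : MvPowerSeries (Fin n) ℂ} : Ge 1 g ↔ constantCoeff g = 0 := by
  constructor
  · intro h
    rw [← coeff_zero_eq_constantCoeff_apply]
    exact h 0 (by simp)
  · intro h v hv
    have hv' : v = 0 := by
      rw [← Finsupp.degree_eq_zero_iff]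
      omega
    rw [hv', coeff_zero_eq_constantCoeff_apply, h]

theorem exists_single {v : Fin n →₀ ℕ} (h : v.degree = 1) : ∃ l, v = Finsupp.single l 1 := by
  rw [Finsupp.degree_eq_sum] at h
  obtain ⟨l, -, hl⟩ : ∃ l ∈ Finset.univ, v l ≠ 0 := by
    by_contra hcon
    push Not at hcon
    rw [Finset.sum_eq_zero hcon] at h
    exact absurd h (by norm_num)
  refine ⟨l, Finsupp.ext fun i => ?_⟩
  have h1 := Finset.add_sum_erase Finset.univ (fun i => v i) (Finset.mem_univ l)
  rw [h] at h1
  have h2 : ∑ i ∈ Finset.univ.erase l, v i = 0 := by omega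
  by_cases hi : i = l
  · subst hi
    rw [Finsupp.single_eq_same]
    omega
  · rw [Finsupp.single_eq_of_ne hi]
    exact Finset.sum_eq_zero_iff.1 h2 i (Finset.mem_erase.2 ⟨hi, Finset.mem_univ i⟩)

section

variable {a : Fin n → MvPowerSeries (Fin n) ℂ} (ha : ∀ i, constantCoeff (a i) = 0)

include ha

theorem Ge.subst {d : ℕ} {g : MvPowerSeries (Fin n) ℂ} (hg : Ge d g) : Ge d (subst a g) := by
  rw [ge_iff] at *
  refine le_trans ?_ (le_order_subst (hasSubst_of_constantCoeff_zero ha) g)
  have h1 : (1 : ℕ∞) ≤ ⨅ i, (a i).order :=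
    le_iInf fun i => one_le_order_iff_constCoeff_eq_zero.2 (ha i)
  calc (d : ℕ∞) = 1 * (d : ℕ∞) := (one_mul _).symm
    _ ≤ (⨅ i, (a i).order) * g.order := mul_le_mul' h1 hg

/-- The substitution. -/
def phi : MvPowerSeries (Fin n) ℂ →ₐ[ℂ] MvPowerSeries (Fin n) ℂ :=
  substAlgHom (hasSubst_of_constantCoeff_zero ha)

theorem phi_apply (g : MvPowerSeries (Fin n) ℂ) : phi ha g = subst a g := substAlgHom_apply _ _

theorem Ge.phi {d : ℕ} {g : MvPowerSeries (Fin n) ℂ} (hg : Ge d g) : Ge d (phi ha g) := by
  rw [phi_apply]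
  exact hg.subst ha

variable (hX : ∀ j, ∃ h : MvPowerSeries (Fin n) ℂ, Ge 1 h ∧ Ge 2 (phi ha h - X j))

include hX

theorem exists_monomial (v : Fin n →₀ ℕ) :
    ∃ h : MvPowerSeries (Fin n) ℂ, Ge v.degree h ∧
      Ge (v.degree + 1) (phi ha h - monomial v (1 : ℂ)) := by
  induction v using Finsupp.induction_linear with
  | zero =>
    refine ⟨1, ge_zero _, ?_⟩
    rw [map_one]
    have : (monomial (0 : Fin n →₀ ℕ) (1 : ℂ)) = 1 := rfl
    rw [this, sub_self]
    exact Ge.zero _
  | add v w hv hw =>
    obtain ⟨h, h1, h2⟩ := hv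
    obtain ⟨k, k1, k2⟩ := hw
    refine ⟨h * k, ?_, ?_⟩
    · rw [map_add]
      exact h1.mul k1
    · have e : phi ha (h * k) - monomial (v + w) (1 : ℂ) =
          (phi ha h - monomial v 1) * phi ha k + monomial v 1 * (phi ha k - monomial w 1) := by
        rw [map_mul]
        have : (monomial (v + w) (1 : ℂ)) = monomial v 1 * monomial w 1 := by
          rw [monomial_mul_monomial, one_mul]
        rw [this]
        ring
      rw [e, map_add]
      refine Ge.add ?_ ?_
      · have := h2.mul (k1.phi ha)
        rwa [show v.degree + 1 + w.degree = v.degree + w.degree + 1 by ring] at this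
      · have h3 : Ge v.degree (monomial v (1 : ℂ)) := by
          classical
          intro u hu
          rw [coeff_monomial, if_neg]
          rintro rfl
          exact lt_irrefl _ hu
        have := h3.mul k2
        rwa [← add_assoc] at this
  | single j m =>
    obtain ⟨h, h1, h2⟩ := hX j
    induction m with
    | zero =>
      refine ⟨1, by simp only [Finsupp.single_zero, map_zero]; exact ge_zero _, ?_⟩
      rw [map_one, Finsupp.single_zero]
      have : (monomial (0 : Fin n →₀ ℕ) (1 : ℂ)) = 1 := rfl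
      rw [this, sub_self]
      exact Ge.zero _
    | succ m ih =>
      obtain ⟨k, k1, k2⟩ := ih
      have hd : ∀ r, (Finsupp.single j r : Fin n →₀ ℕ).degree = r := fun r =>
        Finsupp.degree_single j r
      rw [hd] at *
      refine ⟨h * k, ?_, ?_⟩
      · rw [add_comm m 1]
        exact h1.mul k1
      · have e : phi ha (h * k) - monomial (Finsupp.single j (m + 1)) (1 : ℂ) =
            (phi ha h - X j) * phi ha k + X j * (phi ha k - monomial (Finsupp.single j m) 1) := by
          rw [map_mul]
          have : (monomial (Finsupp.single j (m + 1)) (1 : ℂ)) =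
              X j * monomial (Finsupp.single j m) 1 := by
            rw [X, monomial_mul_monomial, one_mul, ← Finsupp.single_add, add_comm 1 m]
          rw [this]
          ring
        rw [e]
        refine Ge.add ?_ ?_
        · have := h2.mul (k1.phi ha)
          rwa [show 2 + m = m + 1 + 1 by ring] at this
        · have h3 : Ge 1 (X j : MvPowerSeries (Fin n) ℂ) := ge_one_iff.2 (constantCoeff_X j)
          have := h3.mul k2
          rwa [show 1 + (m + 1) = m + 1 + 1 by ring] at this

theorem exists_step (d : ℕ) (g : MvPowerSeries (Fin n) ℂ) :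
    ∃ h : MvPowerSeries (Fin n) ℂ, Ge d g → Ge d h ∧ Ge (d + 1) (g - phi ha h) := by
  classical
  choose h h1 h2 using exists_monomial ha hX
  set s : Finset (Fin n →₀ ℕ) := Finset.univ.finsuppAntidiag d with hs
  have hmem : ∀ v : Fin n →₀ ℕ, v ∈ s ↔ v.degree = d := by
    intro v
    rw [hs, Finset.mem_finsuppAntidiag]
    constructor
    · rintro ⟨h3, -⟩
      rw [← h3, Finsupp.degree_eq_sum]
    · intro h3
      rw [Finsupp.degree_eq_sum] at h3
      exact ⟨h3, Finset.subset_univ _⟩
  refine ⟨∑ v ∈ s, C (coeff v g) * h v, fun hg => ⟨Ge.sum _ _ fun v hv => ?_, ?_⟩⟩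
  · have := h1 v
    rw [(hmem v).1 hv] at this
    exact this.C_mul _
  · have e : g - phi ha (∑ v ∈ s, C (coeff v g) * h v) =
        (g - ∑ v ∈ s, C (coeff v g) * monomial v (1 : ℂ)) -
          ∑ v ∈ s, C (coeff v g) * (phi ha (h v) - monomial v 1) := by
      rw [map_sum]
      have : ∀ v, phi ha (C (coeff v g) * h v) = C (coeff v g) * phi ha (h v) := by
        intro v
        rw [map_mul]
        congr 1
        rw [c_eq_algebraMap, AlgHom.commutes]
      simp only [this, mul_sub, Finset.sum_sub_distrib]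
      ring
    rw [e]
    refine Ge.sub ?_ (Ge.sum _ _ fun v hv => ?_)
    · intro u hu
      rw [map_sub, map_sum]
      simp only [coeff_C_mul, coeff_monomial, mul_ite, mul_one, mul_zero]
      rw [Finset.sum_ite_eq]
      split_ifs with h3
      · exact sub_self _
      · rw [sub_zero]
        apply hg
        have : u.degree ≠ d := fun h => h3 ((hmem u).2 h)
        omega
    · have := h2 v
      rw [(hmem v).1 hv] at this
      exact this.C_mul _

theorem phi_surjective : Function.Surjective (phi ha) := by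
  intro g
  choose stp hstp using exists_step ha hX
  -- the remainders
  let r : ℕ → MvPowerSeries (Fin n) ℂ := fun d => Nat.rec g (fun d x => x - phi ha (stp d x)) d
  have hr0 : r 0 = g := rfl
  have hr1 : ∀ d, r (d + 1) = r d - phi ha (stp d (r d)) := fun d => rfl
  have hr : ∀ d, Ge d (r d) := by
    intro d
    induction d with
    | zero => exact ge_zero _
    | succ d ih =>
      rw [hr1]
      exact (hstp d (r d) ih).2
  have hh : ∀ d, Ge d (stp d (r d)) := fun d => (hstp d (r d) (hr d)).1
  let H : MvPowerSeries (Fin n) ℂ := fun v => ∑ d ∈ Finset.range (v.degree + 1),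
    coeff v (stp d (r d))
  have hH : ∀ N, Ge N (H - ∑ d ∈ Finset.range N, stp d (r d)) := by
    intro N v hv
    rw [map_sub, map_sum, sub_eq_zero]
    show ∑ d ∈ Finset.range (v.degree + 1), coeff v (stp d (r d)) = _
    refine Finset.sum_subset (fun d hd => ?_) fun d _ hd => ?_
    · rw [Finset.mem_range] at hd ⊢
      omega
    · rw [Finset.mem_range] at hd
      exact hh d v (by omega)
  have hS : ∀ N, g - ∑ d ∈ Finset.range N, phi ha (stp d (r d)) = r N := by
    intro N
    induction N with
    | zero => rw [Finset.sum_range_zero, sub_zero, hr0]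
    | succ N ih => rw [Finset.sum_range_succ, hr1, ← ih]; ring
  refine ⟨H, ?_⟩
  ext v
  have h1 := (hH (v.degree + 1)).phi ha
  have h2 : Ge (v.degree + 1) (g - ∑ d ∈ Finset.range (v.degree + 1), phi ha (stp d (r d))) := by
    rw [hS]
    exact hr _
  have h3 := (h1.sub h2) v (Nat.lt_succ_self _)
  rw [map_sub (phi ha), map_sum (phi ha)] at h3
  rw [show phi ha H - ∑ d ∈ Finset.range (v.degree + 1), phi ha (stp d (r d)) -
    (g - ∑ d ∈ Finset.range (v.degree + 1), phi ha (stp d (r d))) = phi ha H - g by ring,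
    map_sub, sub_eq_zero] at h3
  exact h3

theorem phi_injective : Function.Injective (phi ha) := by
  classical
  rw [injective_iff_map_eq_zero]
  intro h hh
  ext v
  rw [map_zero]
  -- exponents of degree at most `v.degree`
  set d := v.degree + 1 with hd
  set s : Finset (Fin n →₀ ℕ) := (Finset.range d).biUnion fun e => Finset.univ.finsuppAntidiag e
    with hs
  have hmem : ∀ u : Fin n →₀ ℕ, u ∈ s ↔ u.degree < d := by
    intro u
    rw [hs, Finset.mem_biUnion]
    constructor
    · rintro ⟨e, he, hu⟩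
      rw [Finset.mem_finsuppAntidiag] at hu
      rw [Finset.mem_range] at he
      rw [Finsupp.degree_eq_sum, hu.1]
      exact he
    · intro hu
      refine ⟨u.degree, Finset.mem_range.2 hu, ?_⟩
      rw [Finset.mem_finsuppAntidiag]
      exact ⟨(Finsupp.degree_eq_sum u).symm, Finset.subset_univ _⟩
  let P : (s → ℂ) → MvPowerSeries (Fin n) ℂ := fun w => ∑ u : s, C (w u) * monomial (u : Fin n →₀ ℕ) 1
  have hP : ∀ w, P w = ∑ u : s, w u • monomial (u : Fin n →₀ ℕ) (1 : ℂ) := by
    intro w
    refine Finset.sum_congr rfl fun u _ => ?_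
    rw [smul_eq_C_mul]
  let T : (s → ℂ) →ₗ[ℂ] (s → ℂ) :=
    { toFun := fun w u => coeff (u : Fin n →₀ ℕ) (phi ha (P w))
      map_add' := by
        intro w w'
        funext u
        have : P (w + w') = P w + P w' := by
          simp only [hP, Pi.add_apply, add_smul, Finset.sum_add_distrib]
        rw [this, map_add, map_add]
        rfl
      map_smul' := by
        intro c w
        funext u
        have : P (c • w) = c • P w := by
          simp only [hP, Pi.smul_apply, smul_eq_mul, mul_smul, Finset.smul_sum]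
        rw [this, map_smul, RingHom.id_apply]
        simp }
  have hT : ∀ w u, T w u = coeff (u : Fin n →₀ ℕ) (phi ha (P w)) := fun w u => rfl
  have hcoeff : ∀ w (u : s), coeff (u : Fin n →₀ ℕ) (P w) = w u := by
    intro w u
    show coeff (u : Fin n →₀ ℕ) (∑ u : s, C (w u) * monomial (u : Fin n →₀ ℕ) 1) = _
    rw [map_sum]
    simp only [coeff_C_mul, coeff_monomial, mul_ite, mul_one, mul_zero]
    rw [Finset.sum_eq_single u]
    · rw [if_pos rfl]
    · intro u' _ hne
      rw [if_neg]
      intro h
      exact hne (Subtype.ext h.symm)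
    · intro h
      exact absurd (Finset.mem_univ _) h
  -- the truncation
  have htr : ∀ g : MvPowerSeries (Fin n) ℂ,
      Ge d (g - P fun u : s => coeff (u : Fin n →₀ ℕ) g) := by
    intro g u hu
    rw [map_sub, hcoeff (fun u : s => coeff (u : Fin n →₀ ℕ) g) ⟨u, (hmem u).2 hu⟩, sub_self]
  have htr' : ∀ g : MvPowerSeries (Fin n) ℂ, T (fun u : s => coeff (u : Fin n →₀ ℕ) g) =
      fun u : s => coeff (u : Fin n →₀ ℕ) (phi ha g) := by
    intro g
    funext u
    rw [hT]
    have h1 := ((htr g).phi ha) u ((hmem u).1 u.2)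
    rw [map_sub, map_sub, sub_eq_zero] at h1
    exact h1.symm
  have hsurj : Function.Surjective T := by
    intro w
    obtain ⟨g, hg⟩ := phi_surjective ha hX (P w)
    refine ⟨fun u : s => coeff (u : Fin n →₀ ℕ) g, ?_⟩
    rw [htr', hg]
    funext u
    exact hcoeff w u
  have hinj := LinearMap.injective_iff_surjective.2 hsurj
  have h1 : T (fun u : s => coeff (u : Fin n →₀ ℕ) h) = 0 := by
    rw [htr', hh]
    funext u
    rw [map_zero]
    rfl
  have h2 : (fun u : s => coeff (u : Fin n →₀ ℕ) h) = 0 :=
    hinj (by rw [h1, map_zero])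
  exact congrFun h2 ⟨v, (hmem v).2 (Nat.lt_succ_self _)⟩

/-- The automorphism. -/
def equiv : MvPowerSeries (Fin n) ℂ ≃ₐ[ℂ] MvPowerSeries (Fin n) ℂ :=
  AlgEquiv.ofBijective (phi ha) ⟨phi_injective ha hX, phi_surjective ha hX⟩

theorem equiv_coe (p : MvPolynomial (Fin n) ℂ) :
    equiv ha hX (p : MvPowerSeries (Fin n) ℂ) = MvPolynomial.aeval a p := by
  show phi ha (p : MvPowerSeries (Fin n) ℂ) = _
  unfold phi
  rw [substAlgHom_coe]

end

/-- **The formal inverse function theorem.** -/
theorem exists_equiv {a : Fin n → MvPowerSeries (Fin n) ℂ} (ha : ∀ i, constantCoeff (a i) = 0)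
    (hJ : (Matrix.of fun i j => coeff (Finsupp.single j 1) (a i)).det ≠ 0) :
    ∃ e : MvPowerSeries (Fin n) ℂ ≃ₐ[ℂ] MvPowerSeries (Fin n) ℂ,
      ∀ p : MvPolynomial (Fin n) ℂ, e (p : MvPowerSeries (Fin n) ℂ) = MvPolynomial.aeval a p := by
  classical
  have hX : ∀ j, ∃ h : MvPowerSeries (Fin n) ℂ, Ge 1 h ∧ Ge 2 (phi ha h - X j) := by
    intro j
    set J : Matrix (Fin n) (Fin n) ℂ := Matrix.of fun i j => coeff (Finsupp.single j 1) (a i)
      with hJdef
    have hJ' : IsUnit J.det := isUnit_iff_ne_zero.2 hJ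
    refine ⟨∑ i, C (J⁻¹ j i) * X i, Ge.sum _ _ fun i _ => ?_, ?_⟩
    · exact (ge_one_iff.2 (constantCoeff_X i)).C_mul _
    · have e : phi ha (∑ i, C (J⁻¹ j i) * X i) = ∑ i, C (J⁻¹ j i) * a i := by
        rw [map_sum]
        refine Finset.sum_congr rfl fun i _ => ?_
        rw [map_mul, c_eq_algebraMap, AlgHom.commutes]
        congr 1
        unfold phi
        rw [substAlgHom_X]
      rw [e]
      intro v hv
      have hv' : v.degree = 0 ∨ v.degree = 1 := by omega
      rcases hv' with h0 | h1
      · rw [Finsupp.degree_eq_zero_iff] at h0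
        subst h0
        rw [map_sub, map_sum]
        simp [coeff_C_mul, ha]
      · obtain ⟨l, rfl⟩ := exists_single h1
        rw [map_sub, map_sum]
        simp only [coeff_C_mul]
        have h2 : ∑ i, J⁻¹ j i * coeff (Finsupp.single l 1) (a i) = (J⁻¹ * J) j l := by
          rw [Matrix.mul_apply]
          rfl
        rw [h2, Matrix.nonsing_inv_mul _ hJ', Matrix.one_apply, coeff_X]
        by_cases hjl : j = l
        · subst hjl
          simp
        · rw [if_neg hjl, if_neg, sub_zero]
          intro h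
          exact hjl (by
            have := Finsupp.single_left_injective (one_ne_zero) h
            exact this.symm)
  exact ⟨equiv ha hX, equiv_coe ha hX⟩

end IFT

end MPb07157
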