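import Pool.Agent.Lib.MP_b07157_agM.MB
import Pool.Agent.Lib.MP_b07157_ag.Prod
import Pool.Agent.Lib.MP_b07157_agM.CDefs

/-!
# Products in separate variables: zeta functions, and the strong monodromy conjecture

`Z_{f(x) g(y)} = Z_f Z_g`, globally and locally at the origin. So the strong monodromy conjecture
for `f` and for `g` implies it for `f(x) g(y)`.
-/

noncomputable section

namespace MPb07157

open MvPolynomial

variable {n m N : ℕ}

namespace Sep

variable (E : Fin n ⊕ Fin m ≃ Fin N)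

/-- The first group of coordinates of a jet. -/
def jx {T : ℕ} (x : Fin N × Fin T → ℂ) : Fin n × Fin T → ℂ := fun p => x (e1 E p.1, p.2)

/-- The second group of coordinates of a jet. -/
def jy {T : ℕ} (x : Fin N × Fin T → ℂ) : Fin m × Fin T → ℂ := fun p => x (e2 E p.1, p.2)

theorem aeval_rename_e1 {T : ℕ} (f : MvPolynomial (Fin n) ℂ) (x : Fin N × Fin T → ℂ) :
    (aeval (arc x) (rename (e1 E) f) : PowerSeries ℂ) = aeval (arc (jx E x)) f := by
  rw [aeval_rename]
  rfl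

theorem aeval_rename_e2 {T : ℕ} (g : MvPolynomial (Fin m) ℂ) (x : Fin N × Fin T → ℂ) :
    (aeval (arc x) (rename (e2 E) g) : PowerSeries ℂ) = aeval (arc (jy E x)) g := by
  rw [aeval_rename]
  rfl

/-- The numbering of the coordinates of jets. -/
def eJ (T : ℕ) : (Fin n × Fin T) ⊕ (Fin m × Fin T) ≃ Fin N × Fin T :=
  (Equiv.sumProdDistrib (Fin n) (Fin m) (Fin T)).symm.trans (Equiv.prodCongr E (Equiv.refl _))

theorem cls_sep {T : ℕ} {A : Set (Fin n × Fin T → ℂ)} {B : Set (Fin m × Fin T → ℂ)}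
    (hA : IsConstr A) (hB : IsConstr B) :
    cls {x : Fin N × Fin T → ℂ | jx E x ∈ A ∧ jy E x ∈ B} = cls A * cls B := by
  rw [← cls_prodSum hA hB, ← cls_equiv (eJ E T) (isConstr_prodSum hA hB)]
  congr 1

theorem isConstr_sep {T : ℕ} {A : Set (Fin n × Fin T → ℂ)} {B : Set (Fin m × Fin T → ℂ)}
    (hA : IsConstr A) (hB : IsConstr B) :
    IsConstr {x : Fin N × Fin T → ℂ | jx E x ∈ A ∧ jy E x ∈ B} :=
  isConstr_setOf_and (hA.reindex (fun p => (e1 E p.1, p.2))) (hB.reindex (fun p => (e2 E p.1, p.2)))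

theorem arcs_prodE (f : MvPolynomial (Fin n) ℂ) (g : MvPolynomial (Fin m) ℂ) (ε T k : ℕ) :
    arcs (prodE E f g) T k ∩ Start N ε T =
      ⋃ p ∈ Finset.HasAntidiagonal.antidiagonal k,
        {x : Fin N × Fin T → ℂ | jx E x ∈ arcs f T p.1 ∩ Start n ε T ∧
          jy E x ∈ arcs g T p.2 ∩ Start m ε T} := by
  unfold prodE
  rw [arcs_mul, Set.iUnion₂_inter]
  refine Set.iUnion₂_congr fun p _ => ?_
  ext x
  simp only [arcs₂, Set.mem_inter_iff, Set.mem_ofPred_eq, arcs, aeval_rename_e1, aeval_rename_e2,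
    Start]
  constructor
  · rintro ⟨⟨h1, h2⟩, h3⟩
    exact ⟨⟨h1, fun j k hk => h3 (e1 E j) k hk⟩, h2, fun j k hk => h3 (e2 E j) k hk⟩
  · rintro ⟨⟨h1, h3⟩, h2, h4⟩
    refine ⟨⟨h1, h2⟩, fun l k hk => ?_⟩
    obtain ⟨y, rfl⟩ := E.surjective l
    rcases y with i | j
    · exact h3 i k hk
    · exact h4 j k hk

include E in
theorem card_eq : N = n + m := by
  have := Fintype.card_congr E
  simpa using this.symm

theorem muE_prodE (f : MvPolynomial (Fin n) ℂ) (g : MvPolynomial (Fin m) ℂ) (ε T k : ℕ) :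
    muE (prodE E f g) ε T k =
      ∑ p ∈ Finset.HasAntidiagonal.antidiagonal k, muE f ε T p.1 * muE g ε T p.2 := by
  have hc : ∀ p : ℕ × ℕ, IsConstr {x : Fin N × Fin T → ℂ | jx E x ∈ arcs f T p.1 ∩ Start n ε T ∧
      jy E x ∈ arcs g T p.2 ∩ Start m ε T} := fun p =>
    isConstr_sep E ((isConstr_arcs f T p.1).inter (isConstr_Start n ε T))
      ((isConstr_arcs g T p.2).inter (isConstr_Start m ε T))
  have h1 : cls (arcs (prodE E f g) T k ∩ Start N ε T) =
      ∑ p ∈ Finset.HasAntidiagonal.antidiagonal k,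
        cls (arcs f T p.1 ∩ Start n ε T) * cls (arcs g T p.2 ∩ Start m ε T) := by
    rw [arcs_prodE, cls_biUnion _ _ (fun p _ => hc p)]
    · exact Finset.sum_congr rfl fun p _ =>
        cls_sep E ((isConstr_arcs f T p.1).inter (isConstr_Start n ε T))
          ((isConstr_arcs g T p.2).inter (isConstr_Start m ε T))
    · rintro p _ q _ hpq
      rw [Set.disjoint_left]
      rintro x ⟨h1, h2⟩ ⟨h3, h4⟩
      have h1' := h1.1
      have h2' := h2.1
      have h3' := h3.1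
      have h4' := h4.1
      simp only [arcs, Set.mem_ofPred_eq] at h1' h2' h3' h4'
      apply hpq
      ext
      · have := h1'.symm.trans h3'
        exact_mod_cast this
      · have := h2'.symm.trans h4'
        exact_mod_cast this
  unfold muE clsM
  rw [h1, map_sum, Finset.mul_sum]
  refine Finset.sum_congr rfl fun p _ => ?_
  have h2 : (↑((LU ^ (N * T))⁻¹) : Mot) = ↑((LU ^ (n * T))⁻¹) * ↑((LU ^ (m * T))⁻¹) := by
    rw [← Units.val_mul, card_eq E, add_mul, pow_add, mul_inv]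
  rw [h2, map_mul]
  ring

theorem ZE_prodE (f : MvPolynomial (Fin n) ℂ) (g : MvPolynomial (Fin m) ℂ) {ε : ℕ} (hε : ε ≤ 1) :
    ZE (prodE E f g) ε = ZE f ε * ZE g ε := by
  ext k
  unfold ZE
  rw [PowerSeries.coeff_mk, PowerSeries.coeff_mul, muE_prodE]
  refine Finset.sum_congr rfl fun p hp => ?_
  rw [Finset.HasAntidiagonal.mem_antidiagonal] at hp
  rw [PowerSeries.coeff_mk, PowerSeries.coeff_mk, muE_eq f (by omega : p.1 < k + 1) hε,
    muE_eq g (by omega : p.2 < k + 1) hε]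

theorem Zmot_prodE (f : MvPolynomial (Fin n) ℂ) (g : MvPolynomial (Fin m) ℂ) :
    Zmot (prodE E f g) = Zmot f * Zmot g := by
  rw [Zmot_eq, Zmot_eq, Zmot_eq, ZE_prodE E f g (by omega)]

theorem Zmot0_prodE (f : MvPolynomial (Fin n) ℂ) (g : MvPolynomial (Fin m) ℂ) :
    Zmot0 (prodE E f g) = Zmot0 f * Zmot0 g := by
  rw [Zmot0_eq, Zmot0_eq, Zmot0_eq, ZE_prodE E f g le_rfl]

theorem isPole_mul {Z Z' : PowerSeries Mot} {s₀ : ℚ} (h : IsPole (Z * Z') s₀) :
    IsPole Z s₀ ∨ IsPole Z' s₀ := by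
  by_contra hcon
  push Not at hcon
  unfold IsPole at hcon h
  rw [not_not, not_not] at hcon
  exact h (mul_mem hcon.1 hcon.2)

theorem prodE_swap (f : MvPolynomial (Fin n) ℂ) (g : MvPolynomial (Fin m) ℂ) :
    prodE E f g = prodE ((Equiv.sumComm (Fin m) (Fin n)).trans E) g f := by
  unfold prodE
  rw [mul_comm]
  rfl

end Sep

theorem prodSep_eq (f : MvPolynomial (Fin n) ℂ) (g : MvPolynomial (Fin m) ℂ) :
    prodSep f g = Sep.prodE finSumFinEquiv f g := rfl

/-- **Products in separate variables**, local version. -/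
theorem SmcLoc.prodSep {f : MvPolynomial (Fin n) ℂ} {g : MvPolynomial (Fin m) ℂ} (hf : f ≠ 0)
    (hg : g ≠ 0) (h1 : SmcLoc f) (h2 : SmcLoc g) : SmcLoc (prodSep f g) := by
  intro s₀ hs hp b hb
  rw [prodSep_eq] at hp hb
  rw [Sep.Zmot0_prodE] at hp
  rcases Sep.isPole_mul hp with hp | hp
  · exact h1 s₀ hs hp b (Sep.form_of_prodE _ hg hb)
  · rw [Sep.prodE_swap] at hb
    exact h2 s₀ hs hp b (Sep.form_of_prodE _ hf hb)

/-- **Products in separate variables**, global version. -/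
theorem SmcGlob.prodSep {f : MvPolynomial (Fin n) ℂ} {g : MvPolynomial (Fin m) ℂ} (hf : f ≠ 0)
    (hg : g ≠ 0) (h1 : SmcGlob f) (h2 : SmcGlob g) : SmcGlob (prodSep f g) := by
  intro s₀ hs hp b hb
  rw [prodSep_eq] at hp hb
  rw [Sep.Zmot_prodE] at hp
  rcases Sep.isPole_mul hp with hp | hp
  · exact h1 s₀ hs hp b (Sep.isBernsteinSato_of_prodE _ hg hb)
  · rw [Sep.prodE_swap] at hb
    exact h2 s₀ hs hp b (Sep.isBernsteinSato_of_prodE _ hf hb)

theorem prodSep_ne_zero {f : MvPolynomial (Fin n) ℂ} {g : MvPolynomial (Fin m) ℂ} (hf : f ≠ 0)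
    (hg : g ≠ 0) : prodSep f g ≠ 0 :=
  mul_ne_zero
    (fun h => hf (rename_injective _ (Fin.castAdd_injective n m) (by rw [h, map_zero])))
    (fun h => hg (rename_injective _ (Fin.natAdd_injective m n) (by rw [h, map_zero])))

theorem coeff_zero_prodSep {f : MvPolynomial (Fin n) ℂ} (g : MvPolynomial (Fin m) ℂ)
    (h0 : coeff 0 f = 0) : coeff 0 (prodSep f g) = 0 := by
  rw [← constantCoeff_eq] at h0 ⊢
  unfold prodSep
  rw [map_mul, constantCoeff_rename, h0, zero_mul]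

end MPb07157
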