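import Pool.Agent.Lib.MP_b07157_agM.WDefs

/-!
# The definitions used by the class of stably non-degenerate germs: weighted homogeneous polynomials
-/

noncomputable section

namespace MPb07157

open MvPolynomial MeasureTheory

variable {n : ℕ}

/-- `f` is weighted homogeneous of degree `D` for the weights `a_i < D`, and the isotropy groups of
its critical points `q ≠ 0` in `ℂ^*` are trivial. -/
structure WHom (f : MvPolynomial (Fin n) ℂ) (a : Fin n → ℕ) (D : ℕ) : Prop where
  ha : ∀ i, 0 < a i
  haD : ∀ i, a i < D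
  hD : 0 < D
  hom : f.IsWeightedHomogeneous a D
  free : ∀ q, SingPt f q → ∀ m : ℕ, (∀ i, q i ≠ 0 → m ∣ a i) → m = 1

/-- Each vector field of weight zero which kills `f` has divergence zero. -/
def NSW (f : MvPolynomial (Fin n) ℂ) (a : Fin n → ℕ) : Prop :=
  ∀ v : Fin n → MvPolynomial (Fin n) ℂ, (∀ i, (v i).IsWeightedHomogeneous a (a i)) →
    ∑ i, v i * pderiv i f = 0 → ∑ i, pderiv i (v i) = 0

/-- Conditions for a weighted homogeneous polynomial `f` of degree `D` at the candidate pole
`-∑ a_i/D`: `∑ a_i = D`; or the log canonical threshold at the origin is `∑ a_i/D`; or the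
polynomial relations between the partial derivatives of `f` are generated by the linear ones, and
each vector field of weight zero which kills `f` has divergence zero; or `f^(-∑ a_i/D)` is not a sum
of derivatives. -/
def WRoot (f : MvPolynomial (Fin n) ℂ) (a : Fin n → ℕ) (D : ℕ) : Prop :=
  ∑ i, a i = D ∨
  (∃ r : ℝ, 0 < r ∧ ∀ c : ℝ, 0 < c → c < ((∑ i, a i : ℕ) : ℝ) / D →
    IntegrableOn (fun x => ‖eval x f‖ ^ (-(2 * c))) (Metric.ball (0 : Fin n → ℂ) r)) ∨
  (LinType f ∧ NSW f a) ∨ NonEx f (((∑ i, a i : ℕ) : ℂ) / D)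

end MPb07157
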