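import Pool.Agent.Lib.MP_b07157_agM.MZ
import Pool.Agent.Lib.MP_b07157_agK.K1a

/-!
# Germs which do not vanish at the origin
-/

noncomputable section

namespace MPb07157

open MvPolynomial

variable {n : ℕ}

theorem smcLoc_of_coeff_ne {g : MvPolynomial (Fin n) ℂ} (h0 : coeff 0 g ≠ 0) : SmcLoc g := by
  intro s₀ _ hp
  exfalso
  apply hp
  have h1 : Zmot0 g = algebraMap Mot (PowerSeries Mot) (muE g 1 (0 + 1) 0) := by
    rw [Zmot0_eq]
    ext k
    unfold ZE
    rw [PowerSeries.coeff_mk, PowerSeries.algebraMap_apply, Algebra.algebraMap_self,
      RingHom.id_apply, PowerSeries.coeff_C]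
    by_cases hk : k = 0
    · subst hk
      rw [if_pos rfl]
    · rw [if_neg hk]
      unfold muE
      have h2 : arcs g (k + 1) k ∩ Start n 1 (k + 1) = ∅ := by
        ext γ
        simp only [Set.mem_inter_iff, Set.mem_empty_iff_false, iff_false, not_and]
        intro h3 h4
        have h5 : PowerSeries.constantCoeff (aeval (arc γ) g : PowerSeries ℂ) ≠ 0 := by
          rw [constantCoeff_aeval_eq]
          have h6 : (fun j => PowerSeries.constantCoeff (arc γ j)) = 0 := by
            funext j
            unfold arc
            rw [map_sum]
            refine Finset.sum_eq_zero fun i _ => ?_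
            rw [map_mul, map_pow, PowerSeries.constantCoeff_X, PowerSeries.constantCoeff_C]
            by_cases hi : (i : ℕ) = 0
            · rw [h4 j i (by omega), zero_mul]
            · rw [zero_pow hi, mul_zero]
          rw [h6]
          rw [← constantCoeff_eq] at h0
          have h7 : eval (0 : Fin n → ℂ) g = constantCoeff g := by
            rw [MvPolynomial.eval_zero]
          rwa [h7]
        have h8 : (aeval (arc γ) g : PowerSeries ℂ).order = k := h3
        apply h5
        rw [← PowerSeries.coeff_zero_eq_constantCoeff_apply]
        apply PowerSeries.coeff_of_lt_order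
        rw [h8]
        exact_mod_cast Nat.pos_of_ne_zero hk
      rw [h2, clsM, cls_empty, map_zero, mul_zero]
  rw [h1]
  exact Subalgebra.algebraMap_mem _ _

end MPb07157
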