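import Pool.Agent.Lib.MP_b07157_agM.StrQ
import Pool.Agent.Lib.MP_b07157_agM.CDefs

/-!
# The strong monodromy conjecture for polynomials which are trivial along strata
-/

noncomputable section

namespace MPb07157

open MvPolynomial

variable {n k : ℕ}

/-- Triviality in polynomial coordinates. -/
theorem TrivAlong.of_poly {f : MvPolynomial (Fin n) ℂ} {W : Set (Fin n → ℂ)}
    {g : MvPolynomial (Fin k) ℂ} {u : Fin k → MvPolynomial (Fin n) ℂ}
    {a b : MvPolynomial (Fin n) ℂ} (hab : a * f = b * aeval u g)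
    (hp : ∀ p ∈ W, eval p a ≠ 0 ∧ eval p b ≠ 0 ∧ (∀ j, eval p (u j) = 0) ∧
      LinearIndependent ℂ fun (j : Fin k) (l : Fin n) => eval p (pderiv l (u j))) :
    TrivAlong f W g := by
  refine ⟨u, a, b, 1, fun x _ => ?_, fun p hpW => ?_⟩
  · have h1 := congrArg (eval x) hab
    rw [map_mul, map_mul] at h1
    rw [h1]
    congr 1
    have h2 : eval x (aeval u g) = eval (fun j => eval x (u j)) g := by
      have h3 : ((aeval x : MvPolynomial (Fin n) ℂ →ₐ[ℂ] ℂ).comp (aeval u)) g =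
          aeval (fun j => aeval x (u j)) g := by
        rw [comp_aeval]
      exact h3
    rw [h2]
    congr 2
    funext j
    rw [map_one, div_one]
  · obtain ⟨h1, h2, h3, h4⟩ := hp p hpW
    exact ⟨h1, h2, by rw [map_one]; exact one_ne_zero, h3, h4⟩

/-! ### Zeta functions -/

theorem seriesAt_mem_of_trivAlong {f : MvPolynomial (Fin n) ℂ} {W : Set (Fin n → ℂ)}
    {g : MvPolynomial (Fin k) ℂ} (hW : IsConstr W) (h : TrivAlong f W g) {s₀ : ℚ}
    (hreg : W.Nonempty → Zmot0 g ∈ regularAt s₀) : seriesAt f W ∈ regularAt s₀ := by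
  obtain ⟨u, a, b, q, hab, hp⟩ := h
  exact Str.seriesAt_mem_of_relQ hW hab hp hreg

/-- The arcs at points which are not zeros. -/
theorem seriesAt_mem_of_ne {f : MvPolynomial (Fin n) ℂ} {W : Set (Fin n → ℂ)} (hW : IsConstr W)
    (hf : f ≠ 0) (h : ∀ p ∈ W, eval p f ≠ 0) (s₀ : ℚ) : seriesAt f W ∈ regularAt s₀ := by
  have h1 := seriesAt_mem_of_snc (ι := Unit) (g := fun _ => f) (m := fun _ => 1) (fun _ => hf)
    (fun _ => one_pos) hW (fun p hp => ?_) (s₀ := s₀) (fun i hi => ?_)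
  · simpa using h1
  · have : IsEmpty {i : Unit // eval p f = 0} := ⟨fun i => h p hp i.2⟩
    exact linearIndependent_empty_type
  · obtain ⟨p, hp, hp0⟩ := hi
    exact absurd hp0 (h p hp)

/-- Disjoint sets with the same union. -/
theorem exists_disjoint_cover {T : Set (Set (Fin n → ℂ))} (hT : T.Finite)
    (hc : ∀ W ∈ T, IsConstr W) : ∃ V : Set (Fin n → ℂ) → Set (Fin n → ℂ),
      (∀ W ∈ T, IsConstr (V W) ∧ V W ⊆ W) ∧ (∀ W ∈ T, ∀ W' ∈ T, W ≠ W' → Disjoint (V W) (V W')) ∧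
        ∀ p, (∃ W ∈ T, p ∈ W) → ∃ W ∈ T, p ∈ V W := by
  classical
  induction T, hT using Set.Finite.induction_on with
  | empty => exact ⟨id, by simp, by simp, by simp⟩
  | @insert W₀ T hW₀ hfin ih =>
    obtain ⟨V, h1, h2, h3⟩ := ih fun W hW => hc W (Set.mem_insert_of_mem _ hW)
    have hc₀ := hc W₀ (Set.mem_insert _ _)
    have hne : ∀ W ∈ T, W ≠ W₀ := fun W hW h => hW₀ (h ▸ hW)
    refine ⟨fun W => if W = W₀ then W₀ else V W \ W₀, ?_, ?_, ?_⟩
    · intro W hW
      rcases Set.mem_insert_iff.1 hW with hW1 | hW1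
      · simp only [if_pos hW1]
        exact ⟨hc₀, hW1.ge⟩
      · simp only [if_neg (hne W hW1)]
        exact ⟨(h1 W hW1).1.diff hc₀, Set.sdiff_subset.trans (h1 W hW1).2⟩
    · intro W hW W' hW' hWW'
      rcases Set.mem_insert_iff.1 hW with hW1 | hW1 <;>
        rcases Set.mem_insert_iff.1 hW' with hW2 | hW2
      · exact absurd (hW1.trans hW2.symm) hWW'
      · simp only [if_pos hW1, if_neg (hne W' hW2)]
        exact Set.disjoint_sdiff_right
      · simp only [if_pos hW2, if_neg (hne W hW1)]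
        exact Set.disjoint_sdiff_left
      · simp only [if_neg (hne W hW1), if_neg (hne W' hW2)]
        exact (h2 W hW1 W' hW2 hWW').mono Set.sdiff_subset Set.sdiff_subset
    · rintro p ⟨W, hW, hp⟩
      by_cases hp₀ : p ∈ W₀
      · exact ⟨W₀, Set.mem_insert _ _, by simp only [if_true]; exact hp₀⟩
      · rcases Set.mem_insert_iff.1 hW with rfl | hW
        · exact absurd hp hp₀
        obtain ⟨W', hW', hp'⟩ := h3 p ⟨W, hW, hp⟩
        refine ⟨W', Set.mem_insert_of_mem _ hW', ?_⟩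
        simp only [if_neg (hne W' hW')]
        exact ⟨hp', hp₀⟩

theorem TrivAlong.mono {f : MvPolynomial (Fin n) ℂ} {V W : Set (Fin n → ℂ)}
    {g : MvPolynomial (Fin k) ℂ} (h : TrivAlong f W g) (hVW : V ⊆ W) : TrivAlong f V g := by
  obtain ⟨u, a, b, q, hab, hp⟩ := h
  exact ⟨u, a, b, q, hab, fun p hpV => hp p (hVW hpV)⟩

/-- The poles of the zeta function of a polynomial which is trivial along strata. -/
theorem pole_of_strata {f : MvPolynomial (Fin n) ℂ} (hf : f ≠ 0) {T : Set (Set (Fin n → ℂ))}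
    (hT : T.Finite) (hcov : ∀ p, eval p f = 0 → ∃ W ∈ T, p ∈ W)
    {P : (k : ℕ) → MvPolynomial (Fin k) ℂ → Prop}
    (h : ∀ W ∈ T, IsConstr W ∧ ∃ (k : ℕ) (g : MvPolynomial (Fin k) ℂ), P k g ∧ TrivAlong f W g)
    {s₀ : ℚ} (hp : IsPole (Zmot f) s₀) :
    ∃ (k : ℕ) (g : MvPolynomial (Fin k) ℂ) (p : Fin n → ℂ), P k g ∧ TrivAlong f {p} g ∧
      eval p f = 0 ∧ IsPole (Zmot0 g) s₀ := by
  classical
  by_contra hcon
  push Not at hcon
  apply hp
  obtain ⟨V, h1, h2, h3⟩ := exists_disjoint_cover hT fun W hW => (h W hW).1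
  have hZ : IsConstr {p : Fin n → ℂ | eval p f = 0} := isConstr_eq_zero f
  have e1 : Zmot f = seriesAt f {p | eval p f = 0}ᶜ + seriesAt f {p | eval p f = 0} := by
    rw [← seriesAt_univ, ← Set.compl_union_self {p : Fin n → ℂ | eval p f = 0},
      seriesAt_union _ hZ.compl hZ disjoint_compl_left]
  have e2 : seriesAt f {p | eval p f = 0} =
      ∑ W ∈ hT.toFinset, seriesAt f (V W ∩ {p | eval p f = 0}) := by
    rw [← seriesAt_biUnion]
    · congr 1
      ext p
      simp only [Set.mem_ofPred_eq, Set.mem_iUnion, Set.Finite.mem_toFinset, Set.mem_inter_iff,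
        exists_prop]
      constructor
      · intro hp0
        obtain ⟨W, hW, hpW⟩ := h3 p (hcov p hp0)
        exact ⟨W, hW, hpW, hp0⟩
      · rintro ⟨_, _, _, hp0⟩
        exact hp0
    · intro W hW
      rw [Set.Finite.mem_toFinset] at hW
      exact (h1 W hW).1.inter hZ
    · intro W hW W' hW' hWW'
      rw [Set.Finite.mem_toFinset] at hW hW'
      exact (h2 W hW W' hW' hWW').mono Set.inter_subset_left Set.inter_subset_left
  rw [e1, e2]
  refine add_mem (seriesAt_mem_of_ne hZ.compl hf (fun p hp => hp) s₀) (sum_mem fun W hW => ?_)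
  rw [Set.Finite.mem_toFinset] at hW
  obtain ⟨k, g, hg, ht⟩ := (h W hW).2
  refine seriesAt_mem_of_trivAlong ((h1 W hW).1.inter hZ)
    (ht.mono (Set.inter_subset_left.trans (h1 W hW).2)) ?_
  rintro ⟨p, hpV, hp0⟩
  have h4 := hcon k g p hg (ht.mono (Set.singleton_subset_iff.2 ((h1 W hW).2 hpV))) hp0
  unfold IsPole at h4
  exact not_not.1 h4

theorem ne_zero_of_trivAlong {f : MvPolynomial (Fin n) ℂ} {p : Fin n → ℂ}
    {g : MvPolynomial (Fin k) ℂ} (h : TrivAlong f {p} g) (hf : f ≠ 0) : g ≠ 0 := by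
  rintro rfl
  obtain ⟨u, a, b, q, hab, hp⟩ := h
  obtain ⟨ha, -, hq, -⟩ := hp p rfl
  have ha0 : a ≠ 0 := fun h => ha (by rw [h, map_zero])
  have hq0 : q ≠ 0 := fun h => hq (by rw [h, map_zero])
  apply mul_ne_zero (mul_ne_zero hq0 ha0) hf
  apply MvPolynomial.funext
  intro x
  rw [map_mul, map_mul, map_zero]
  by_cases hx : eval x q = 0
  · rw [hx, zero_mul, zero_mul]
  · have h1 := hab x hx
    rw [map_zero, mul_zero] at h1
    rw [mul_assoc, h1, mul_zero]

theorem coeff_zero_of_trivAlong {f : MvPolynomial (Fin n) ℂ} {p : Fin n → ℂ}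
    {g : MvPolynomial (Fin k) ℂ} (h : TrivAlong f {p} g) (h0 : eval p f = 0) : coeff 0 g = 0 := by
  obtain ⟨u, a, b, q, hab, hp⟩ := h
  obtain ⟨-, hb, hq, hu, -⟩ := hp p rfl
  have h1 := hab p hq
  rw [h0, mul_zero] at h1
  have h2 := (mul_eq_zero.1 h1.symm).resolve_left hb
  have h3 : (fun j => eval p (u j) / eval p q) = 0 := by
    funext j
    rw [hu j, zero_div]
    rfl
  rw [h3] at h2
  rw [← constantCoeff_eq, ← h2]
  rw [MvPolynomial.eval_zero]

/-- The Bernstein–Sato polynomials of `f` are Bernstein–Sato polynomials of the germs along the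
strata. -/
theorem form_of_trivAlong {f : MvPolynomial (Fin n) ℂ} {p : Fin n → ℂ}
    {g : MvPolynomial (Fin k) ℂ} (h : TrivAlong f {p} g) {B : Polynomial ℂ}
    (hB : IsBernsteinSato f B) :
    InDnForm g 1 (B.map (MvPowerSeries.C (σ := Fin k) (R := ℂ))) := by
  obtain ⟨u, a, b, q, hab, hp⟩ := h
  obtain ⟨ha, hb, hq, hu, hli⟩ := hp p rfl
  obtain ⟨c, hc⟩ := exists_minor _ hli
  have hc' : eval p (Str.minorU u c) ≠ 0 := by
    rw [Str.eval_minorU]
    exact hc
  exact Str.form_of_relQ hab (Str.injective_of_minorU hc') ha hb hq hu hc hB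

/-- **The strong monodromy conjecture** for polynomials which are trivial along strata with germs
that satisfy the local version. -/
theorem smc_strata {f : MvPolynomial (Fin n) ℂ} (hf : f ≠ 0) {T : Set (Set (Fin n → ℂ))}
    (hT : T.Finite) (hcov : ∀ p, eval p f = 0 → ∃ W ∈ T, p ∈ W)
    {P : (k : ℕ) → MvPolynomial (Fin k) ℂ → Prop}
    (hP : ∀ (k : ℕ) (g : MvPolynomial (Fin k) ℂ), P k g → g ≠ 0 → coeff 0 g = 0 → SmcLoc g)
    (h : ∀ W ∈ T, IsConstr W ∧ ∃ (k : ℕ) (g : MvPolynomial (Fin k) ℂ), P k g ∧ TrivAlong f W g) :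
    SmcGlob f := by
  intro s₀ hs hpole b hb
  obtain ⟨k, g, p, hg, ht, h0, hpole'⟩ := pole_of_strata hf hT hcov h hpole
  exact hP k g hg (ne_zero_of_trivAlong ht hf) (coeff_zero_of_trivAlong ht h0) s₀ hs hpole' b
    (form_of_trivAlong ht hb)

end MPb07157
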