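import Pool.Agent.Lib.MP_b07157_agS.SClass
import Pool.Agent.Lib.MP_b07157_agS.CubA

/-!
# Normal crossings outside a finite set
-/

noncomputable section

namespace MPb07157

open MvPolynomial

variable {n k : ℕ}

/-- Monomials are non-degenerate. -/
theorem stableLoc_monomial (v : Fin k →₀ ℕ) : StableLoc k (monomial v (1 : ℂ)) := by
  classical
  refine StableLoc.nondeg _ fun w _ => ?_
  have h1 : initialPart (monomial v (1 : ℂ)) w = monomial v 1 := by
    unfold initialPart
    rw [support_monomial, if_neg one_ne_zero, Finset.filter_true_of_mem, Finset.sum_singleton,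
      coeff_monomial, if_pos rfl]
    intro x hx y hy
    rw [Finset.mem_singleton] at hx hy
    rw [hx, hy]
  rw [h1]
  intro u hu h0
  exfalso
  rw [eval_monomial, one_mul] at h0
  exact (Finset.prod_ne_zero_iff.2 fun j _ => pow_ne_zero _ (hu j)) h0

theorem prod_X_pow_eq (m : Fin k → ℕ) :
    (∏ j, X j ^ m j : MvPolynomial (Fin k) ℂ) =
      monomial (Finsupp.equivFunOnFinite.symm m) 1 := by
  rw [monomial_eq, C_1, one_mul, Finsupp.prod_fintype _ _ (fun i => pow_zero _)]
  rfl

/-- The class `StableLoc` is closed under the addition of variables. -/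
theorem StableLoc.rename {g : MvPolynomial (Fin k) ℂ} (h : StableLoc k g) {c : Fin k → Fin n}
    (hc : Function.Injective c) : StableLoc n (MvPolynomial.rename c g) := by
  obtain ⟨m, E, hE⟩ := Str.exists_numbering hc
  obtain rfl : n = k + m := Sep.card_eq E
  let σ : Fin (k + m) ≃ Fin (k + m) := finSumFinEquiv.symm.trans E
  have h1 : prodSep g (1 : MvPolynomial (Fin m) ℂ) = MvPolynomial.rename (Fin.castAdd m) g := by
    unfold prodSep
    rw [map_one, mul_one]
  have h2 : MvPolynomial.rename c g =
      (renameEquiv ℂ σ) (prodSep g (1 : MvPolynomial (Fin m) ℂ)) := by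
    rw [h1, renameEquiv_apply, rename_rename]
    congr 2
    funext j
    show c j = E (finSumFinEquiv.symm (Fin.castAdd m j))
    rw [finSumFinEquiv_symm_apply_castAdd, hE]
  rw [h2]
  refine StableLoc.equiv _ _ 1 one_pos (Cub.formEquivPow_of_polyEquiv (renameEquiv ℂ σ)
    (fun i => ?_) (fun i => ?_) _) (StableLoc.prod _ _ h (stableLoc_monomial 0))
  · rw [renameEquiv_apply, rename_X, constantCoeff_X]
  · rw [renameEquiv_symm, renameEquiv_apply, rename_X, constantCoeff_X]

/-- The germ at the origin of a polynomial which is trivial with a germ in the class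
`StableLoc` is in this class. -/
theorem StableLoc.of_trivAlong {f : MvPolynomial (Fin n) ℂ} {g : MvPolynomial (Fin k) ℂ}
    {p : Fin n → ℂ} (h : TrivAlong f {p} g) (hg : StableLoc k g) :
    StableLoc n (translate p f) := by
  obtain ⟨u, a, b, q, hab, hp⟩ := h
  obtain ⟨ha, hb, hq, hu, hli⟩ := hp p rfl
  obtain ⟨c, hc⟩ := exists_minor _ hli
  have hc' : eval p (Str.minorU u c) ≠ 0 := by
    rw [Str.eval_minorU]
    exact hc
  have hinj := Str.injective_of_minorU hc'
  exact StableLoc.equiv _ _ 1 one_pos (Str.formEquiv_of_relQ hab hinj ha hb hq hu hc)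
    (hg.rename hinj)

/-- At a point, each polynomial is trivial. -/
theorem trivAlong_point (f : MvPolynomial (Fin n) ℂ) (p : Fin n → ℂ) :
    TrivAlong f {p} (translate p f) := by
  refine TrivAlong.of_poly (u := fun j => X j - C (p j)) (a := 1) (b := 1) ?_ ?_
  · rw [one_mul, one_mul]
    unfold translate
    rw [← AlgHom.comp_apply, comp_aeval]
    have : (fun i => (aeval fun j => X j - C (p j) : MvPolynomial (Fin n) ℂ →ₐ[ℂ]
        MvPolynomial (Fin n) ℂ) (X i + C (p i))) = X := by
      funext i
      rw [map_add, aeval_X, ← MvPolynomial.algebraMap_eq, AlgHom.commutes]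
      ring
    rw [this]
    exact (aeval_X_left_apply f).symm
  · rintro q rfl
    refine ⟨by rw [map_one]; exact one_ne_zero, by rw [map_one]; exact one_ne_zero,
      fun j => by rw [map_sub, eval_X, eval_C, sub_self], ?_⟩
    have : (fun (j l : Fin n) => eval q (pderiv l (X j - C (q j)))) =
        fun j l => (Pi.basisFun ℂ (Fin n)) j l := by
      funext j l
      rw [map_sub, pderiv_C, sub_zero, Pi.basisFun_apply]
      by_cases h : l = j
      · subst h
        simp
      · rw [pderiv_X_of_ne (Ne.symm h), map_zero, Pi.single_eq_of_ne h]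
    rw [this]
    exact (Pi.basisFun ℂ (Fin n)).linearIndependent

/-- The class `StableGlob` contains the products `f = ∏ g_i ^ m_i` such that the hypersurfaces
`g_i = 0` are smooth and cross normally outside a finite set and the germs of `f` at its zeros in
this set are in the class `StableLoc`. -/
theorem StableGlob.snc {r : ℕ} (g : Fin r → MvPolynomial (Fin n) ℂ) (m : Fin r → ℕ)
    (h0 : coeff 0 (prodPow g m) = 0) (S : Set (Fin n → ℂ)) (hS : S.Finite) (h : SncOutside g S)
    (h' : ∀ p ∈ S, eval p (prodPow g m) = 0 → StableLoc n (translate p (prodPow g m))) :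
    StableGlob n (prodPow g m) := by
  classical
  let W : Finset (Fin r) → Set (Fin n → ℂ) := fun J =>
    {p | p ∈ Sᶜ ∧ ((∀ i ∈ J, eval p (g i) = 0) ∧ ∀ i ∈ Jᶜ, eval p (g i) ≠ 0)}
  have hWc : ∀ J, IsConstr (W J) := fun J =>
    isConstr_setOf_and (isConstr_of_finite hS).compl (isConstr_setOf_and
      (isConstr_forall_mem _ _ fun _ _ => isConstr_eq_zero _)
      (isConstr_forall_mem _ _ fun _ _ => isConstr_ne_zero _))
  refine StableGlob.strata _ h0
    (Set.range W ∪ (fun p => ({p} : Set (Fin n → ℂ))) '' {p ∈ S | eval p (prodPow g m) = 0})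
    ((Set.finite_range W).union ((hS.subset fun p hp => hp.1).image _)) ?_ ?_
  · intro p hp
    by_cases hpS : p ∈ S
    · exact ⟨{p}, Or.inr ⟨p, ⟨hpS, hp⟩, rfl⟩, rfl⟩
    · refine ⟨W (Finset.univ.filter fun i => eval p (g i) = 0), Or.inl ⟨_, rfl⟩, hpS, ?_, ?_⟩
      · intro i hi
        exact (Finset.mem_filter.1 hi).2
      · intro i hi hi0
        exact (Finset.mem_compl.1 hi) (Finset.mem_filter.2 ⟨Finset.mem_univ _, hi0⟩)
  · rintro _ (⟨J, rfl⟩ | ⟨p, ⟨hpS, hp0⟩, rfl⟩)
    · refine ⟨hWc J, J.card, ∏ j, X j ^ m (J.equivFin.symm j), ?_, ?_⟩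
      · rw [prod_X_pow_eq]
        exact stableLoc_monomial _
      · refine TrivAlong.of_poly (u := fun j => g (J.equivFin.symm j)) (a := 1)
          (b := ∏ i ∈ Jᶜ, g i ^ m i) ?_ ?_
        · rw [map_prod, one_mul]
          have h1 : ∏ j : Fin J.card, (aeval fun j => g (J.equivFin.symm j) :
              MvPolynomial (Fin J.card) ℂ →ₐ[ℂ] MvPolynomial (Fin n) ℂ)
                (X j ^ m (J.equivFin.symm j)) = ∏ i ∈ J, g i ^ m i := by
            rw [← Finset.prod_coe_sort J (fun i => g i ^ m i),
              ← Equiv.prod_comp J.equivFin.symm]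
            refine Finset.prod_congr rfl fun j _ => ?_
            rw [map_pow, aeval_X]
          rw [h1]
          unfold prodPow
          rw [mul_comm, Finset.prod_mul_prod_compl]
        · rintro p ⟨hpS, hJ, hJc⟩
          refine ⟨by rw [map_one]; exact one_ne_zero, ?_, fun j => hJ _ (J.equivFin.symm j).2, ?_⟩
          · rw [map_prod]
            exact Finset.prod_ne_zero_iff.2 fun i hi => by
              rw [map_pow]
              exact pow_ne_zero _ (hJc i hi)
          · exact (h p hpS).comp
              (fun j : Fin J.card => (⟨(J.equivFin.symm j : Fin r), hJ _ (J.equivFin.symm j).2⟩ :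
                {i : Fin r // eval p (g i) = 0}))
              (fun j j' hjj => J.equivFin.symm.injective
                (Subtype.ext (congrArg (fun x : {i : Fin r // eval p (g i) = 0} => (x : Fin r)) hjj)))
    · exact ⟨isConstr_point p, n, translate p (prodPow g m), h' p hpS hp0, trivAlong_point _ p⟩

end MPb07157
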