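import Pool.Agent.Lib.MP_b07157_agS.SA
import Mathlib.Data.Finsupp.Lex

/-!
# Products in separate variables: the Bernstein–Sato side, abstractly

`B` is a ring of functions of `x` and `y`, `A` the ring of functions of `x`, `c γ : B → A` the
coefficient of `y ^ γ`. If `b(s) (F(x) G(y))^s ∈ D[s] (F G)^{s+1}`, then `b(s) F^s ∈ D[s] F^{s+1}`.
-/

noncomputable section

namespace MPb07157M

open Polynomial MPb07157S

variable {A B : Type*} [CommRing A] [Algebra ℂ A] [CommRing B] [Algebra ℂ B]

/-- The coefficientwise application of an additive map. -/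
def cP (c : B →+ A) (h : Polynomial B) : Polynomial A := h.sum fun j a => Polynomial.monomial j (c a)

omit [Algebra ℂ A] [Algebra ℂ B] in
theorem coeff_cP (c : B →+ A) (h : Polynomial B) (j : ℕ) : (cP c h).coeff j = c (h.coeff j) := by
  classical
  unfold cP
  rw [Polynomial.sum_def, Polynomial.finsetSum_coeff]
  simp only [Polynomial.coeff_monomial]
  rw [Finset.sum_ite_eq']
  split_ifs with h1
  · rfl
  · rw [Polynomial.notMem_support_iff.1 h1, map_zero]

omit [Algebra ℂ A] [Algebra ℂ B] in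
theorem cP_add (c : B →+ A) (h h' : Polynomial B) : cP c (h + h') = cP c h + cP c h' := by
  ext j
  rw [coeff_cP, coeff_add, coeff_add, map_add, coeff_cP, coeff_cP]

section
variable {m : ℕ} (c : (Fin m →₀ ℕ) → B →+ A)

omit [Algebra ℂ A] [Algebra ℂ B] in
theorem cP_mul (hmul : ∀ γ b b', c γ (b * b') =
      ∑ p ∈ Finset.HasAntidiagonal.antidiagonal γ, c p.1 b * c p.2 b') (γ : Fin m →₀ ℕ) (h h' : Polynomial B) :
    cP (c γ) (h * h') = ∑ p ∈ Finset.HasAntidiagonal.antidiagonal γ, cP (c p.1) h * cP (c p.2) h' := by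
  ext j
  rw [coeff_cP, Polynomial.coeff_mul, map_sum, Polynomial.finsetSum_coeff]
  simp only [Polynomial.coeff_mul, coeff_cP, hmul]
  rw [Finset.sum_comm]

end

/-- The data of a ring of functions of two groups of variables. -/
structure Split {ι ν : Type*} {m : ℕ} (DA : ι → Derivation ℂ A A) (DB : ν → Derivation ℂ B B)
    (φ : A →+* B) (c : (Fin m →₀ ℕ) → B →+ A) (G : B) : Prop where
  mul : ∀ γ b b', c γ (b * b') = ∑ p ∈ Finset.HasAntidiagonal.antidiagonal γ, c p.1 b * c p.2 b'
  base : ∀ γ a, c γ (φ a) = if γ = 0 then a else 0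
  der : ∀ k, (∃ i, (∀ γ b, c γ (DB k b) = DA i (c γ b)) ∧ (∀ a, DB k (φ a) = φ (DA i a)) ∧
      DB k G = 0) ∨
    ((∀ γ, ∃ (n : ℕ) (γ' : Fin m →₀ ℕ), ∀ b, c γ (DB k b) = n • c γ' b) ∧ ∀ a, DB k (φ a) = 0)

namespace Split

variable {ι ν : Type*} {m : ℕ} {DA : ι → Derivation ℂ A A} {DB : ν → Derivation ℂ B B}
  {φ : A →+* B} {c : (Fin m →₀ ℕ) → B →+ A} {G : B} (S : Split DA DB φ c G)
include S

theorem c_φ_mul (γ : Fin m →₀ ℕ) (a : A) (b : B) : c γ (φ a * b) = a * c γ b := by
  classical
  rw [S.mul, Finset.sum_eq_single (0, γ)]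
  · rw [S.base, if_pos rfl]
  · rintro ⟨p, q⟩ hp hne
    rw [Finset.HasAntidiagonal.mem_antidiagonal] at hp
    rw [S.base, if_neg, zero_mul]
    rintro h0
    dsimp only at h0 hp
    subst h0
    rw [zero_add] at hp
    exact hne (by rw [hp])
  · intro h
    exact absurd (Finset.HasAntidiagonal.mem_antidiagonal.2 (zero_add γ)) h

theorem cP_φ_mul (γ : Fin m →₀ ℕ) (a : A) (h : Polynomial B) :
    cP (c γ) (C (φ a) * h) = C a * cP (c γ) h := by
  ext j
  rw [coeff_cP, Polynomial.coeff_C_mul, Polynomial.coeff_C_mul, S.c_φ_mul, coeff_cP]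

theorem cP_X_mul (γ : Fin m →₀ ℕ) (h : Polynomial B) :
    cP (c γ) (X * h) = X * cP (c γ) h := by
  ext j
  cases j with
  | zero => rw [coeff_cP, Polynomial.coeff_X_mul_zero, Polynomial.coeff_X_mul_zero, map_zero]
  | succ j => rw [coeff_cP, Polynomial.coeff_X_mul, Polynomial.coeff_X_mul, coeff_cP]

theorem cP_nat_mul (γ : Fin m →₀ ℕ) (k : ℕ) (h : Polynomial B) :
    cP (c γ) ((k : Polynomial B) * h) = (k : Polynomial A) * cP (c γ) h := by
  have h1 : (k : Polynomial B) = C (φ (k : A)) := by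
    rw [map_natCast, map_natCast]
  have h2 : (k : Polynomial A) = C (k : A) := (map_natCast _ _).symm
  rw [h1, S.cP_φ_mul, h2]

theorem cP_lin_mul (γ : Fin m →₀ ℕ) (k : ℕ) (h : Polynomial B) :
    cP (c γ) ((X + 1 - (k : Polynomial B)) * h) = (X + 1 - (k : Polynomial A)) * cP (c γ) h := by
  have h1 : (X + 1 - (k : Polynomial B)) * h + (k : Polynomial B) * h = X * h + h := by ring
  have h2 := congrArg (cP (c γ)) h1
  rw [cP_add, cP_add, S.cP_X_mul, S.cP_nat_mul] at h2
  linear_combination h2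

theorem cP_one (γ : Fin m →₀ ℕ) : cP (c γ) (1 : Polynomial B) = if γ = 0 then 1 else 0 := by
  have h1 : (1 : Polynomial B) = C (φ 1) := by rw [map_one, map_one]
  ext j
  rw [coeff_cP, h1, Polynomial.coeff_C]
  split_ifs with h2 h3 h3
  · rw [S.base, if_pos h3, h2, Polynomial.coeff_one_zero]
  · rw [S.base, if_neg h3, Polynomial.coeff_zero]
  · rw [map_zero, Polynomial.coeff_one, if_neg (Ne.symm (by rintro rfl; exact h2 rfl))]
  · rw [map_zero, Polynomial.coeff_zero]

end Split

theorem inA_zero {ι : Type*} {D : ι → Derivation ℂ A A} {F : A} (k : ℕ) : InA D F k 0 := by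
  have h := (InA.base (D := D) (F := F)).raise_pow k
  rw [zero_add] at h
  have := h.mul 0
  rwa [zero_mul] at this

theorem inA_sum {ι : Type*} {D : ι → Derivation ℂ A A} {F : A} {k : ℕ} {α : Type*} (s : Finset α)
    (g : α → Polynomial A) (h : ∀ a ∈ s, InA D F k (g a)) : InA D F k (∑ a ∈ s, g a) := by
  classical
  induction s using Finset.induction_on with
  | empty => rw [Finset.sum_empty]; exact inA_zero k
  | insert a s ha ih =>
    rw [Finset.sum_insert ha]
    exact (h a (Finset.mem_insert_self a s)).add (ih fun b hb => h b (Finset.mem_insert_of_mem hb))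

/-- If `G · h` has all its coefficients in a submodule, so does `h`. -/
theorem cancel_aux {m : ℕ} {c : (Fin m →₀ ℕ) → B →+ A}
    (hmul : ∀ γ b b', c γ (b * b') = ∑ p ∈ Finset.HasAntidiagonal.antidiagonal γ, c p.1 b * c p.2 b')
    {G : B} {z : (Fin m →₀ ℕ) → ℂ} (hG : ∀ γ, c γ G = algebraMap ℂ A (z γ)) (hz : ∃ γ, z γ ≠ 0)
    (P : Polynomial A → Prop) (Padd : ∀ {g h}, P g → P h → P (g + h))
    (Pmul : ∀ {g} (a : Polynomial A), P g → P (a * g)) (h : Polynomial B)
    (hP : ∀ γ, P (cP (c γ) (C G * h))) (γ : Fin m →₀ ℕ) : P (cP (c γ) h) := by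
  classical
  have P0 : P 0 := by
    have := Pmul 0 (hP 0)
    rwa [zero_mul] at this
  have Psum : ∀ (s : Finset ((Fin m →₀ ℕ) × (Fin m →₀ ℕ))) (g : (Fin m →₀ ℕ) × (Fin m →₀ ℕ) →
      Polynomial A), (∀ a ∈ s, P (g a)) → P (∑ a ∈ s, g a) := by
    intro s g hg
    induction s using Finset.induction_on with
    | empty => rw [Finset.sum_empty]; exact P0
    | insert a s ha ih =>
      rw [Finset.sum_insert ha]
      exact Padd (hg a (Finset.mem_insert_self a s))
        (ih fun b hb => hg b (Finset.mem_insert_of_mem hb))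
  -- the smallest exponent of `G`
  obtain ⟨α, hα, hmin⟩ : ∃ α : Fin m →₀ ℕ, z α ≠ 0 ∧ ∀ β, z β ≠ 0 → toLex α ≤ toLex β := by
    obtain ⟨α, hα⟩ := hz
    obtain ⟨a, ha, h1⟩ := WellFounded.has_min (wellFounded_lt (α := Lex (Fin m →₀ ℕ)))
      {a | z (ofLex a) ≠ 0} ⟨toLex α, hα⟩
    exact ⟨ofLex a, ha, fun β hβ => not_lt.1 (h1 (toLex β) hβ)⟩
  have hmain : ∀ a : Lex (Fin m →₀ ℕ), P (cP (c (ofLex a)) h) := by
    intro a
    induction a using WellFoundedLT.induction with
    | ind a ih =>
    have h1 := hP (α + ofLex a)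
    rw [cP_mul c hmul] at h1
    have hcG : ∀ β, cP (c β) (C G) = C (algebraMap ℂ A (z β)) := by
      intro β
      ext j
      rw [coeff_cP, Polynomial.coeff_C, Polynomial.coeff_C]
      split_ifs
      · exact hG β
      · exact map_zero _
    have hmem : (α, ofLex a) ∈ Finset.HasAntidiagonal.antidiagonal (α + ofLex a) :=
      Finset.HasAntidiagonal.mem_antidiagonal.2 rfl
    rw [← Finset.add_sum_erase _ _ hmem] at h1
    have h2 : P (∑ p ∈ (Finset.HasAntidiagonal.antidiagonal (α + ofLex a)).erase (α, ofLex a),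
        cP (c p.1) (C G) * cP (c p.2) h) := by
      refine Psum _ _ fun p hp => ?_
      rw [Finset.mem_erase, Finset.HasAntidiagonal.mem_antidiagonal] at hp
      obtain ⟨hne, hp⟩ := hp
      by_cases hz0 : z p.1 = 0
      · rw [hcG, hz0, map_zero, map_zero, zero_mul]
        exact P0
      · refine Pmul _ (ih (toLex p.2) ?_)
        have h3 := hmin _ hz0
        have h4 : toLex p.1 + toLex p.2 = toLex α + a := hp
        rcases lt_or_eq_of_le h3 with h5 | h5
        · by_contra h6
          have h7 : toLex α + a < toLex p.1 + toLex p.2 :=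
            add_lt_add_of_lt_of_le h5 (not_lt.1 h6)
          exact absurd h4 (ne_of_gt h7)
        · exfalso
          rw [← h5] at h4
          have h6 : toLex p.2 = a := add_left_cancel h4
          apply hne
          have h7 : p.1 = α := (toLex.injective h5).symm
          have h8 : p.2 = ofLex a := by
            rw [← h6]
            rfl
          exact Prod.ext h7 h8
    have h3 : P (cP (c α) (C G) * cP (c (ofLex a)) h) := by
      have h4 := Padd h1 (Pmul (-1) h2)
      have e : ∀ u v : Polynomial A, u + v + -1 * v = u := fun u v => by ring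
      rwa [e] at h4
    rw [hcG] at h3
    have h4 := Pmul (C (algebraMap ℂ A (z α)⁻¹)) h3
    rwa [← mul_assoc, ← C_mul, ← map_mul, inv_mul_cancel₀ hα, map_one, C_1, one_mul] at h4
  exact hmain (toLex γ)

theorem inA_split {ι ν : Type*} {m : ℕ} {DA : ι → Derivation ℂ A A} {DB : ν → Derivation ℂ B B}
    {φ : A →+* B} {c : (Fin m →₀ ℕ) → B →+ A} {G : B} (S : Split DA DB φ c G) {F : A}
    {z : (Fin m →₀ ℕ) → ℂ} (hG : ∀ γ, c γ G = algebraMap ℂ A (z γ)) (hz : ∃ γ, z γ ≠ 0)
    {k : ℕ} {h : Polynomial B} (hh : InA DB (φ F * G) k h) (γ : Fin m →₀ ℕ) :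
    InA DA F k (cP (c γ) h) := by
  classical
  have key : ∀ {k : ℕ} {h : Polynomial B} (G' : Polynomial B),
      (∀ γ, InA DA F k (cP (c γ) h)) → ∀ γ, InA DA F k (cP (c γ) (G' * h)) := by
    intro k h G' ih γ
    rw [cP_mul c S.mul]
    exact inA_sum _ _ fun p _ => (ih p.2).mul _
  induction hh generalizing γ with
  | base =>
    rw [S.cP_one]
    split_ifs
    · exact InA.base
    · exact inA_zero 0
  | add _ _ ih1 ih2 => rw [cP_add]; exact (ih1 γ).add (ih2 γ)
  | mul a _ ih => exact key a ih γ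
  | @deriv k h l _ ih =>
    rcases S.der l with ⟨i, h1, h2, hG0⟩ | ⟨h1, h2⟩
    · -- a derivative in `x`
      have e1 : DB l (φ F * G) = φ (DA i F) * G := by
        rw [Derivation.leibniz, hG0, h2, smul_zero, zero_add, smul_eq_mul, mul_comm]
      have e2 : C (φ F * G) * dC (DB l) h + (X + 1 - (k : Polynomial B)) * C (DB l (φ F * G)) * h =
          C G * (C (φ F) * dC (DB l) h + (X + 1 - (k : Polynomial B)) * (C (φ (DA i F)) * h)) := by
        rw [e1, C_mul, C_mul]
        ring
      rw [e2]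
      refine key _ (fun γ => ?_) γ
      have e3 : cP (c γ) (dC (DB l) h) = dC (DA i) (cP (c γ) h) := by
        ext j
        rw [coeff_cP, coeff_dC, coeff_dC, coeff_cP, h1]
      rw [cP_add, S.cP_φ_mul, S.cP_lin_mul, S.cP_φ_mul, e3, ← mul_assoc]
      exact (ih γ).deriv i
    · -- a derivative in `y`
      have e1 : DB l (φ F * G) = φ F * DB l G := by
        rw [Derivation.leibniz, h2, smul_zero, add_zero, smul_eq_mul]
      have e2 : C (φ F * G) * dC (DB l) h + (X + 1 - (k : Polynomial B)) * C (DB l (φ F * G)) * h =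
          C (φ F) * (C G * dC (DB l) h + ((X + 1 - (k : Polynomial B)) * C (DB l G)) * h) := by
        rw [e1, C_mul, C_mul]
        ring
      rw [e2, S.cP_φ_mul]
      refine InA.raise ?_
      rw [cP_add]
      refine InA.add (key _ (fun γ => ?_) γ) (key _ ih γ)
      obtain ⟨N, γ', h3⟩ := h1 γ
      have e3 : cP (c γ) (dC (DB l) h) = (N : Polynomial A) * cP (c γ') h := by
        ext j
        have e4 : (N : Polynomial A) = C (N : A) := (map_natCast _ _).symm
        rw [coeff_cP, coeff_dC, e4, Polynomial.coeff_C_mul, coeff_cP, h3, nsmul_eq_mul]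
      rw [e3]
      exact (ih γ').mul _
  | raise _ ih =>
    rename_i k h _
    have e : C (φ F * G) * h = C (φ F) * (C G * h) := by rw [C_mul, mul_assoc]
    rw [e, S.cP_φ_mul]
    exact InA.raise (key _ ih γ)
  | lower _ ih =>
    rename_i k h _
    refine cancel_aux S.mul hG hz (fun g => InA DA F k g) (fun h1 h2 => h1.add h2)
      (fun a h1 => h1.mul a) h (fun γ => ?_) γ
    have e : C (φ F * G) * h = C (φ F) * (C G * h) := by rw [C_mul, mul_assoc]
    have h1 := ih γ
    rw [e, S.cP_φ_mul] at h1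
    exact InA.lower h1

end MPb07157M
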