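import Pool.Agent.Lib.MP_b07157_agM.MA
import Pool.Agent.Lib.MP_b07157_agS.CubD

/-!
# Products in separate variables: Bernstein–Sato polynomials
-/

noncomputable section

namespace MPb07157

open MvPolynomial MPb07157S MPb07157M

variable {n m N : ℕ}

namespace Sep

variable (E : Fin n ⊕ Fin m ≃ Fin N)

/-- The exponent with the two given parts. -/
def kk (a : Fin n →₀ ℕ) (γ : Fin m →₀ ℕ) : Fin N →₀ ℕ :=
  Finsupp.equivFunOnFinite.symm fun k => Sum.elim a γ (E.symm k)

theorem kk_apply (a : Fin n →₀ ℕ) (γ : Fin m →₀ ℕ) (k : Fin N) :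
    kk E a γ k = Sum.elim a γ (E.symm k) := rfl

theorem kk_inl (a : Fin n →₀ ℕ) (γ : Fin m →₀ ℕ) (i : Fin n) : kk E a γ (E (Sum.inl i)) = a i := by
  rw [kk_apply, Equiv.symm_apply_apply]
  rfl

theorem kk_inr (a : Fin n →₀ ℕ) (γ : Fin m →₀ ℕ) (j : Fin m) : kk E a γ (E (Sum.inr j)) = γ j := by
  rw [kk_apply, Equiv.symm_apply_apply]
  rfl

theorem ext_kk {p q : Fin N →₀ ℕ} (h1 : ∀ i, p (E (Sum.inl i)) = q (E (Sum.inl i)))
    (h2 : ∀ j, p (E (Sum.inr j)) = q (E (Sum.inr j))) : p = q := by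
  ext k
  obtain ⟨x, rfl⟩ := E.surjective k
  rcases x with i | j
  · exact h1 i
  · exact h2 j

theorem kk_add (a a' : Fin n →₀ ℕ) (γ γ' : Fin m →₀ ℕ) :
    kk E a γ + kk E a' γ' = kk E (a + a') (γ + γ') := by
  apply ext_kk E
  · intro i
    rw [Finsupp.add_apply, kk_inl, kk_inl, kk_inl, Finsupp.add_apply]
  · intro j
    rw [Finsupp.add_apply, kk_inr, kk_inr, kk_inr, Finsupp.add_apply]

theorem kk_injective {a a' : Fin n →₀ ℕ} {γ γ' : Fin m →₀ ℕ} (h : kk E a γ = kk E a' γ') :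
    a = a' ∧ γ = γ' := by
  constructor
  · ext i
    rw [← kk_inl E a γ, h, kk_inl]
  · ext j
    rw [← kk_inr E a γ, h, kk_inr]

/-- The first part of an exponent. -/
def kx (p : Fin N →₀ ℕ) : Fin n →₀ ℕ := Finsupp.equivFunOnFinite.symm fun i => p (E (Sum.inl i))

/-- The second part of an exponent. -/
def ky (p : Fin N →₀ ℕ) : Fin m →₀ ℕ := Finsupp.equivFunOnFinite.symm fun j => p (E (Sum.inr j))

theorem kk_kx_ky (p : Fin N →₀ ℕ) : kk E (kx E p) (ky E p) = p := by
  apply ext_kk E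
  · intro i
    rw [kk_inl]
    rfl
  · intro j
    rw [kk_inr]
    rfl

/-- The embedding of the first group of variables. -/
def e1 : Fin n ↪ Fin N := ⟨fun i => E (Sum.inl i), fun _ _ h => Sum.inl_injective (E.injective h)⟩

/-- The embedding of the second group of variables. -/
def e2 : Fin m ↪ Fin N := ⟨fun j => E (Sum.inr j), fun _ _ h => Sum.inr_injective (E.injective h)⟩

theorem e1_ne_inr (i : Fin n) (j : Fin m) : e1 E i ≠ E (Sum.inr j) := by
  intro h
  have := E.injective h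
  simp at this

theorem e2_ne_inl (i : Fin n) (j : Fin m) : e2 E j ≠ E (Sum.inl i) := by
  intro h
  have := E.injective h
  simp at this

theorem embDomain_e1 (a : Fin n →₀ ℕ) : Finsupp.embDomain (e1 E) a = kk E a 0 := by
  apply ext_kk E
  · intro i
    rw [kk_inl]
    exact Finsupp.embDomain_apply_self (e1 E) a i
  · intro j
    rw [kk_inr, Finsupp.embDomain_of_notMem_range, Finsupp.zero_apply]
    rintro ⟨i, hi⟩
    exact e1_ne_inr E i j hi

theorem embDomain_e2 (γ : Fin m →₀ ℕ) : Finsupp.embDomain (e2 E) γ = kk E 0 γ := by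
  apply ext_kk E
  · intro i
    rw [kk_inl, Finsupp.embDomain_of_notMem_range, Finsupp.zero_apply]
    rintro ⟨j, hj⟩
    exact e2_ne_inl E i j hj
  · intro j
    rw [kk_inr]
    exact Finsupp.embDomain_apply_self (e2 E) γ j

/-- The coefficient of `y ^ γ` of a power series in `x` and `y`. -/
def cs (γ : Fin m →₀ ℕ) : MvPowerSeries (Fin N) ℂ →+ MvPowerSeries (Fin n) ℂ where
  toFun h := fun a => MvPowerSeries.coeff (kk E a γ) h
  map_zero' := by
    ext a
    exact map_zero _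
  map_add' h h' := by
    ext a
    exact map_add _ _ _

theorem coeff_cs (γ : Fin m →₀ ℕ) (h : MvPowerSeries (Fin N) ℂ) (a : Fin n →₀ ℕ) :
    MvPowerSeries.coeff a (cs E γ h) = MvPowerSeries.coeff (kk E a γ) h := rfl

theorem cs_mul (γ : Fin m →₀ ℕ) (h h' : MvPowerSeries (Fin N) ℂ) :
    cs E γ (h * h') = ∑ p ∈ Finset.HasAntidiagonal.antidiagonal γ, cs E p.1 h * cs E p.2 h' := by
  classical
  ext a
  rw [coeff_cs, MvPowerSeries.coeff_mul, map_sum]
  simp only [MvPowerSeries.coeff_mul, coeff_cs]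
  rw [← Finset.sum_product']
  symm
  refine Finset.sum_bij' (fun p _ => (kk E p.2.1 p.1.1, kk E p.2.2 p.1.2))
    (fun p _ => ((ky E p.1, ky E p.2), (kx E p.1, kx E p.2))) ?_ ?_ ?_ ?_ ?_
  · rintro ⟨⟨γ1, γ2⟩, a1, a2⟩ hp
    rw [Finset.mem_product, Finset.HasAntidiagonal.mem_antidiagonal,
      Finset.HasAntidiagonal.mem_antidiagonal] at hp
    dsimp only at hp
    rw [Finset.HasAntidiagonal.mem_antidiagonal]
    dsimp only
    rw [kk_add, hp.1, hp.2]
  · rintro ⟨p, q⟩ hp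
    rw [Finset.HasAntidiagonal.mem_antidiagonal] at hp
    dsimp only at hp
    rw [Finset.mem_product, Finset.HasAntidiagonal.mem_antidiagonal,
      Finset.HasAntidiagonal.mem_antidiagonal]
    dsimp only
    rw [← kk_kx_ky E p, ← kk_kx_ky E q, kk_add] at hp
    have := kk_injective E hp
    exact ⟨this.2, this.1⟩
  · rintro ⟨⟨γ1, γ2⟩, a1, a2⟩ _
    dsimp only
    have h1 := kk_injective E (kk_kx_ky E (kk E a1 γ1))
    have h2 := kk_injective E (kk_kx_ky E (kk E a2 γ2))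
    rw [h1.1, h1.2, h2.1, h2.2]
  · rintro ⟨p, q⟩ _
    dsimp only
    rw [kk_kx_ky, kk_kx_ky]
  · rintro ⟨⟨γ1, γ2⟩, a1, a2⟩ _
    rfl

/-- The inclusion of the power series in `x`. -/
def φs : MvPowerSeries (Fin n) ℂ →ₐ[ℂ] MvPowerSeries (Fin N) ℂ :=
  MvPowerSeries.rename (R := ℂ) (e1 E)

/-- The inclusion of the power series in `y`. -/
def ψs : MvPowerSeries (Fin m) ℂ →ₐ[ℂ] MvPowerSeries (Fin N) ℂ :=
  MvPowerSeries.rename (R := ℂ) (e2 E)

theorem notMem_range_e1 {x : Fin N →₀ ℕ} {j : Fin m} (h : x (E (Sum.inr j)) ≠ 0) :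
    x ∉ Set.range (Finsupp.mapDomain (e1 E) : (Fin n →₀ ℕ) → _) := by
  rintro ⟨y, hy⟩
  rw [← Finsupp.embDomain_eq_mapDomain, embDomain_e1] at hy
  rw [← hy, kk_inr, Finsupp.zero_apply] at h
  exact h rfl

theorem notMem_range_e2 {x : Fin N →₀ ℕ} {i : Fin n} (h : x (E (Sum.inl i)) ≠ 0) :
    x ∉ Set.range (Finsupp.mapDomain (e2 E) : (Fin m →₀ ℕ) → _) := by
  rintro ⟨y, hy⟩
  rw [← Finsupp.embDomain_eq_mapDomain, embDomain_e2] at hy
  rw [← hy, kk_inl, Finsupp.zero_apply] at h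
  exact h rfl

theorem cs_φs (γ : Fin m →₀ ℕ) (a : MvPowerSeries (Fin n) ℂ) :
    cs E γ (φs E a) = if γ = 0 then a else 0 := by
  classical
  ext x
  rw [coeff_cs]
  unfold φs
  split_ifs with h
  · rw [h, ← embDomain_e1, MvPowerSeries.coeff_embDomain_rename]
  · obtain ⟨j, hj⟩ : ∃ j, γ j ≠ 0 := by
      by_contra hcon
      push Not at hcon
      exact h (Finsupp.ext hcon)
    rw [MvPowerSeries.coeff_rename_eq_zero, map_zero]
    exact notMem_range_e1 E (j := j) (by rwa [kk_inr])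

theorem cs_ψs (γ : Fin m →₀ ℕ) (g : MvPowerSeries (Fin m) ℂ) :
    cs E γ (ψs E g) = algebraMap ℂ _ (MvPowerSeries.coeff γ g) := by
  classical
  ext x
  rw [coeff_cs, ← MvPowerSeries.c_eq_algebraMap, MvPowerSeries.coeff_C]
  unfold ψs
  split_ifs with h
  · rw [h, ← embDomain_e2, MvPowerSeries.coeff_embDomain_rename]
  · obtain ⟨i, hi⟩ : ∃ i, x i ≠ 0 := by
      by_contra hcon
      push Not at hcon
      exact h (Finsupp.ext hcon)
    rw [MvPowerSeries.coeff_rename_eq_zero]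
    exact notMem_range_e2 E (i := i) (by rwa [kk_inl])

theorem pderiv_φs (i : Fin n) (p : MvPowerSeries (Fin n) ℂ) :
    MvPowerSeries.pderiv ℂ (E (Sum.inl i)) (φs E p) = φs E (MvPowerSeries.pderiv ℂ i p) :=
  CubD.pderiv_rename_emb' (e1 E) i p

theorem pderiv_φs_zero (j : Fin m) (p : MvPowerSeries (Fin n) ℂ) :
    MvPowerSeries.pderiv ℂ (E (Sum.inr j)) (φs E p) = 0 := by
  classical
  ext x
  rw [MvPowerSeries.coeff_pderiv, map_zero]
  unfold φs
  rw [MvPowerSeries.coeff_rename_eq_zero, zero_mul]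
  exact notMem_range_e1 E (j := j) (by simp)

theorem pderiv_ψs_zero (i : Fin n) (p : MvPowerSeries (Fin m) ℂ) :
    MvPowerSeries.pderiv ℂ (E (Sum.inl i)) (ψs E p) = 0 := by
  classical
  ext x
  rw [MvPowerSeries.coeff_pderiv, map_zero]
  unfold ψs
  rw [MvPowerSeries.coeff_rename_eq_zero, zero_mul]
  exact notMem_range_e2 E (i := i) (by simp)

theorem kk_single_inl (a : Fin n →₀ ℕ) (γ : Fin m →₀ ℕ) (i : Fin n) :
    kk E a γ + Finsupp.single (E (Sum.inl i)) 1 = kk E (a + Finsupp.single i 1) γ := by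
  have h : Finsupp.single (E (Sum.inl i)) 1 = kk E (Finsupp.single i 1) 0 := by
    rw [← embDomain_e1, Finsupp.embDomain_single]
    rfl
  rw [h, kk_add, add_zero]

theorem kk_single_inr (a : Fin n →₀ ℕ) (γ : Fin m →₀ ℕ) (j : Fin m) :
    kk E a γ + Finsupp.single (E (Sum.inr j)) 1 = kk E a (γ + Finsupp.single j 1) := by
  have h : Finsupp.single (E (Sum.inr j)) 1 = kk E 0 (Finsupp.single j 1) := by
    rw [← embDomain_e2, Finsupp.embDomain_single]
    rfl
  rw [h, kk_add, add_zero]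

theorem cs_pderiv_inl (γ : Fin m →₀ ℕ) (i : Fin n) (h : MvPowerSeries (Fin N) ℂ) :
    cs E γ (MvPowerSeries.pderiv ℂ (E (Sum.inl i)) h) =
      MvPowerSeries.pderiv ℂ i (cs E γ h) := by
  ext a
  rw [coeff_cs, MvPowerSeries.coeff_pderiv, MvPowerSeries.coeff_pderiv, coeff_cs, kk_single_inl,
    kk_inl]

theorem cs_pderiv_inr (γ : Fin m →₀ ℕ) (j : Fin m) (h : MvPowerSeries (Fin N) ℂ) :
    cs E γ (MvPowerSeries.pderiv ℂ (E (Sum.inr j)) h) =
      (γ j + 1) • cs E (γ + Finsupp.single j 1) h := by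
  ext a
  rw [coeff_cs, MvPowerSeries.coeff_pderiv, map_nsmul, coeff_cs, kk_single_inr, kk_inr,
    nsmul_eq_mul, mul_comm]
  push_cast
  rfl

theorem split_ps (g : MvPowerSeries (Fin m) ℂ) :
    Split (psD n) (psD N) (φs E : MvPowerSeries (Fin n) ℂ →+* MvPowerSeries (Fin N) ℂ) (cs E)
      (ψs E g) where
  mul := cs_mul E
  base := cs_φs E
  der k := by
    obtain ⟨x, rfl⟩ := E.surjective k
    rcases x with i | j
    · exact Or.inl ⟨i, fun γ b => cs_pderiv_inl E γ i b, fun a => pderiv_φs E i a,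
        pderiv_ψs_zero E i g⟩
    · exact Or.inr ⟨fun γ => ⟨γ j + 1, γ + Finsupp.single j 1, fun b => cs_pderiv_inr E γ j b⟩,
        fun a => pderiv_φs_zero E j a⟩

/-- The product `f(x) g(y)`. -/
def prodE (f : MvPolynomial (Fin n) ℂ) (g : MvPolynomial (Fin m) ℂ) : MvPolynomial (Fin N) ℂ :=
  rename (e1 E) f * rename (e2 E) g

theorem coe_prodE (f : MvPolynomial (Fin n) ℂ) (g : MvPolynomial (Fin m) ℂ) :
    (prodE E f g : MvPowerSeries (Fin N) ℂ) =
      φs E (f : MvPowerSeries (Fin n) ℂ) * ψs E (g : MvPowerSeries (Fin m) ℂ) := by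
  unfold prodE φs ψs
  rw [MvPolynomial.coe_mul, MvPowerSeries.rename_coe, MvPowerSeries.rename_coe]

theorem form_of_prodE {f : MvPolynomial (Fin n) ℂ} {g : MvPolynomial (Fin m) ℂ} (hg : g ≠ 0)
    {b : Polynomial ℂ}
    (h : InDnForm (prodE E f g) 1 (b.map (MvPowerSeries.C (σ := Fin N) (R := ℂ)))) :
    InDnForm f 1 (b.map (MvPowerSeries.C (σ := Fin n) (R := ℂ))) := by
  have h1 := inA_of_form h
  rw [coe_prodE] at h1
  have hg' : ∃ γ, MvPowerSeries.coeff γ (g : MvPowerSeries (Fin m) ℂ) ≠ 0 := by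
    by_contra hcon
    push Not at hcon
    apply hg
    apply MvPolynomial.coe_injective
    ext γ
    rw [hcon γ, MvPolynomial.coe_zero, map_zero]
  have h2 := inA_split (split_ps E (g : MvPowerSeries (Fin m) ℂ))
    (F := (f : MvPowerSeries (Fin n) ℂ)) (z := fun γ => MvPowerSeries.coeff γ
      (g : MvPowerSeries (Fin m) ℂ)) (fun γ => cs_ψs E γ _) hg' h1 0
  have h3 : MPb07157M.cP (cs E 0) (b.map (MvPowerSeries.C (σ := Fin N) (R := ℂ))) =
      b.map (MvPowerSeries.C (σ := Fin n) (R := ℂ)) := by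
    ext1 j
    rw [MPb07157M.coeff_cP, Polynomial.coeff_map, Polynomial.coeff_map]
    have h4 := cs_φs E 0 (MvPowerSeries.C (σ := Fin n) (R := ℂ) (b.coeff j))
    rw [if_pos rfl] at h4
    rw [← h4, MvPowerSeries.c_eq_algebraMap, MvPowerSeries.c_eq_algebraMap, AlgHom.commutes]
  rw [h3] at h2
  exact form_of_inA h2

/-! ### Polynomials -/

/-- The coefficient of `y ^ γ` of a polynomial in `x` and `y`. -/
def co (γ : Fin m →₀ ℕ) (h : MvPolynomial (Fin N) ℂ) : MvPolynomial (Fin n) ℂ :=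
  ∑ p ∈ h.support, monomial (kx E p) (if ky E p = γ then coeff p h else 0)

theorem coeff_co (γ : Fin m →₀ ℕ) (h : MvPolynomial (Fin N) ℂ) (a : Fin n →₀ ℕ) :
    coeff a (co E γ h) = coeff (kk E a γ) h := by
  classical
  unfold co
  rw [coeff_sum]
  simp only [coeff_monomial]
  rw [Finset.sum_eq_single (kk E a γ)]
  · have h1 := kk_injective E (kk_kx_ky E (kk E a γ))
    rw [if_pos h1.1, if_pos h1.2]
  · intro p _ hne
    split_ifs with h1 h2
    · exfalso
      apply hne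
      rw [← h1, ← h2, kk_kx_ky]
    · rfl
    · rfl
  · intro h1
    rw [notMem_support_iff.1 h1]
    simp

theorem coe_co (γ : Fin m →₀ ℕ) (h : MvPolynomial (Fin N) ℂ) :
    ((co E γ h : MvPolynomial (Fin n) ℂ) : MvPowerSeries (Fin n) ℂ) =
      cs E γ (h : MvPowerSeries (Fin N) ℂ) := by
  ext a
  rw [MvPolynomial.coeff_coe, coeff_co, coeff_cs, MvPolynomial.coeff_coe]

/-- The coefficient of `y ^ γ` of a polynomial in `x` and `y`, as an additive map. -/
def cpo (γ : Fin m →₀ ℕ) : MvPolynomial (Fin N) ℂ →+ MvPolynomial (Fin n) ℂ where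
  toFun := co E γ
  map_zero' := by
    ext a
    rw [coeff_co]
    rfl
  map_add' h h' := by
    ext a
    rw [coeff_co, coeff_add, coeff_add, coeff_co, coeff_co]

theorem coe_cpo (γ : Fin m →₀ ℕ) (h : MvPolynomial (Fin N) ℂ) :
    ((cpo E γ h : MvPolynomial (Fin n) ℂ) : MvPowerSeries (Fin n) ℂ) =
      cs E γ (h : MvPowerSeries (Fin N) ℂ) := coe_co E γ h

theorem coe_rename_e1 (f : MvPolynomial (Fin n) ℂ) :
    ((rename (e1 E) f : MvPolynomial (Fin N) ℂ) : MvPowerSeries (Fin N) ℂ) =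
      φs E (f : MvPowerSeries (Fin n) ℂ) := by
  unfold φs
  rw [MvPowerSeries.rename_coe]

theorem coe_rename_e2 (g : MvPolynomial (Fin m) ℂ) :
    ((rename (e2 E) g : MvPolynomial (Fin N) ℂ) : MvPowerSeries (Fin N) ℂ) =
      ψs E (g : MvPowerSeries (Fin m) ℂ) := by
  unfold ψs
  rw [MvPowerSeries.rename_coe]

theorem cpo_rename_e2 (γ : Fin m →₀ ℕ) (g : MvPolynomial (Fin m) ℂ) :
    cpo E γ (rename (e2 E) g) = algebraMap ℂ _ (coeff γ g) := by
  apply MvPolynomial.coe_injective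
  rw [coe_cpo, coe_rename_e2, cs_ψs, MvPolynomial.coeff_coe, MvPolynomial.algebraMap_eq,
    MvPolynomial.coe_C, MvPowerSeries.c_eq_algebraMap]

theorem cpo_rename_e1 (γ : Fin m →₀ ℕ) (a : MvPolynomial (Fin n) ℂ) :
    cpo E γ (rename (e1 E) a) = if γ = 0 then a else 0 := by
  apply MvPolynomial.coe_injective
  rw [coe_cpo, coe_rename_e1, cs_φs]
  split_ifs
  · rfl
  · rw [MvPolynomial.coe_zero]

theorem split_po (g : MvPolynomial (Fin m) ℂ) :
    Split (poD n) (poD N) (rename (e1 E) : MvPolynomial (Fin n) ℂ →ₐ[ℂ] MvPolynomial (Fin N) ℂ)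
      (cpo E) (rename (e2 E) g) where
  mul γ b b' := by
    apply MvPolynomial.coe_injective
    rw [coe_cpo, MvPolynomial.coe_mul, cs_mul]
    have h1 : ∀ s : Finset ((Fin m →₀ ℕ) × (Fin m →₀ ℕ)),
        ((∑ p ∈ s, cpo E p.1 b * cpo E p.2 b' : MvPolynomial (Fin n) ℂ) :
          MvPowerSeries (Fin n) ℂ) =
        ∑ p ∈ s, cs E p.1 (b : MvPowerSeries (Fin N) ℂ) * cs E p.2 (b' : MvPowerSeries (Fin N) ℂ) := by
      intro s
      induction s using Finset.induction_on with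
      | empty => rw [Finset.sum_empty, Finset.sum_empty, MvPolynomial.coe_zero]
      | insert a s ha ih =>
        rw [Finset.sum_insert ha, Finset.sum_insert ha, MvPolynomial.coe_add, ih,
          MvPolynomial.coe_mul, coe_cpo, coe_cpo]
    exact (h1 _).symm
  base γ a := cpo_rename_e1 E γ a
  der k := by
    obtain ⟨x, rfl⟩ := E.surjective k
    rcases x with i | j
    · refine Or.inl ⟨i, fun γ b => ?_, fun a => ?_, ?_⟩
      · apply MvPolynomial.coe_injective
        unfold poD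
        rw [coe_cpo, ← MvPowerSeries.pderiv_coe, ← MvPowerSeries.pderiv_coe, coe_cpo,
          cs_pderiv_inl]
      · exact pderiv_rename (e1 E).injective _ _
      · apply MvPolynomial.coe_injective
        unfold poD
        rw [← MvPowerSeries.pderiv_coe, coe_rename_e2, pderiv_ψs_zero, MvPolynomial.coe_zero]
    · refine Or.inr ⟨fun γ => ⟨γ j + 1, γ + Finsupp.single j 1, fun b => ?_⟩, fun a => ?_⟩
      · ext a
        have h1 := congrArg (MvPowerSeries.coeff a)
          (cs_pderiv_inr E γ j (b : MvPowerSeries (Fin N) ℂ))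
        unfold poD
        rw [MvPowerSeries.pderiv_coe, ← coe_cpo, MvPolynomial.coeff_coe, map_nsmul, ← coe_cpo,
          MvPolynomial.coeff_coe] at h1
        rw [h1, coeff_smul]
      · apply MvPolynomial.coe_injective
        unfold poD
        have h1 := pderiv_φs_zero E j (a : MvPowerSeries (Fin n) ℂ)
        rw [← coe_rename_e1, MvPowerSeries.pderiv_coe] at h1
        rw [MvPolynomial.coe_zero]
        exact h1

theorem isBernsteinSato_of_prodE {f : MvPolynomial (Fin n) ℂ} {g : MvPolynomial (Fin m) ℂ}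
    (hg : g ≠ 0) {b : Polynomial ℂ} (h : IsBernsteinSato (prodE E f g) b) :
    IsBernsteinSato f b := by
  have h1 := isBernsteinSato_iff.1 h
  have hg' : ∃ γ, coeff γ g ≠ 0 := by
    by_contra hcon
    push Not at hcon
    exact hg (MvPolynomial.ext _ _ hcon)
  have h2 := inA_split (split_po E g) (F := f) (z := fun γ => coeff γ g)
    (fun γ => cpo_rename_e2 E γ g) hg' h1 0
  have h3 : MPb07157M.cP (cpo E 0) (b.map (algebraMap ℂ (MvPolynomial (Fin N) ℂ))) =
      b.map (algebraMap ℂ (MvPolynomial (Fin n) ℂ)) := by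
    ext1 j
    rw [MPb07157M.coeff_cP, Polynomial.coeff_map, Polynomial.coeff_map]
    have h4 := cpo_rename_e1 E 0 (algebraMap ℂ (MvPolynomial (Fin n) ℂ) (b.coeff j))
    rw [if_pos rfl, AlgHom.commutes] at h4
    exact h4
  rw [h3] at h2
  exact isBernsteinSato_iff.2 h2

end Sep

end MPb07157
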