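import Pool.Agent.Lib.MP_b07157_agM.Strata
import Pool.Agent.Lib.MP_b07157_agL.Lf
import Pool.Agent.Lib.MP_b07157_agQ.HArc
import Pool.Agent.Lib.MP_b07157_agQ.QHom
import Pool.Agent.Lib.MP_b07157_agM.RootLT
import Pool.Agent.Lib.MP_b07157_agI.SqR3
import Pool.Agent.Lib.MP_b07157_agM.CDefs

/-!
# Homogeneous polynomials which are trivial along strata outside the origin
-/

noncomputable section

namespace MPb07157

open MvPolynomial MeasureTheory

variable {n : ℕ}

/-- The zeta function of the arcs which start in a set on which the polynomial is trivial along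
strata. -/
theorem seriesAt_mem_of_cover {f : MvPolynomial (Fin n) ℂ} (hf : f ≠ 0) {A : Set (Fin n → ℂ)}
    (hA : IsConstr A) {T : Set (Set (Fin n → ℂ))} (hT : T.Finite)
    (hcov : ∀ p ∈ A, eval p f = 0 → ∃ W ∈ T, p ∈ W)
    {P : (k : ℕ) → MvPolynomial (Fin k) ℂ → Prop}
    (h : ∀ W ∈ T, IsConstr W ∧ ∃ (k : ℕ) (g : MvPolynomial (Fin k) ℂ), P k g ∧ TrivAlong f W g)
    {s₀ : ℚ} (hreg : ∀ (k : ℕ) (g : MvPolynomial (Fin k) ℂ) (p : Fin n → ℂ), P k g →
      TrivAlong f {p} g → eval p f = 0 → Zmot0 g ∈ regularAt s₀) :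
    seriesAt f A ∈ regularAt s₀ := by
  classical
  obtain ⟨V, h1, h2, h3⟩ := exists_disjoint_cover hT fun W hW => (h W hW).1
  have hZ : IsConstr {p : Fin n → ℂ | eval p f = 0} := isConstr_eq_zero f
  have e0 : A = (A ∩ {p | eval p f = 0}ᶜ) ∪ (A ∩ {p | eval p f = 0}) := by
    rw [← Set.inter_union_distrib_left, Set.compl_union_self, Set.inter_univ]
  have e1 : seriesAt f A =
      seriesAt f (A ∩ {p | eval p f = 0}ᶜ) + seriesAt f (A ∩ {p | eval p f = 0}) := by
    conv_lhs => rw [e0]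
    exact seriesAt_union _ (hA.inter hZ.compl) (hA.inter hZ)
      (disjoint_compl_left.mono Set.inter_subset_right Set.inter_subset_right)
  have e2 : seriesAt f (A ∩ {p | eval p f = 0}) =
      ∑ W ∈ hT.toFinset, seriesAt f (V W ∩ (A ∩ {p | eval p f = 0})) := by
    rw [← seriesAt_biUnion]
    · congr 1
      ext p
      simp only [Set.mem_ofPred_eq, Set.mem_iUnion, Set.Finite.mem_toFinset, Set.mem_inter_iff,
        exists_prop]
      constructor
      · rintro ⟨hpA, hp0⟩
        obtain ⟨W, hW, hpW⟩ := h3 p (hcov p hpA hp0)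
        exact ⟨W, hW, hpW, hpA, hp0⟩
      · rintro ⟨_, _, _, hp⟩
        exact hp
    · intro W hW
      rw [Set.Finite.mem_toFinset] at hW
      exact (h1 W hW).1.inter (hA.inter hZ)
    · intro W hW W' hW' hWW'
      rw [Set.Finite.mem_toFinset] at hW hW'
      exact (h2 W hW W' hW' hWW').mono Set.inter_subset_left Set.inter_subset_left
  rw [e1, e2]
  refine add_mem (seriesAt_mem_of_ne (hA.inter hZ.compl) hf (fun p hp => hp.2) s₀)
    (sum_mem fun W hW => ?_)
  rw [Set.Finite.mem_toFinset] at hW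
  obtain ⟨k, g, hg, ht⟩ := (h W hW).2
  refine seriesAt_mem_of_trivAlong ((h1 W hW).1.inter (hA.inter hZ))
    (ht.mono (Set.inter_subset_left.trans (h1 W hW).2)) ?_
  rintro ⟨p, hpV, hpA, hp0⟩
  exact hreg k g p hg (ht.mono (Set.singleton_subset_iff.2 ((h1 W hW).2 hpV))) hp0

theorem seriesAt_point_zero (f : MvPolynomial (Fin n) ℂ) : seriesAt f {0} = Zmot0 f := by
  ext m
  have h1 : seriesAt f ({0} : Set (Fin n → ℂ)) = PowerSeries.mk (muW f {0}) := rfl
  rw [h1, PowerSeries.coeff_mk, muW_point, translate_zero]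
  simp only [Zmot0, PowerSeries.coeff_mk]

/-- The poles of the zeta functions of homogeneous polynomials which are trivial along strata
outside the origin. -/
theorem pole_of_cone {f : MvPolynomial (Fin n) ℂ} (hf : f ≠ 0) {d : ℕ} (hd : 0 < d)
    (hh : f.IsHomogeneous d) {T : Set (Set (Fin n → ℂ))}
    (hT : T.Finite) (hcov : ∀ p, p ≠ 0 → eval p f = 0 → ∃ W ∈ T, p ∈ W)
    {P : (k : ℕ) → MvPolynomial (Fin k) ℂ → Prop}
    (h : ∀ W ∈ T, IsConstr W ∧ ∃ (k : ℕ) (g : MvPolynomial (Fin k) ℂ), P k g ∧ TrivAlong f W g)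
    {s₀ : ℚ} (hp : IsPole (Zmot f) s₀ ∨ IsPole (Zmot0 f) s₀) :
    s₀ = -(n / d) ∨ ∃ (k : ℕ) (g : MvPolynomial (Fin k) ℂ) (p : Fin n → ℂ), P k g ∧
      TrivAlong f {p} g ∧ eval p f = 0 ∧ IsPole (Zmot0 g) s₀ := by
  by_contra hcon
  push Not at hcon
  obtain ⟨hs, hcon⟩ := hcon
  have hc0 : IsConstr ({0} : Set (Fin n → ℂ)) := isConstr_point 0
  have h1 : seriesAt f {0}ᶜ ∈ regularAt s₀ := by
    refine seriesAt_mem_of_cover hf hc0.compl hT (fun p hp hp0 => hcov p hp hp0) h ?_
    intro k g p hg ht h0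
    have h4 := hcon k g p hg ht h0
    unfold IsPole at h4
    exact not_not.1 h4
  have h2 : Zmot f - Zmot0 f = seriesAt f {0}ᶜ := by
    rw [← seriesAt_univ, ← Set.union_compl_self ({0} : Set (Fin n → ℂ)),
      seriesAt_union _ hc0 hc0.compl disjoint_compl_right, seriesAt_point_zero]
    ring
  have h3 := mem_regularAt_of_isHomogeneous hd hh hs (h2 ▸ h1)
  rcases hp with hp | hp
  · exact hp h3.1
  · exact hp h3.2

/-- For a linear form, `f^(-n)` is a derivative if there is a second variable. -/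
theorem not_nonEx_linear {f : MvPolynomial (Fin n) ℂ} (hf : f ≠ 0) (hh : f.IsHomogeneous 1)
    (hn : n ≠ 1) (α : ℂ) : ¬ NonEx f α := by
  classical
  intro H
  have hex : ∃ i, coeff (Finsupp.single i 1) f ≠ 0 := by
    obtain ⟨v, hv⟩ := MvPolynomial.support_nonempty.2 hf
    have h1 : v.degree = 1 := by
      rw [Finsupp.degree_eq_weight_one]
      exact hh (mem_support_iff.1 hv)
    have h2 : ∃ i, v i ≠ 0 := by
      by_contra hcon
      push Not at hcon
      rw [show v = 0 from Finsupp.ext hcon, map_zero] at h1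
      exact zero_ne_one h1
    obtain ⟨i, hi⟩ := h2
    have h3 : v - Finsupp.single i 1 = 0 := by
      rw [← Finsupp.degree_eq_zero_iff]
      have h4 : v = v - Finsupp.single i 1 + Finsupp.single i 1 := by
        rw [tsub_add_cancel_of_le]
        exact Finsupp.single_le_iff.2 (Nat.one_le_iff_ne_zero.2 hi)
      rw [h4, map_add, Finsupp.degree_single] at h1
      omega
    have h5 : v = Finsupp.single i 1 := by
      have h4 : v = v - Finsupp.single i 1 + Finsupp.single i 1 := by
        rw [tsub_add_cancel_of_le]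
        exact Finsupp.single_le_iff.2 (Nat.one_le_iff_ne_zero.2 hi)
      rw [h4, h3, zero_add]
    refine ⟨i, ?_⟩
    rw [← h5]
    exact mem_support_iff.1 hv
  obtain ⟨i, hi⟩ := hex
  have hd : ∀ j, pderiv j f = C (coeff (Finsupp.single j 1) f) := by
    intro j
    have h1 : (pderiv j f).IsHomogeneous 0 := hh.pderiv
    rw [← totalDegree_zero_iff_isHomogeneous, totalDegree_eq_zero_iff_eq_C] at h1
    rw [h1, coeff_pderiv]
    simp
  obtain ⟨j, hj⟩ : ∃ j : Fin n, j ≠ i := by
    by_contra hcon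
    push Not at hcon
    apply hn
    have h1 : Fintype.card (Fin n) = 1 := Fintype.card_eq_one_iff.2 ⟨i, hcon⟩
    rwa [Fintype.card_fin] at h1
  apply H 0 (fun l => if l = j then X j else if l = i then
    C (-(coeff (Finsupp.single j 1) f / coeff (Finsupp.single i 1) f)) * X j else 0)
  rw [← Finset.add_sum_erase _ _ (Finset.mem_univ j),
    ← Finset.add_sum_erase _ _ (Finset.mem_erase.2 ⟨hj.symm, Finset.mem_univ i⟩),
    Finset.sum_eq_zero, add_zero]
  · rw [if_pos rfl, if_neg hj.symm, if_pos rfl, pderiv_X_self, pderiv_C_mul,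
      pderiv_X_of_ne hj, hd, hd, mul_zero, mul_zero, zero_add, pow_one]
    have h2 : C (-(coeff (Finsupp.single j 1) f / coeff (Finsupp.single i 1) f)) *
        X j * C (coeff (Finsupp.single i 1) f) =
        -(X j * C (coeff (Finsupp.single j 1) f) : MvPolynomial (Fin n) ℂ) := by
      have h3 : C (-(coeff (Finsupp.single j 1) f / coeff (Finsupp.single i 1) f)) *
          C (coeff (Finsupp.single i 1) f) =
          (-C (coeff (Finsupp.single j 1) f) : MvPolynomial (Fin n) ℂ) := by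
        rw [← C_mul, ← C_neg]
        congr 1
        field_simp
      linear_combination X j * h3
    rw [h2]
    ring
  · intro l hl
    rw [Finset.mem_erase, Finset.mem_erase] at hl
    rw [if_neg hl.2.1, if_neg hl.1, map_zero, mul_zero, zero_mul, mul_zero, sub_zero]

theorem root_cone_of_nonEx {f : MvPolynomial (Fin n) ℂ} {d : ℕ} (h : NonEx f (n / d)) (hf : f ≠ 0)
    (hd : 0 < d) (hh : f.IsHomogeneous d) {b : Polynomial ℂ}
    (hb : InDnForm f 1 (b.map (MvPowerSeries.C (σ := Fin n) (R := ℂ)))) :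
    b.eval (-(n / d : ℂ)) = 0 := by
  have hd0 : (d : ℂ) ≠ 0 := by exact_mod_cast hd.ne'
  rcases Nat.lt_or_ge 1 d with hd2 | hd2
  · refine root_of_initial (w := fun _ => 1) (fun _ => one_pos) (fun _ => hd2) hd (h := 0) hf
      hh (fun v hv => by simp at hv) ?_ h (by rw [add_zero]; exact hb)
    rw [div_mul_cancel₀ _ hd0]
    simp
  · have hd1 : d = 1 := by omega
    subst hd1
    by_cases hn : n = 1
    · subst hn
      have h0 : (0 : Fin 1 →₀ ℕ) ∉ f.support := by
        rw [notMem_support_iff]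
        exact hh.coeff_eq_zero (by simp)
      have h1 := neg_one_root hf h0 b hb
      rw [← h1]
      congr 1
      norm_num
    · exact absurd h (not_nonEx_linear hf hh hn _)

theorem ConeRoot0.root {f : MvPolynomial (Fin n) ℂ} {d : ℕ} (h : ConeRoot0 f d) (hf : f ≠ 0)
    (hd : 0 < d) (hh : f.IsHomogeneous d) {b : Polynomial ℂ} (hb : IsBernsteinSato f b)
    (hb' : InDnForm f 1 (b.map (MvPowerSeries.C (σ := Fin n) (R := ℂ)))) :
    b.eval ((-(n / d : ℚ) : ℚ) : ℂ) = 0 := by
  rcases h with h | ⟨h1, h2⟩ | h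
  · exact Lct.root_of_lct hd hf hh h hb
  · have h3 := root_of_linear_type hf hd hh h1 h2 b hb'
    rw [← h3]
    congr 1
    push_cast
    ring
  · rw [← root_cone_of_nonEx h hf hd hh hb']
    congr 1
    push_cast
    ring

/-- Homogeneous polynomials of degree `d` in `n` variables which satisfy the condition `ConeRoot0`
and are trivial along strata outside the origin, with germs that satisfy the local version. -/
theorem smcLoc_cone0 {f : MvPolynomial (Fin n) ℂ} (hf : f ≠ 0) {d : ℕ} (hd : 0 < d)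
    (hh : f.IsHomogeneous d) {T : Set (Set (Fin n → ℂ))}
    (hT : T.Finite) (hcov : ∀ p, p ≠ 0 → eval p f = 0 → ∃ W ∈ T, p ∈ W)
    {P : (k : ℕ) → MvPolynomial (Fin k) ℂ → Prop}
    (hP : ∀ (k : ℕ) (g : MvPolynomial (Fin k) ℂ), P k g → g ≠ 0 → coeff 0 g = 0 → SmcLoc g)
    (h : ∀ W ∈ T, IsConstr W ∧ ∃ (k : ℕ) (g : MvPolynomial (Fin k) ℂ), P k g ∧ TrivAlong f W g)
    (hroot : ConeRoot0 f d) : SmcLoc f := by
  intro s₀ hs hpole b hb
  have hbg : IsBernsteinSato f b := isBernsteinSato_of_form_homogeneous hh hb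
  rcases pole_of_cone hf hd hh hT hcov h (Or.inr hpole) with h1 | ⟨k, g, p, hg, ht, h0, hpole'⟩
  · subst h1
    exact hroot.root hf hd hh hbg hb
  · exact hP k g hg (ne_zero_of_trivAlong ht hf) (coeff_zero_of_trivAlong ht h0) s₀ hs hpole' b
      (form_of_trivAlong ht hbg)

end MPb07157
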