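import Pool.Agent.Lib.MP_b07157_agM.IFT
import Pool.Agent.Lib.MP_b07157_agM.MB
import Pool.Agent.Lib.MP_b07157_agE.ET
import Pool.Agent.Lib.MP_b07157_agE.EMain
import Pool.Agent.Lib.MP_b07157_agK.K1a

/-!
# Local triviality along a stratum: Bernstein–Sato polynomials

If `a f = b g(u_1, …, u_k)` near the common zero `p` of the `u_j`, where `a(p), b(p) ≠ 0` and the
differentials of the `u_j` at `p` are linearly independent, then the germ of `f` at `p` is
formally equivalent to `g(x_{c 1}, …, x_{c k})`, and the local Bernstein–Sato polynomials of `f`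
at `p` are local Bernstein–Sato polynomials of `g`.
-/

noncomputable section

namespace MPb07157

open MvPolynomial

variable {n k : ℕ}

namespace Str

theorem constantCoeff_translate (p : Fin n → ℂ) (q : MvPolynomial (Fin n) ℂ) :
    constantCoeff (translate p q) = eval p q := by
  unfold translate
  rw [aeval_def, hom_eval₂]
  simp [eval_eq', eval₂_eq']

theorem coeff_single_eq (l : Fin n) (q : MvPolynomial (Fin n) ℂ) :
    coeff (Finsupp.single l 1) q = constantCoeff (pderiv l q) := by
  rw [constantCoeff_eq, coeff_pderiv]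
  simp

theorem constantCoeff_coe (q : MvPolynomial (Fin n) ℂ) :
    MvPowerSeries.constantCoeff (q : MvPowerSeries (Fin n) ℂ) = constantCoeff q := by
  rw [← MvPowerSeries.coeff_zero_eq_constantCoeff_apply, MvPolynomial.coeff_coe, constantCoeff_eq]

theorem translate_rename_comp (p : Fin n → ℂ) (u : Fin k → MvPolynomial (Fin n) ℂ)
    (g : MvPolynomial (Fin k) ℂ) :
    translate p (aeval u g) = aeval (fun j => translate p (u j)) g := by
  unfold translate
  rw [← AlgHom.comp_apply, comp_aeval]

theorem aeval_coe (q : Fin k → MvPolynomial (Fin n) ℂ) (p : MvPolynomial (Fin k) ℂ) :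
    (aeval (fun i => (q i : MvPowerSeries (Fin n) ℂ)) p : MvPowerSeries (Fin n) ℂ) =
      ((aeval q p : MvPolynomial (Fin n) ℂ) : MvPowerSeries (Fin n) ℂ) := by
  have h : (aeval (fun i => (q i : MvPowerSeries (Fin n) ℂ)) :
      MvPolynomial (Fin k) ℂ →ₐ[ℂ] MvPowerSeries (Fin n) ℂ) =
      (MvPolynomial.coeToMvPowerSeries.algHom ℂ).comp (aeval q) := by
    apply MvPolynomial.algHom_ext
    intro i
    rw [AlgHom.comp_apply, aeval_X, aeval_X, MvPolynomial.coeToMvPowerSeries.algHom_apply]
    rfl
  rw [h, AlgHom.comp_apply, MvPolynomial.coeToMvPowerSeries.algHom_apply]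
  rfl

/-- The unit of the ring of power series given by a polynomial without zero at `p`. -/
theorem isUnit_translate {p : Fin n → ℂ} {q : MvPolynomial (Fin n) ℂ} (h : eval p q ≠ 0) :
    IsUnit ((translate p q : MvPolynomial (Fin n) ℂ) : MvPowerSeries (Fin n) ℂ) := by
  rw [MvPowerSeries.isUnit_iff_constantCoeff, constantCoeff_coe, constantCoeff_translate]
  exact isUnit_iff_ne_zero.2 h

theorem det_ne_zero_of_injective {A : Matrix (Fin n) (Fin n) ℂ}
    (h : ∀ v : Fin n → ℂ, (∀ j, ∑ j', A j j' * v j' = 0) → v = 0) : A.det ≠ 0 := by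
  intro hdet
  obtain ⟨v, hv, hv'⟩ := Matrix.exists_mulVec_eq_zero_iff.2 hdet
  exact hv (h v fun j => congrFun hv' j)

/-- The germ of `f` at `p` is formally equivalent to `g` in the variables `c`. -/
theorem formEquiv_of_triv {f a b : MvPolynomial (Fin n) ℂ} {g : MvPolynomial (Fin k) ℂ}
    {u : Fin k → MvPolynomial (Fin n) ℂ} (hab : a * f = b * aeval u g) {c : Fin k → Fin n}
    (hc : Function.Injective c) {p : Fin n → ℂ} (ha : eval p a ≠ 0) (hb : eval p b ≠ 0)
    (hu : ∀ j, eval p (u j) = 0)
    (hdet : (Matrix.of fun i j => eval p (pderiv (c j) (u i))).det ≠ 0) :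
    FormEquivPow (translate p f) (rename c g) 1 := by
  classical
  let q : Fin n → MvPolynomial (Fin n) ℂ := fun i =>
    translate p (etG u c i) - C (eval p (etG u c i))
  let A : Fin n → MvPowerSeries (Fin n) ℂ := fun i => (q i : MvPowerSeries (Fin n) ℂ)
  have hA0 : ∀ i, MvPowerSeries.constantCoeff (A i) = 0 := by
    intro i
    show MvPowerSeries.constantCoeff (q i : MvPowerSeries (Fin n) ℂ) = 0
    rw [constantCoeff_coe]
    show constantCoeff (translate p (etG u c i) - C (eval p (etG u c i))) = 0
    rw [map_sub, constantCoeff_translate, constantCoeff_C, sub_self]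
  have hA1 : (Matrix.of fun i j => MvPowerSeries.coeff (Finsupp.single j 1) (A i)).det ≠ 0 := by
    have e : (Matrix.of fun i j => MvPowerSeries.coeff (Finsupp.single j 1) (A i)) =
        Matrix.of fun i j => eval p (pderiv j (etG u c i)) := by
      ext i j
      simp only [Matrix.of_apply]
      show MvPowerSeries.coeff (Finsupp.single j 1) (q i : MvPowerSeries (Fin n) ℂ) = _
      rw [MvPolynomial.coeff_coe, coeff_single_eq]
      show constantCoeff (pderiv j (translate p (etG u c i) - C (eval p (etG u c i)))) = _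
      rw [map_sub, pderiv_C, sub_zero, pderiv_translate, constantCoeff_translate]
    rw [e]
    exact det_ne_zero_of_injective fun v hv => etG_nondeg hc hdet v hv
  obtain ⟨e, he⟩ := IFT.exists_equiv hA0 hA1
  obtain ⟨va, hva⟩ := isUnit_translate ha
  obtain ⟨vb, hvb⟩ := isUnit_translate hb
  refine ⟨e, va⁻¹ * vb, ?_⟩
  have h1 : e ((rename c g : MvPolynomial (Fin n) ℂ) : MvPowerSeries (Fin n) ℂ) =
      ((translate p (aeval u g) : MvPolynomial (Fin n) ℂ) : MvPowerSeries (Fin n) ℂ) := by
    rw [he, aeval_rename, translate_rename_comp, ← aeval_coe]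
    congr 2
    funext j
    show ((translate p (etG u c (c j)) - C (eval p (etG u c (c j))) : MvPolynomial (Fin n) ℂ) :
      MvPowerSeries (Fin n) ℂ) = _
    rw [etG_apply u hc, hu j, C_0, sub_zero]
  have h2 := congrArg (fun x => ((translate p x : MvPolynomial (Fin n) ℂ) :
    MvPowerSeries (Fin n) ℂ)) hab
  have e2 : ∀ x y : MvPolynomial (Fin n) ℂ, translate p (x * y) = translate p x * translate p y :=
    fun x y => map_mul (aeval fun i => X i + C (p i)) x y
  rw [e2, e2, MvPolynomial.coe_mul, MvPolynomial.coe_mul, ← hva, ← hvb] at h2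
  rw [pow_one, h1, Units.val_mul, mul_assoc, ← h2, Units.inv_mul_cancel_left]

/-- Numbering of the variables such that the first ones are the `c j`. -/
theorem exists_numbering {c : Fin k → Fin n} (hc : Function.Injective c) :
    ∃ (m : ℕ) (E : Fin k ⊕ Fin m ≃ Fin n), ∀ j, E (Sum.inl j) = c j := by
  classical
  let κ : Type := {i : Fin n // i ∉ Set.range c}
  refine ⟨Fintype.card κ, (Equiv.sumCongr (Equiv.ofInjective c hc)
    (Fintype.equivFin κ).symm).trans (Equiv.Set.sumCompl (Set.range c)), fun j => ?_⟩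
  rw [Equiv.trans_apply, Equiv.sumCongr_apply, Sum.map_inl]
  rw [Equiv.Set.sumCompl_apply_inl]
  rfl

theorem form_of_rename {g : MvPolynomial (Fin k) ℂ} {c : Fin k → Fin n}
    (hc : Function.Injective c) {b : Polynomial ℂ}
    (h : InDnForm (rename c g) 1 (b.map (MvPowerSeries.C (σ := Fin n) (R := ℂ)))) :
    InDnForm g 1 (b.map (MvPowerSeries.C (σ := Fin k) (R := ℂ))) := by
  obtain ⟨m, E, hE⟩ := exists_numbering hc
  refine Sep.form_of_prodE E (g := (1 : MvPolynomial (Fin m) ℂ)) one_ne_zero ?_
  have e : Sep.prodE E g (1 : MvPolynomial (Fin m) ℂ) = rename c g := by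
    unfold Sep.prodE
    rw [map_one, mul_one]
    have : ((Sep.e1 E : Fin k ↪ Fin n) : Fin k → Fin n) = c := funext hE
    rw [this]
  rw [e]
  exact h

/-- The Bernstein–Sato polynomials of `f` are formal Bernstein–Sato polynomials of `g`. -/
theorem form_of_triv {f a b : MvPolynomial (Fin n) ℂ} {g : MvPolynomial (Fin k) ℂ}
    {u : Fin k → MvPolynomial (Fin n) ℂ} (hab : a * f = b * aeval u g) {c : Fin k → Fin n}
    (hc : Function.Injective c) {p : Fin n → ℂ} (ha : eval p a ≠ 0) (hb : eval p b ≠ 0)
    (hu : ∀ j, eval p (u j) = 0)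
    (hdet : (Matrix.of fun i j => eval p (pderiv (c j) (u i))).det ≠ 0) {B : Polynomial ℂ}
    (hB : IsBernsteinSato f B) :
    InDnForm g 1 (B.map (MvPowerSeries.C (σ := Fin k) (R := ℂ))) := by
  have h1 := form_of_formEquivPow one_pos (formEquiv_of_triv hab hc ha hb hu hdet)
    (form_translate p hB)
  have h2 : B.comp (Polynomial.C (((1 : ℕ) : ℂ)⁻¹) * Polynomial.X) = B := by simp
  rw [h2] at h1
  exact form_of_rename hc h1

end Str

end MPb07157
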