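import Pool.Agent.Lib.MP_b07157_agM.TDefs

/-!
# The definitions used by the class of stably non-degenerate germs: semi-quasi-homogeneous points of
the tangent cone
-/

noncomputable section

namespace MPb07157

open MvPolynomial

variable {k : ℕ}

namespace YV

/-- `G` is semi-quasi-homogeneous of level `N` for the weights `w`: all monomials of `G` have at
least the weight `N`, and the part of weight `N` of `G` has no critical points outside the
origin. -/
structure SqG (G : MvPolynomial (Fin k) ℂ) (w : Fin k → ℕ) (N : ℕ) : Prop where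
  hw : ∀ i, 0 < w i
  hwN : ∀ i, w i < N
  ge : ∀ v ∈ G.support, N ≤ ∑ i, w i * v i
  iso : ∀ c : Fin k → ℂ, c ≠ 0 → ∃ j, eval c (pderiv j (weightedHomogeneousComponent w N G)) ≠ 0

/-- `G` is semi-quasi-homogeneous of level `N` for the weights `w`, relative to the hyperplane
`x_0 = 0`: all monomials of `G` have at least the weight `N`, and neither the part of weight `N` of
`G` nor its restriction to `x_0 = 0` has critical points outside the origin. -/
structure RelSqG (G : MvPolynomial (Fin (k + 1)) ℂ) (w : Fin (k + 1) → ℕ) (N : ℕ) : Prop where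
  hw : ∀ i, 0 < w i
  hw0 : w 0 ≤ N
  hwN : ∀ i : Fin k, w i.succ < N
  ge : ∀ v ∈ G.support, N ≤ ∑ i, w i * v i
  iso : ∀ c : Fin (k + 1) → ℂ, c ≠ 0 →
    ∃ j, eval c (pderiv j (weightedHomogeneousComponent w N G)) ≠ 0
  rel : ∀ c : Fin (k + 1) → ℂ, c ≠ 0 → c 0 = 0 →
    ∃ j : Fin k, eval c (pderiv j.succ (weightedHomogeneousComponent w N G)) ≠ 0

end YV

/-- The point `q` of the hypersurface `f_d = 0` in the projective space is semi-quasi-homogeneous
(of arbitrary corank), and `f_{d+e}(q) ≠ 0`; `n = k + 1` variables; `d ≥ n`, or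
`n N < d ∑ w_j + (d + e) (N - w_i)` for all `i`. -/
def SqPt (f : MvPolynomial (Fin (k + 1)) ℂ) (d e : ℕ) (q : Fin (k + 1) → ℂ) : Prop :=
  eval q (homogeneousComponent (d + e) f) ≠ 0 ∧
  ∃ (j₀ : Fin (k + 1)) (c : ℂ), c * q j₀ = 1 ∧
    ∃ (G : MvPolynomial (Fin k) ℂ) (w : Fin k → ℕ) (N : ℕ)
      (E : MvPowerSeries (Fin k) ℂ ≃ₐ[ℂ] MvPowerSeries (Fin k) ℂ) (u : (MvPowerSeries (Fin k) ℂ)ˣ),
      YV.SqG G w N ∧ (YQ.chartEq (homogeneousComponent d f) (c • q) j₀ : MvPowerSeries (Fin k) ℂ) =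
        u * E (G : MvPowerSeries (Fin k) ℂ) ∧
      (k + 1 ≤ d ∨ ∀ i, (k + 1) * N + (d + e) * w i < d * ∑ j, w j + (d + e) * N)

/-- In a chart of the blow-up of the origin at the point `q` of the exceptional divisor `x_0 = 0`,
`f` is `x_0^d h`, and `h` is, up to a unit and a formal change of coordinates which preserves the
divisor, semi-quasi-homogeneous relative to it; `n = k + 1` variables; `d ≥ n`, or
`n w_0 N < d w_0 ∑_{j ≥ 1} w_j + (d w_0 + N) (N - w_i)` for all `i ≥ 1`. -/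
def RelSqPt (f : MvPolynomial (Fin (k + 1)) ℂ) (d : ℕ) (q : Fin (k + 1) → ℂ) : Prop :=
  ∃ (j₀ : Fin (k + 1)) (c : ℂ), c * q j₀ = 1 ∧
    ∃ (h G : MvPolynomial (Fin (k + 1)) ℂ) (w : Fin (k + 1) → ℕ) (N : ℕ)
      (E : MvPowerSeries (Fin (k + 1)) ℂ ≃ₐ[ℂ] MvPowerSeries (Fin (k + 1)) ℂ)
      (u v : (MvPowerSeries (Fin (k + 1)) ℂ)ˣ),
      aeval (fun i => X 0 * j₀.insertNth (α := fun _ => MvPolynomial (Fin (k + 1)) ℂ) 1
        (fun l : Fin k => X l.succ + C (c * q (j₀.succAbove l))) i) f = X 0 ^ d * h ∧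
      YV.RelSqG G w N ∧ (h : MvPowerSeries (Fin (k + 1)) ℂ) =
        u * E (G : MvPowerSeries (Fin (k + 1)) ℂ) ∧
      E (MvPowerSeries.X 0) = MvPowerSeries.X 0 * (v : MvPowerSeries (Fin (k + 1)) ℂ) ∧
      (k + 1 ≤ d ∨ ∀ i : Fin k, (k + 1) * w 0 * N + w i.succ * (d * w 0 + N) <
        d * w 0 * (∑ j : Fin k, w j.succ) + N * (d * w 0 + N))

/-- As `TanCone`, also with semi-quasi-homogeneous singular points of the hypersurface `f_d = 0`. -/
structure TanConeV (f : MvPolynomial (Fin (k + 1)) ℂ) (d e : ℕ) : Prop where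
  hk : 2 ≤ k
  hd : 3 ≤ d
  he : 0 < e
  low : ∀ j < d, homogeneousComponent j f = 0
  mid : ∀ j, 0 < j → j < e → homogeneousComponent (d + j) f = 0
  fin : YG.FinSing (homogeneousComponent d f)
  sing : ∀ q, SingPt (homogeneousComponent d f) q →
    Node (homogeneousComponent d f) q ∨ Cork (homogeneousComponent d f) d q ∨
      (k = 2 ∧ eval q (homogeneousComponent (d + e) f) ≠ 0) ∨ SqPt f d e q ∨ RelSqPt f d q

end MPb07157
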