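import Pool.Agent.Lib.MP_b07157_agM.VDefs

/-!
# The definitions used by the class of stably non-degenerate germs: weighted tangent cones
-/

noncomputable section

namespace MPb07157

open MvPolynomial MeasureTheory

variable {k : ℕ}

/-- The hypersurface `f_D = 0`, `f_D` the part of weight `D` of `f` for the weights `a`, has in the
section `x_{j₀} = 1` through a point of the orbit of `q` a semi-quasi-homogeneous singularity, and
`f_{D+e}(q) ≠ 0`; `∑ a_i ≤ D`, or `N ∑ a_i < D ∑ w_j + (D + e) (N - w_i)` for all `i`. -/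
def WSqPt (f : MvPolynomial (Fin (k + 1)) ℂ) (a : Fin (k + 1) → ℕ) (D e : ℕ)
    (q : Fin (k + 1) → ℂ) : Prop :=
  eval q (weightedHomogeneousComponent a (D + e) f) ≠ 0 ∧
  ∃ (j₀ : Fin (k + 1)) (t : ℂ), t ^ a j₀ * q j₀ = 1 ∧
    ∃ (G : MvPolynomial (Fin k) ℂ) (w : Fin k → ℕ) (N : ℕ)
      (E : MvPowerSeries (Fin k) ℂ ≃ₐ[ℂ] MvPowerSeries (Fin k) ℂ) (u : (MvPowerSeries (Fin k) ℂ)ˣ),
      YV.SqG G w N ∧ (YQ.chartEq (weightedHomogeneousComponent a D f) (fun i => t ^ a i * q i) j₀ :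
        MvPowerSeries (Fin k) ℂ) = u * E (G : MvPowerSeries (Fin k) ℂ) ∧
      (∑ j, a j ≤ D ∨ ∀ i, (∑ j, a j) * N + (D + e) * w i < D * ∑ j, w j + (D + e) * N)

/-- In the chart `x_i = x_0^(a_i) (q_i' + x_l)`, `x_{j₀} = x_0^(a_{j₀})` of the weighted blow-up of
the origin, at a point `q' = (t^(a_i) q_i)`, `q'_{j₀} = 1`, of the orbit of `q`, `f` is `x_0^D h`, and
`h` is, up to a unit and a formal change of coordinates which preserves the divisor `x_0 = 0`,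
semi-quasi-homogeneous relative to it; `∑ a_i ≤ D`, or
`w_0 N ∑ a_i < D w_0 ∑_{j ≥ 1} w_j + (D w_0 + N) (N - w_i)` for all `i ≥ 1`. -/
def WRelSqPt (f : MvPolynomial (Fin (k + 1)) ℂ) (a : Fin (k + 1) → ℕ) (D : ℕ)
    (q : Fin (k + 1) → ℂ) : Prop :=
  ∃ (j₀ : Fin (k + 1)) (t : ℂ), t ^ a j₀ * q j₀ = 1 ∧
    ∃ (h G : MvPolynomial (Fin (k + 1)) ℂ) (w : Fin (k + 1) → ℕ) (N : ℕ)
      (E : MvPowerSeries (Fin (k + 1)) ℂ ≃ₐ[ℂ] MvPowerSeries (Fin (k + 1)) ℂ)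
      (u v : (MvPowerSeries (Fin (k + 1)) ℂ)ˣ),
      aeval (fun i => X 0 ^ a i * j₀.insertNth (α := fun _ => MvPolynomial (Fin (k + 1)) ℂ) 1
        (fun l : Fin k => X l.succ + C (t ^ a (j₀.succAbove l) * q (j₀.succAbove l))) i) f =
        X 0 ^ D * h ∧
      YV.RelSqG G w N ∧ (h : MvPowerSeries (Fin (k + 1)) ℂ) =
        u * E (G : MvPowerSeries (Fin (k + 1)) ℂ) ∧
      E (MvPowerSeries.X 0) = MvPowerSeries.X 0 * (v : MvPowerSeries (Fin (k + 1)) ℂ) ∧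
      (∑ j, a j ≤ D ∨ ∀ i : Fin k, (∑ j, a j) * w 0 * N + w i.succ * (D * w 0 + N) <
        D * w 0 * (∑ j : Fin k, w j.succ) + N * (D * w 0 + N))

/-- A germ `f = f_D + f_{D+e} + f_{D+e+1} + ⋯` in `n = k + 1 ≥ 3` variables for weights
`a_1, …, a_n < D`, such that `f_D ≠ 0` has finitely many critical orbits under `ℂ^*`, all with
trivial isotropy groups, and each of them satisfies `WSqPt`, or `WRelSqPt`, or `n = 3` and `f_{D+e}(q) ≠ 0` (and `∑ a_i ≤ D + e`,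
`2 ∑ a_i < 3 D + e`). At the candidate pole `-∑ a_i/D`: `∑ a_i = D`, or the log canonical threshold
of `f` is `∑ a_i/D`, or `f_D^(-∑ a_i/D)` is not a sum of derivatives. -/
structure WTanCone (f : MvPolynomial (Fin (k + 1)) ℂ) (a : Fin (k + 1) → ℕ) (D e : ℕ) : Prop where
  hk : 2 ≤ k
  ha : ∀ i, 0 < a i
  haD : ∀ i, a i < D
  he : 0 < e
  low : ∀ v ∈ f.support, ∑ i, a i * v i = D ∨ D + e ≤ ∑ i, a i * v i
  ne : weightedHomogeneousComponent a D f ≠ 0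
  fin : ∃ P : Finset (Fin (k + 1) → ℂ), ∀ q, SingPt (weightedHomogeneousComponent a D f) q →
    ∃ p ∈ P, ∃ t : ℂ, q = fun i => t ^ a i * p i
  free : ∀ q, SingPt (weightedHomogeneousComponent a D f) q →
    ∀ m : ℕ, (∀ i, q i ≠ 0 → m ∣ a i) → m = 1
  sing : ∀ q, SingPt (weightedHomogeneousComponent a D f) q →
    WSqPt f a D e q ∨ WRelSqPt f a D q ∨
      (k = 2 ∧ ∑ i, a i ≤ D + e ∧ 2 * ∑ i, a i < 3 * D + e ∧
        eval q (weightedHomogeneousComponent a (D + e) f) ≠ 0)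
  root : ∑ i, a i = D ∨
    (∃ r : ℝ, 0 < r ∧ ∀ c : ℝ, 0 < c → c < ((∑ i, a i : ℕ) : ℝ) / D →
      IntegrableOn (fun x => ‖eval x f‖ ^ (-(2 * c))) (Metric.ball (0 : Fin (k + 1) → ℂ) r)) ∨
    NonEx (weightedHomogeneousComponent a D f) (((∑ i, a i : ℕ) : ℂ) / D)

end MPb07157
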